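import Mathlib

/-!
# Basic definitions for the angle problem: directions, energy kernel
-/

namespace Pool.Agent.Lib.Angles

open scoped ENNReal

/-- Direction from `v` to `y` (a unit vector unless `y = v`). -/
noncomputable def dir {E : Type*} [NormedAddCommGroup E] [NormedSpace ℝ E] (v y : E) : E :=
  ‖y - v‖⁻¹ • (y - v)

/-- The energy kernel `(1 - ⟨u,w⟩²)^{-k}`. -/
noncomputable def pot {n : ℕ} (k : ℕ) (u w : EuclideanSpace ℝ (Fin n)) : ℝ≥0∞ :=
  ((ENNReal.ofReal (1 - inner ℝ u w ^ 2))⁻¹) ^ k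

/-- The radius used in the tail estimate. -/
noncomputable def rOne (t : ℝ) : ℝ := √(√((1 + 3 * t ^ 2) / 4))

/-- The constant in the tail estimate. -/
noncomputable def tailB (d g : ℕ) (t : ℝ) : ℝ :=
  2 * rOne t ^ (⌊((d : ℝ) - 1) * t ^ 2 / 2⌋₊ + 1) * (1 / (1 - rOne t)) ^ (2 * g) +
    4 * ((d : ℝ) - 1) * (2 / (1 - t ^ 2)) ^ (2 * g) * (3 / 4) ^ (d - 2 - 2 * g)

end Pool.Agent.Lib.Angles
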