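import Mathlib

/-!
# Pairs of points at small scale inside a nearly extremal ball
-/

namespace Pool.Agent.Lib.Angles

open MeasureTheory Set Filter Topology Metric
open scoped ENNReal NNReal

/-- Euclidean space of even dimension. -/
abbrev VV (d : ℕ) := EuclideanSpace ℝ (Fin (2 * d))

lemma finrank_VV (d : ℕ) : Module.finrank ℝ (VV d) = 2 * d := by simp

lemma inter_closedBall_subset {E : Type*} [NormedAddCommGroup E] [InnerProductSpace ℝ E] (x y : E)
    {ρ : ℝ} (hρ : 0 < ρ) :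
    closedBall x ρ ∩ closedBall y ρ ⊆
      closedBall ((1 / 2 : ℝ) • (x + y)) (√(ρ ^ 2 - dist x y ^ 2 / 4)) := by
  rintro a ⟨hx, hy⟩
  rw [mem_closedBall, dist_eq_norm] at hx hy ⊢
  apply Real.le_sqrt_of_sq_le
  have h1 := parallelogram_law_with_norm ℝ (a - x) (a - y)
  have h2 : (a - x) + (a - y) = (2 : ℝ) • (a - (1 / 2 : ℝ) • (x + y)) := by
    module
  have h3 : (a - x) - (a - y) = y - x := by abel
  rw [h2, h3, norm_smul, mul_pow] at h1
  have h4 : ‖y - x‖ = dist x y := by rw [dist_eq_norm, norm_sub_rev]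
  rw [h4] at h1
  have h5 : ‖a - x‖ ^ 2 ≤ ρ ^ 2 := by gcongr
  have h6 : ‖a - y‖ ^ 2 ≤ ρ ^ 2 := by gcongr
  have h7 : ‖(2 : ℝ)‖ ^ 2 = 4 := by norm_num
  rw [h7] at h1
  nlinarith

/-- The weight `(1 - |x-y|²/(4ρ²))^d`, cut off at distance `2ρ`. -/
noncomputable def wt0 (d : ℕ) (ρ : ℝ) (x y : VV d) : ℝ :=
  if dist x y ≤ 2 * ρ then (1 - dist x y ^ 2 / (4 * ρ ^ 2)) ^ d else 0

lemma base_nonneg {D ρ : ℝ} (hρ : 0 < ρ) (hD : 0 ≤ D) (h : D ≤ 2 * ρ) :
    0 ≤ 1 - D ^ 2 / (4 * ρ ^ 2) := by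
  rw [sub_nonneg, div_le_one (by positivity)]
  nlinarith

lemma wt0_nonneg (d : ℕ) {ρ : ℝ} (hρ : 0 < ρ) (x y : VV d) : 0 ≤ wt0 d ρ x y := by
  unfold wt0
  split_ifs with h
  · exact pow_nonneg (base_nonneg hρ dist_nonneg h) _
  · exact le_rfl

lemma wt0_comm (d : ℕ) (ρ : ℝ) (x y : VV d) : wt0 d ρ x y = wt0 d ρ y x := by
  unfold wt0
  rw [dist_comm]

lemma volume_closedBall_VV {d : ℕ} (x : VV d) {ρ : ℝ} (hρ : 0 ≤ ρ) :
    volume (closedBall x ρ) = ENNReal.ofReal (ρ ^ (2 * d)) * volume (closedBall (0 : VV d) 1) := by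
  rw [Measure.addHaar_closedBall' volume x hρ, finrank_VV]

theorem lens {d : ℕ} (x y : VV d) {ρ : ℝ} (hρ : 0 < ρ) :
    volume (closedBall x ρ ∩ closedBall y ρ) ≤
      ENNReal.ofReal (wt0 d ρ x y) * (ENNReal.ofReal (ρ ^ (2 * d)) *
        volume (closedBall (0 : VV d) 1)) := by
  unfold wt0
  split_ifs with h
  · refine (measure_mono (inter_closedBall_subset x y hρ)).trans ?_
    rw [volume_closedBall_VV _ (Real.sqrt_nonneg _), ← mul_assoc,
      ← ENNReal.ofReal_mul (pow_nonneg (base_nonneg hρ dist_nonneg h) _)]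
    refine le_of_eq ?_
    congr 2
    have h1 : 0 ≤ ρ ^ 2 - dist x y ^ 2 / 4 := by
      have : dist x y ^ 2 ≤ (2 * ρ) ^ 2 := by gcongr
      nlinarith
    rw [pow_mul, Real.sq_sqrt h1, pow_mul, ← mul_pow]
    congr 1
    field_simp
  · have : closedBall x ρ ∩ closedBall y ρ = ∅ := by
      rw [← disjoint_iff_inter_eq_empty]
      apply closedBall_disjoint_closedBall
      push Not at h
      linarith
    rw [this]
    simp

lemma measurable_wt0 (d : ℕ) (ρ : ℝ) : Measurable fun p : VV d × VV d => wt0 d ρ p.1 p.2 := by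
  unfold wt0
  refine Measurable.ite ?_ ?_ measurable_const
  · exact (isClosed_le (by fun_prop) continuous_const).measurableSet
  · have : Continuous fun p : VV d × VV d => (1 - dist p.1 p.2 ^ 2 / (4 * ρ ^ 2)) ^ d := by
      fun_prop
    exact this.measurable

lemma lintegral_sq_le {X : Type*} [MeasurableSpace X] (μ : Measure X) {f : X → ℝ≥0∞}
    (hf : Measurable f) {A : Set X} :
    (∫⁻ x in A, f x ∂μ) ^ 2 ≤ μ A * ∫⁻ x in A, f x ^ 2 ∂μ := by
  have h1 := ENNReal.lintegral_mul_le_Lp_mul_Lq (μ.restrict A) Real.HolderConjugate.two_two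
    (f := f) (g := fun _ => 1) hf.aemeasurable aemeasurable_const
  simp only [Pi.mul_apply, mul_one, ENNReal.one_rpow, lintegral_const, one_mul,
    Measure.restrict_apply_univ] at h1
  have h2 : (∫⁻ x in A, f x ∂μ) ^ 2 ≤
      ((∫⁻ x in A, f x ^ (2 : ℝ) ∂μ) ^ (1 / 2 : ℝ) * (μ A) ^ (1 / 2 : ℝ)) ^ 2 := by
    gcongr
  refine h2.trans (le_of_eq ?_)
  rw [mul_pow, ← ENNReal.rpow_natCast, ← ENNReal.rpow_natCast, ← ENNReal.rpow_mul,
    ← ENNReal.rpow_mul]
  norm_num
  rw [mul_comm]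

/-- Lower bound for the pair integral. -/
theorem pair_lower {d : ℕ} (κ : Measure (VV d)) [IsFiniteMeasure κ] {x₀ : VV d} {R ρ : ℝ}
    (hR : 0 < R) (hρ : 0 < ρ) (hκ : κ (closedBall x₀ R)ᶜ = 0) :
    κ univ ^ 2 * ENNReal.ofReal (ρ ^ (2 * d)) ≤
      ENNReal.ofReal ((R + ρ) ^ (2 * d)) *
        ∫⁻ x, ∫⁻ y, ENNReal.ofReal (wt0 d ρ x y) ∂κ ∂κ := by
  set v := volume (closedBall (0 : VV d) 1) with hv
  have hv0 : v ≠ 0 := (measure_closedBall_pos volume _ one_pos).ne'
  have hvt : v ≠ ∞ := measure_closedBall_lt_top.ne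
  set J := ∫⁻ x, ∫⁻ y, ENNReal.ofReal (wt0 d ρ x y) ∂κ ∂κ with hJ
  set f : VV d → ℝ≥0∞ := fun a => κ (closedBall a ρ) with hf
  have hS : MeasurableSet {p : VV d × VV d | dist p.2 p.1 ≤ ρ} :=
    (isClosed_le (by fun_prop) continuous_const).measurableSet
  have hfm : Measurable f := by
    have := measurable_measure_prodMk_left (ν := κ) hS
    exact this
  -- first moment
  have h1 : ∫⁻ a, f a = κ univ * (ENNReal.ofReal (ρ ^ (2 * d)) * v) := by
    have e1 : ∫⁻ a, f a = (volume.prod κ) {p : VV d × VV d | dist p.2 p.1 ≤ ρ} := by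
      rw [Measure.prod_apply hS]
      rfl
    rw [e1, Measure.prod_apply_symm hS]
    have e2 : ∀ x : VV d, volume ((fun a => (a, x)) ⁻¹' {p : VV d × VV d | dist p.2 p.1 ≤ ρ}) =
        ENNReal.ofReal (ρ ^ (2 * d)) * v := by
      intro x
      rw [← volume_closedBall_VV x hρ.le]
      congr 1
      ext a
      simp [dist_comm]
    simp only [e2, lintegral_const]
    rw [mul_comm]
  -- the support
  have h2 : ∫⁻ a, f a ≤ ∫⁻ a in closedBall x₀ (R + ρ), f a := by
    rw [← lintegral_indicator measurableSet_closedBall]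
    apply lintegral_mono
    intro a
    by_cases ha : a ∈ closedBall x₀ (R + ρ)
    · rw [indicator_of_mem ha]
    · rw [indicator_of_notMem ha]
      simp only [hf, nonpos_iff_eq_zero]
      refine measure_mono_null ?_ hκ
      intro y hy hy'
      apply ha
      rw [mem_closedBall] at hy hy' ⊢
      have := dist_triangle a y x₀
      rw [dist_comm a y] at this
      linarith
  -- second moment
  have h3 : ∫⁻ a, f a ^ 2 ≤ J * (ENNReal.ofReal (ρ ^ (2 * d)) * v) := by
    set S3 : Set (VV d × (VV d × VV d)) := {p | dist p.2.1 p.1 ≤ ρ ∧ dist p.2.2 p.1 ≤ ρ} with hS3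
    have hS3m : MeasurableSet S3 := by
      have c1 : IsClosed {p : VV d × (VV d × VV d) | dist p.2.1 p.1 ≤ ρ} :=
        isClosed_le (by fun_prop) continuous_const
      have c2 : IsClosed {p : VV d × (VV d × VV d) | dist p.2.2 p.1 ≤ ρ} :=
        isClosed_le (by fun_prop) continuous_const
      exact (c1.inter c2).measurableSet
    have e1 : ∫⁻ a, f a ^ 2 = (volume.prod (κ.prod κ)) S3 := by
      rw [Measure.prod_apply hS3m]
      apply lintegral_congr
      intro a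
      have : Prod.mk a ⁻¹' S3 = closedBall a ρ ×ˢ closedBall a ρ := by
        ext ⟨x, y⟩
        simp [hS3]
      rw [this, Measure.prod_prod, sq]
    rw [e1, Measure.prod_apply_symm hS3m]
    have e2 : ∀ xy : VV d × VV d, volume ((fun a => (a, xy)) ⁻¹' S3) ≤
        ENNReal.ofReal (wt0 d ρ xy.1 xy.2) * (ENNReal.ofReal (ρ ^ (2 * d)) * v) := by
      intro xy
      refine le_trans (le_of_eq ?_) (lens xy.1 xy.2 hρ)
      congr 1
      ext a
      simp [hS3, dist_comm]
    refine (lintegral_mono e2).trans ?_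
    rw [lintegral_mul_const _ (measurable_wt0 d ρ).ennreal_ofReal,
      lintegral_prod _ (measurable_wt0 d ρ).ennreal_ofReal.aemeasurable]
  have h4 := lintegral_sq_le volume hfm (A := closedBall x₀ (R + ρ))
  have h5 : (κ univ * (ENNReal.ofReal (ρ ^ (2 * d)) * v)) ^ 2 ≤
      (ENNReal.ofReal ((R + ρ) ^ (2 * d)) * v) * (J * (ENNReal.ofReal (ρ ^ (2 * d)) * v)) := by
    calc (κ univ * (ENNReal.ofReal (ρ ^ (2 * d)) * v)) ^ 2 = (∫⁻ a, f a) ^ 2 := by rw [h1]
      _ ≤ (∫⁻ a in closedBall x₀ (R + ρ), f a) ^ 2 := by gcongr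
      _ ≤ volume (closedBall x₀ (R + ρ)) * ∫⁻ a in closedBall x₀ (R + ρ), f a ^ 2 := h4
      _ ≤ volume (closedBall x₀ (R + ρ)) * ∫⁻ a, f a ^ 2 := by
        gcongr
        exact Measure.restrict_le_self
      _ ≤ _ := by
        rw [volume_closedBall_VV x₀ (by positivity)]
        gcongr
  set c := ENNReal.ofReal (ρ ^ (2 * d)) with hc
  have hc0 : c ≠ 0 := by
    rw [hc, ne_eq, ENNReal.ofReal_eq_zero, not_le]
    positivity
  have hct : c ≠ ∞ := ENNReal.ofReal_ne_top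
  have h6 : (κ univ ^ 2 * c) * (c * v ^ 2) ≤
      (ENNReal.ofReal ((R + ρ) ^ (2 * d)) * J) * (c * v ^ 2) := by
    calc (κ univ ^ 2 * c) * (c * v ^ 2) = (κ univ * (c * v)) ^ 2 := by ring
      _ ≤ _ := h5
      _ = _ := by ring
  refine (ENNReal.mul_le_mul_iff_left ?_ ?_).1 h6
  · exact mul_ne_zero hc0 (pow_ne_zero _ hv0)
  · exact ENNReal.mul_ne_top hct (ENNReal.pow_ne_top hvt)

lemma exists_extremal {E : Type*} [NormedAddCommGroup E] [MeasurableSpace E]
    (μ : Measure E) [IsFiniteMeasure μ] (hμ0 : μ ≠ 0) {C s : ℝ} (hC : 0 < C)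
    (hμ : ∀ x r, 0 < r → μ (closedBall x r) ≤ ENNReal.ofReal (C * r ^ s)) :
    ∃ (M : ℝ) (x₀ : E) (R : ℝ), 0 < M ∧ 0 < R ∧
      (∀ x r, 0 < r → μ (closedBall x r) ≤ ENNReal.ofReal (M * r ^ s)) ∧
      ENNReal.ofReal (M / 2 * R ^ s) ≤ μ (closedBall x₀ R) := by
  set A : Set ℝ := {q | ∃ (x : E) (r : ℝ), 0 < r ∧ q = (μ (closedBall x r)).toReal / r ^ s} with hA
  have hbdd : BddAbove A := by
    refine ⟨C, ?_⟩
    rintro q ⟨x, r, hr, rfl⟩
    have hrs : 0 < r ^ s := Real.rpow_pos_of_pos hr s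
    rw [div_le_iff₀ hrs]
    exact ENNReal.toReal_le_of_le_ofReal (by positivity) (hμ x r hr)
  have hpos : ∃ q ∈ A, 0 < q := by
    by_contra hcon
    push Not at hcon
    apply hμ0
    rw [← Measure.measure_univ_eq_zero, ← iUnion_closedBall_nat (0 : E)]
    refine measure_iUnion_null fun j => ?_
    have h1 : μ (closedBall (0 : E) ((j : ℝ) + 1)) = 0 := by
      have hj : (0 : ℝ) < (j : ℝ) + 1 := by positivity
      have h2 := hcon _ ⟨0, (j : ℝ) + 1, hj, rfl⟩
      have h3 : 0 < ((j : ℝ) + 1) ^ s := Real.rpow_pos_of_pos hj s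
      have h4 : (μ (closedBall (0 : E) ((j : ℝ) + 1))).toReal ≤ 0 := by
        by_contra h5
        push Not at h5
        have := div_pos h5 h3
        linarith
      have h6 := le_antisymm h4 ENNReal.toReal_nonneg
      rw [ENNReal.toReal_eq_zero_iff] at h6
      exact h6.resolve_right (measure_ne_top _ _)
    exact measure_mono_null (closedBall_subset_closedBall (by linarith)) h1
  obtain ⟨q₀, hq₀, hq₀pos⟩ := hpos
  have hne : A.Nonempty := ⟨q₀, hq₀⟩
  have hM : 0 < sSup A := lt_of_lt_of_le hq₀pos (le_csSup hbdd hq₀)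
  obtain ⟨q, ⟨x₀, R, hR, rfl⟩, hlt⟩ := exists_lt_of_lt_csSup hne (half_lt_self hM)
  refine ⟨sSup A, x₀, R, hM, hR, fun x r hr => ?_, ?_⟩
  · have hrs : 0 < r ^ s := Real.rpow_pos_of_pos hr s
    have h1 := le_csSup hbdd ⟨x, r, hr, rfl⟩
    rw [div_le_iff₀ hrs] at h1
    exact (ENNReal.le_ofReal_iff_toReal_le (measure_ne_top _ _) (by positivity)).2 h1
  · have hrs : 0 < R ^ s := Real.rpow_pos_of_pos hR s
    rw [lt_div_iff₀ hrs] at hlt
    exact ENNReal.ofReal_le_of_le_toReal hlt.le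

/-- The measure of a thin double cone (intersected with a ball). -/
theorem tube_le {E : Type*} [NormedAddCommGroup E] [InnerProductSpace ℝ E] [MeasurableSpace E]
    (μ : Measure E) {M s : ℝ} {n : ℕ} (hn : 0 < n) (hs0 : 0 ≤ s) (hsn : s ≤ n) (hM : 0 ≤ M)
    (hμ : ∀ x r, 0 < r → μ (closedBall x r) ≤ ENNReal.ofReal (M * r ^ s))
    (v u : E) (hu : ‖u‖ = 1) {Λ θ : ℝ} (hΛ : 0 < Λ) (hθ : 0 < θ) (hθ1 : θ ≤ 1) :
    μ {y | ‖y - v‖ ≤ Λ ∧ ‖y - v‖ ^ 2 - inner ℝ u (y - v) ^ 2 ≤ θ ^ 2 * ‖y - v‖ ^ 2} ≤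
      ENNReal.ofReal (3 * (n + 2) * (M * θ ^ (s - 1) * Λ ^ s)) := by
  have hn' : (0 : ℝ) < n := by exact_mod_cast hn
  set h : ℝ := 2 * θ * Λ / n with hh
  have hh0 : 0 < h := by positivity
  set J : ℕ := ⌊(n : ℝ) / (2 * θ) + 1 / 2⌋₊ with hJ
  have hJ0 : (J : ℝ) ≤ (n : ℝ) / (2 * θ) + 1 / 2 := Nat.floor_le (by positivity)
  set rad : ℝ := θ * Λ * (1 + 1 / n) with hrad
  have hrad0 : 0 < rad := by positivity
  have hcover : {y | ‖y - v‖ ≤ Λ ∧ ‖y - v‖ ^ 2 - inner ℝ u (y - v) ^ 2 ≤ θ ^ 2 * ‖y - v‖ ^ 2} ⊆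
      ⋃ j ∈ Finset.Icc (-(J : ℤ)) J, closedBall (v + ((j : ℝ) * h) • u) rad := by
    rintro y ⟨hy1, hy2⟩
    set a : ℝ := inner ℝ u (y - v) with ha
    have habs : |a| ≤ Λ := by
      calc |a| ≤ ‖u‖ * ‖y - v‖ := abs_real_inner_le_norm _ _
        _ ≤ Λ := by rw [hu, one_mul]; exact hy1
    set j : ℤ := round (a / h) with hj
    have hj1 : |a / h - j| ≤ 1 / 2 := abs_sub_round _
    have hj2 : |a - j * h| ≤ h / 2 := by
      have : a - j * h = (a / h - j) * h := by field_simp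
      rw [this, abs_mul, abs_of_pos hh0]
      nlinarith
    have hj3 : |(j : ℝ)| ≤ (n : ℝ) / (2 * θ) + 1 / 2 := by
      have e1 : |(j : ℝ)| ≤ |a / h| + 1 / 2 := by
        have := abs_sub_abs_le_abs_sub (j : ℝ) (a / h)
        rw [abs_sub_comm] at this
        linarith
      have e2 : |a / h| ≤ (n : ℝ) / (2 * θ) := by
        rw [abs_div, abs_of_pos hh0, div_le_iff₀ hh0, hh]
        have : (n : ℝ) / (2 * θ) * (2 * θ * Λ / n) = Λ := by field_simp
        rw [this]
        exact habs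
      linarith
    have hj4 : (j.natAbs : ℕ) ≤ J := by
      apply Nat.le_floor
      rw [Nat.cast_natAbs]
      exact_mod_cast hj3
    rw [mem_iUnion₂]
    refine ⟨j, ?_, ?_⟩
    · rw [Finset.mem_Icc]
      omega
    · rw [mem_closedBall, dist_eq_norm]
      have e1 : y - (v + ((j : ℝ) * h) • u) = (y - v - a • u) + (a - j * h) • u := by
        module
      have e2 : ‖y - v - a • u‖ ≤ θ * Λ := by
        apply abs_le_of_sq_le_sq' _ (by positivity) |>.2
        have e3 : ‖y - v - a • u‖ ^ 2 = ‖y - v‖ ^ 2 - a ^ 2 := by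
          rw [norm_sub_sq_real, inner_smul_right, norm_smul, hu, real_inner_comm, ← ha,
            Real.norm_eq_abs, mul_one, sq_abs]
          ring
        rw [e3, mul_pow]
        refine hy2.trans ?_
        gcongr
      rw [e1]
      calc ‖(y - v - a • u) + (a - j * h) • u‖ ≤ ‖y - v - a • u‖ + ‖(a - j * h) • u‖ :=
            norm_add_le _ _
        _ ≤ θ * Λ + h / 2 := by
            rw [norm_smul, hu, mul_one, Real.norm_eq_abs]
            exact add_le_add e2 hj2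
        _ = rad := by
            rw [hrad, hh]
            field_simp
  have hball : ∀ x : E, μ (closedBall x rad) ≤ ENNReal.ofReal (3 * (M * (θ * Λ) ^ s)) := by
    intro x
    refine (hμ x rad hrad0).trans (ENNReal.ofReal_le_ofReal ?_)
    have e1 : rad ^ s ≤ (θ * Λ) ^ s * 3 := by
      rw [hrad, Real.mul_rpow (by positivity) (by positivity)]
      gcongr
      calc (1 + 1 / (n : ℝ)) ^ s ≤ (1 + 1 / (n : ℝ)) ^ (n : ℝ) :=
            Real.rpow_le_rpow_of_exponent_le (by simp) hsn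
        _ ≤ (Real.exp (1 / n)) ^ (n : ℝ) := by
            apply Real.rpow_le_rpow (by positivity) _ hn'.le
            linarith [Real.add_one_le_exp (1 / (n : ℝ))]
        _ = Real.exp 1 := by
            rw [← Real.exp_mul]
            congr 1
            field_simp
        _ ≤ 3 := by linarith [Real.exp_one_lt_d9]
    calc M * rad ^ s ≤ M * ((θ * Λ) ^ s * 3) := by gcongr
      _ = _ := by ring
  calc μ _ ≤ μ (⋃ j ∈ Finset.Icc (-(J : ℤ)) J, closedBall (v + ((j : ℝ) * h) • u) rad) :=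
        measure_mono hcover
    _ ≤ ∑ j ∈ Finset.Icc (-(J : ℤ)) J, μ (closedBall (v + ((j : ℝ) * h) • u) rad) :=
        measure_biUnion_finset_le _ _
    _ ≤ ∑ j ∈ Finset.Icc (-(J : ℤ)) J, ENNReal.ofReal (3 * (M * (θ * Λ) ^ s)) :=
        Finset.sum_le_sum fun j _ => hball _
    _ = ENNReal.ofReal ((2 * J + 1) * (3 * (M * (θ * Λ) ^ s))) := by
        have : ((J : ℤ) + 1 - -(J : ℤ)).toNat = 2 * J + 1 := by omega
        rw [Finset.sum_const, Int.card_Icc, nsmul_eq_mul, this, ← ENNReal.ofReal_natCast,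
          ← ENNReal.ofReal_mul (by positivity)]
        push_cast
        rfl
    _ ≤ _ := by
        apply ENNReal.ofReal_le_ofReal
        have e1 : (2 * (J : ℝ) + 1) ≤ (n + 2) / θ := by
          rw [le_div_iff₀ hθ]
          have : (2 * (J : ℝ) + 1) * θ ≤ (2 * ((n : ℝ) / (2 * θ) + 1 / 2) + 1) * θ := by
            gcongr
          refine this.trans ?_
          have : (2 * ((n : ℝ) / (2 * θ) + 1 / 2) + 1) * θ = n + 2 * θ := by field_simp; ring
          rw [this]
          linarith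
        have e2 : (θ * Λ) ^ s = θ ^ (s - 1) * θ * Λ ^ s := by
          rw [Real.mul_rpow hθ.le hΛ.le, ← Real.rpow_add_one hθ.ne']
          ring_nf
        rw [e2]
        have hΛs : 0 < Λ ^ s := Real.rpow_pos_of_pos hΛ s
        have hθs : 0 < θ ^ (s - 1) := Real.rpow_pos_of_pos hθ _
        calc (2 * (J : ℝ) + 1) * (3 * (M * (θ ^ (s - 1) * θ * Λ ^ s)))
            ≤ ((n + 2) / θ) * (3 * (M * (θ ^ (s - 1) * θ * Λ ^ s))) := by gcongr
          _ = 3 * (n + 2) * (M * θ ^ (s - 1) * Λ ^ s) := by field_simp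

/-- From a bound for the distribution function to a bound for a negative moment. -/
theorem potential_of_tube {X : Type*} [MeasurableSpace X] (η : Measure X) (Q : X → ℝ)
    (hQm : Measurable Q) (hQ0 : ∀ x, 0 ≤ Q x) (hQ1 : ∀ x, Q x ≤ 1) {A : ℝ≥0∞} (hA : A ≠ ∞)
    {k : ℕ} (hk : 0 < k)
    (h : ∀ τ : ℝ, 0 < τ → τ ≤ 1 → η {x | Q x ≤ τ} ≤ A * ENNReal.ofReal (τ ^ (k + 1))) :
    ∫⁻ x, (ENNReal.ofReal (Q x))⁻¹ ^ k ∂η ≤ ENNReal.ofReal (3 * (k + 1)) * A := by
  have hk' : (0 : ℝ) < k := by exact_mod_cast hk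
  set r : ℝ := k / (k + 1) with hr
  have hr0 : 0 < r := by positivity
  have hr1 : r < 1 := by
    rw [hr, div_lt_one (by positivity)]
    linarith
  -- the zero set
  have hzero : η {x | Q x ≤ 0} = 0 := by
    have h1 : Tendsto (fun j : ℕ => A * ENNReal.ofReal ((r ^ j) ^ (k + 1))) atTop (𝓝 0) := by
      have h2 : Tendsto (fun j : ℕ => (r ^ j) ^ (k + 1)) atTop (𝓝 0) := by
        have := (tendsto_pow_atTop_nhds_zero_of_lt_one hr0.le hr1).pow (k + 1)
        simpa using this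
      have h3 : Tendsto (fun j : ℕ => ENNReal.ofReal ((r ^ j) ^ (k + 1))) atTop (𝓝 0) := by
        have := ENNReal.tendsto_ofReal h2
        simpa using this
      have := ENNReal.Tendsto.const_mul (a := A) h3 (Or.inr hA)
      simpa using this
    refine le_antisymm (ge_of_tendsto' h1 fun j => ?_) zero_le
    refine (measure_mono ?_).trans (h (r ^ j) (by positivity) (pow_le_one₀ hr0.le hr1.le))
    intro x hx
    have : Q x ≤ 0 := hx
    exact this.trans (by positivity)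
  -- pointwise bound
  have hrk : (r⁻¹) ^ k ≤ 3 := by
    have h1 : r⁻¹ = 1 + 1 / (k : ℝ) := by
      rw [hr]
      field_simp
    rw [h1]
    calc (1 + 1 / (k : ℝ)) ^ k ≤ (Real.exp (1 / k)) ^ k := by
          gcongr
          linarith [Real.add_one_le_exp (1 / (k : ℝ))]
      _ = Real.exp 1 := by
          rw [← Real.exp_nat_mul]
          congr 1
          field_simp
      _ ≤ 3 := by linarith [Real.exp_one_lt_d9]
  have hpt : ∀ᵐ x ∂η, (ENNReal.ofReal (Q x))⁻¹ ^ k ≤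
      ∑' j : ℕ, ({x | Q x ≤ r ^ j}).indicator (fun _ => ENNReal.ofReal (3 * ((r⁻¹) ^ k) ^ j)) x := by
    have h0 : ∀ᵐ x ∂η, ¬ (Q x ≤ 0) := by
      rw [ae_iff]
      simpa using hzero
    filter_upwards [h0] with x hx
    push Not at hx
    obtain ⟨j, hj1, hj2⟩ := exists_nat_pow_near_of_lt_one hx (hQ1 x) hr0 hr1
    refine le_trans ?_ (ENNReal.le_tsum j)
    rw [indicator_of_mem (by exact hj2), ← ENNReal.ofReal_inv_of_pos hx,
      ← ENNReal.ofReal_pow (by positivity)]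
    apply ENNReal.ofReal_le_ofReal
    calc (Q x)⁻¹ ^ k ≤ ((r ^ (j + 1))⁻¹) ^ k := by
          gcongr
      _ = (r⁻¹) ^ k * ((r⁻¹) ^ k) ^ j := by
          rw [← inv_pow, ← pow_mul, ← pow_mul, ← pow_add]
          congr 1
          ring
      _ ≤ 3 * ((r⁻¹) ^ k) ^ j := by gcongr
  have hms : ∀ j : ℕ, MeasurableSet {x | Q x ≤ r ^ j} := fun j => measurableSet_le hQm measurable_const
  calc ∫⁻ x, (ENNReal.ofReal (Q x))⁻¹ ^ k ∂η
      ≤ ∫⁻ x, ∑' j : ℕ, ({x | Q x ≤ r ^ j}).indicator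
          (fun _ => ENNReal.ofReal (3 * ((r⁻¹) ^ k) ^ j)) x ∂η := lintegral_mono_ae hpt
    _ = ∑' j : ℕ, ∫⁻ x, ({x | Q x ≤ r ^ j}).indicator
          (fun _ => ENNReal.ofReal (3 * ((r⁻¹) ^ k) ^ j)) x ∂η := by
        rw [lintegral_tsum]
        intro j
        exact (measurable_const.indicator (hms j)).aemeasurable
    _ = ∑' j : ℕ, ENNReal.ofReal (3 * ((r⁻¹) ^ k) ^ j) * η {x | Q x ≤ r ^ j} := by
        congr 1
        ext j
        rw [lintegral_indicator_const (hms j)]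
    _ ≤ ∑' j : ℕ, ENNReal.ofReal (3 * r ^ j) * A := by
        refine ENNReal.tsum_le_tsum fun j => ?_
        calc ENNReal.ofReal (3 * ((r⁻¹) ^ k) ^ j) * η {x | Q x ≤ r ^ j}
            ≤ ENNReal.ofReal (3 * ((r⁻¹) ^ k) ^ j) * (A * ENNReal.ofReal ((r ^ j) ^ (k + 1))) := by
              gcongr
              exact h (r ^ j) (by positivity) (pow_le_one₀ hr0.le hr1.le)
          _ = ENNReal.ofReal (3 * ((r⁻¹) ^ k) ^ j) * ENNReal.ofReal ((r ^ j) ^ (k + 1)) * A := by
              ring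
          _ = _ := by
              rw [← ENNReal.ofReal_mul (by positivity)]
              congr 2
              rw [mul_assoc]
              congr 1
              rw [pow_succ, ← mul_assoc, ← pow_mul, ← pow_mul, inv_pow, mul_comm k j]
              rw [inv_mul_cancel₀ (by positivity), one_mul]
    _ = ENNReal.ofReal (3 * (k + 1)) * A := by
        rw [ENNReal.tsum_mul_right]
        congr 1
        have hs : Summable fun j : ℕ => 3 * r ^ j :=
          (summable_geometric_of_lt_one hr0.le hr1).mul_left 3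
        rw [← ENNReal.ofReal_tsum_of_nonneg (fun j => by positivity) hs, tsum_mul_left,
          tsum_geometric_of_lt_one hr0.le hr1]
        congr 2
        rw [hr]
        field_simp
        ring

end Pool.Agent.Lib.Angles
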