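import Mathlib
import Pool.Agent.Lib.Angles.Ball

/-!
# Weighted measures on annuli and thin cones
-/

namespace Pool.Agent.Lib.Angles

open MeasureTheory Set Filter Topology Metric
open scoped ENNReal NNReal

/-- The weight `(1 - |x-y|²/(4ρ²))^d`, cut off to distances between `ρ/2` and `2ρ`. -/
noncomputable def wt (d : ℕ) (ρ : ℝ) (x y : VV d) : ℝ :=
  if ρ / 2 ≤ dist x y ∧ dist x y ≤ 2 * ρ then (1 - dist x y ^ 2 / (4 * ρ ^ 2)) ^ d else 0

lemma wt_nonneg (d : ℕ) {ρ : ℝ} (hρ : 0 < ρ) (x y : VV d) : 0 ≤ wt d ρ x y := by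
  unfold wt
  split_ifs with h
  · exact pow_nonneg (base_nonneg hρ dist_nonneg h.2) _
  · exact le_rfl

lemma wt_le_one (d : ℕ) {ρ : ℝ} (hρ : 0 < ρ) (x y : VV d) : wt d ρ x y ≤ 1 := by
  unfold wt
  split_ifs with h
  · apply pow_le_one₀ (base_nonneg hρ dist_nonneg h.2)
    have : 0 ≤ dist x y ^ 2 / (4 * ρ ^ 2) := by positivity
    linarith
  · exact zero_le_one

lemma wt_comm (d : ℕ) (ρ : ℝ) (x y : VV d) : wt d ρ x y = wt d ρ y x := by
  unfold wt
  rw [dist_comm]

lemma measurable_wt (d : ℕ) (ρ : ℝ) : Measurable fun p : VV d × VV d => wt d ρ p.1 p.2 := by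
  unfold wt
  refine Measurable.ite ?_ ?_ measurable_const
  · have h1 : IsClosed {p : VV d × VV d | ρ / 2 ≤ dist p.1 p.2} :=
      isClosed_le continuous_const (by fun_prop)
    have h2 : IsClosed {p : VV d × VV d | dist p.1 p.2 ≤ 2 * ρ} :=
      isClosed_le (by fun_prop) continuous_const
    exact (h1.inter h2).measurableSet
  · have : Continuous fun p : VV d × VV d => (1 - dist p.1 p.2 ^ 2 / (4 * ρ ^ 2)) ^ d := by
      fun_prop
    exact this.measurable

lemma measurable_wt_right (d : ℕ) (ρ : ℝ) (x : VV d) : Measurable fun y => wt d ρ x y := by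
  have h := (measurable_wt d ρ).comp (measurable_prodMk_left (x := x) (β := VV d))
  simpa [Function.comp_def] using h

lemma wt0_le_one (d : ℕ) {ρ : ℝ} (hρ : 0 < ρ) (x y : VV d) : wt0 d ρ x y ≤ 1 := by
  unfold wt0
  split_ifs with h
  · apply pow_le_one₀ (base_nonneg hρ dist_nonneg h)
    have : 0 ≤ dist x y ^ 2 / (4 * ρ ^ 2) := by positivity
    linarith
  · exact zero_le_one

lemma wt0_eq_wt (d : ℕ) {ρ : ℝ} (x y : VV d) (h : ρ / 2 ≤ dist x y) :
    wt0 d ρ x y = wt d ρ x y := by
  unfold wt0 wt
  by_cases h2 : dist x y ≤ 2 * ρ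
  · rw [if_pos h2, if_pos ⟨h, h2⟩]
  · rw [if_neg h2, if_neg (fun h3 => h2 h3.2)]

lemma wt0_le (d : ℕ) {ρ : ℝ} (hρ : 0 < ρ) (x y : VV d) :
    ENNReal.ofReal (wt0 d ρ x y) ≤ ENNReal.ofReal (wt d ρ x y) +
      (closedBall x (ρ / 2)).indicator (fun _ => (1 : ℝ≥0∞)) y := by
  rcases le_total (dist x y) (ρ / 2) with h | h
  · have hm : y ∈ closedBall x (ρ / 2) := by
      rw [mem_closedBall, dist_comm]
      exact h
    have h1 : ENNReal.ofReal (wt0 d ρ x y) ≤ 1 := by
      have := ENNReal.ofReal_le_ofReal (wt0_le_one d hρ x y)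
      rwa [ENNReal.ofReal_one] at this
    rw [indicator_of_mem hm]
    exact h1.trans le_add_self
  · rw [wt0_eq_wt d x y h]
    exact le_self_add

/-- Mass of a thin double cone with vertex `v` near `x`, for the weighted measure. -/
theorem weighted_tube_le {d : ℕ} (hd : 0 < d) (μ : Measure (VV d)) {M s : ℝ} (hs0 : 0 ≤ s)
    (hsn : s ≤ 2 * d) (hM : 0 ≤ M)
    (hμ : ∀ x r, 0 < r → μ (closedBall x r) ≤ ENNReal.ofReal (M * r ^ s)) {ρ : ℝ} (hρ : 0 < ρ)
    (x v u : VV d) (hu : ‖u‖ = 1) (hv : dist v x ≤ ρ / (4 * d)) {θ : ℝ} (hθ : 0 < θ) (hθ1 : θ ≤ 1) :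
    ∫⁻ y in {y | ‖y - v‖ ^ 2 - inner ℝ u (y - v) ^ 2 ≤ θ ^ 2 * ‖y - v‖ ^ 2},
      ENNReal.ofReal (wt d ρ x y) ∂μ ≤
      ENNReal.ofReal (288 * d * (d + 1) * (M * θ ^ (s - 1) * ρ ^ s)) := by
  have hd' : (0 : ℝ) < d := by exact_mod_cast hd
  have hd1 : (1 : ℝ) ≤ d := by exact_mod_cast hd
  set T : Set (VV d) := {y | ‖y - v‖ ^ 2 - inner ℝ u (y - v) ^ 2 ≤ θ ^ 2 * ‖y - v‖ ^ 2} with hT
  have hTc : IsClosed T := isClosed_le (by fun_prop) (by fun_prop)
  set Λ : ℕ → ℝ := fun i => 2 * ρ * √(((i : ℝ) + 1) / (2 * d)) * (1 + 1 / (2 * d)) with hΛ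
  have hΛ0 : ∀ i, 0 < Λ i := fun i => by positivity
  set Ti : ℕ → Set (VV d) := fun i => {y | ‖y - v‖ ≤ Λ i ∧
    ‖y - v‖ ^ 2 - inner ℝ u (y - v) ^ 2 ≤ θ ^ 2 * ‖y - v‖ ^ 2} with hTi
  have hTim : ∀ i, MeasurableSet (Ti i) := by
    intro i
    have h1 : IsClosed {y : VV d | ‖y - v‖ ≤ Λ i} := isClosed_le (by fun_prop) continuous_const
    exact (h1.inter hTc).measurableSet
  have hpt : ∀ y ∈ T, ENNReal.ofReal (wt d ρ x y) ≤
      ∑ i ∈ Finset.range (2 * d), (Ti i).indicator
        (fun _ => ENNReal.ofReal ((1 - (i : ℝ) / (2 * d)) ^ d)) y := by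
    intro y hy
    by_cases hcase : ρ / 2 ≤ dist x y ∧ dist x y ≤ 2 * ρ
    · set D := dist x y with hD
      obtain ⟨h1, h2⟩ := hcase
      set τ : ℝ := D ^ 2 / (4 * ρ ^ 2) with hτ
      have hD0 : 0 < D := by linarith
      have hτ0 : 0 < τ := by positivity
      have hτ1 : τ ≤ 1 := by
        rw [hτ, div_le_one (by positivity)]
        nlinarith
      obtain ⟨i, hi⟩ : ∃ i : ℕ, ⌈τ * (2 * d)⌉₊ = i + 1 := by
        refine ⟨⌈τ * (2 * d)⌉₊ - 1, ?_⟩
        have : 0 < ⌈τ * (2 * d)⌉₊ := Nat.ceil_pos.2 (by positivity)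
        omega
      have hi1 : τ * (2 * d) ≤ i + 1 := by
        have := Nat.le_ceil (τ * (2 * d))
        rw [hi] at this
        push_cast at this
        exact this
      have hi2 : (i : ℝ) < τ * (2 * d) := by
        have : i < ⌈τ * (2 * d)⌉₊ := by omega
        exact Nat.lt_ceil.1 this
      have hi3 : i < 2 * d := by
        have : (i : ℝ) < ((2 * d : ℕ) : ℝ) := by
          push_cast
          nlinarith
        exact_mod_cast this
      refine le_trans ?_ (Finset.single_le_sum (f := fun i => (Ti i).indicator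
        (fun _ => ENNReal.ofReal ((1 - (i : ℝ) / (2 * d)) ^ d)) y) (fun _ _ => zero_le)
        (Finset.mem_range.2 hi3))
      have hmem : y ∈ Ti i := by
        refine ⟨?_, hy⟩
        have e1 : ‖y - v‖ ≤ D + ρ / (4 * d) := by
          rw [← dist_eq_norm]
          have := dist_triangle y x v
          rw [dist_comm y x, dist_comm x v] at this
          linarith
        have e2 : D ≤ 2 * ρ * √(((i : ℝ) + 1) / (2 * d)) := by
          have e3 : D = 2 * ρ * √τ := by
            rw [hτ, Real.sqrt_div (by positivity), Real.sqrt_sq hD0.le]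
            have : √(4 * ρ ^ 2) = 2 * ρ := by
              rw [show (4 : ℝ) * ρ ^ 2 = (2 * ρ) ^ 2 by ring, Real.sqrt_sq (by positivity)]
            rw [this]
            field_simp
          rw [e3]
          gcongr
          rw [le_div_iff₀ (by positivity)]
          exact hi1
        have e4 : ρ / (4 * d) ≤ D * (1 / (2 * d)) := by
          rw [mul_one_div, div_le_div_iff₀ (by positivity) (by positivity)]
          nlinarith
        calc ‖y - v‖ ≤ D + ρ / (4 * d) := e1
          _ ≤ D * (1 + 1 / (2 * d)) := by linarith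
          _ ≤ Λ i := by
            simp only [hΛ]
            gcongr
      rw [indicator_of_mem hmem]
      apply ENNReal.ofReal_le_ofReal
      unfold wt
      rw [if_pos ⟨h1, h2⟩]
      refine pow_le_pow_left₀ (base_nonneg hρ hD0.le h2) (sub_le_sub_left ?_ 1) d
      rw [div_le_iff₀ (by positivity)]
      exact hi2.le
    · unfold wt
      rw [if_neg hcase]
      simp
  calc ∫⁻ y in T, ENNReal.ofReal (wt d ρ x y) ∂μ
      ≤ ∫⁻ y in T, ∑ i ∈ Finset.range (2 * d), (Ti i).indicator
        (fun _ => ENNReal.ofReal ((1 - (i : ℝ) / (2 * d)) ^ d)) y ∂μ :=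
        setLIntegral_mono' hTc.measurableSet hpt
    _ ≤ ∫⁻ y, ∑ i ∈ Finset.range (2 * d), (Ti i).indicator
        (fun _ => ENNReal.ofReal ((1 - (i : ℝ) / (2 * d)) ^ d)) y ∂μ :=
        lintegral_mono' Measure.restrict_le_self le_rfl
    _ = ∑ i ∈ Finset.range (2 * d), ENNReal.ofReal ((1 - (i : ℝ) / (2 * d)) ^ d) * μ (Ti i) := by
        rw [lintegral_finsetSum]
        · refine Finset.sum_congr rfl fun i _ => ?_
          rw [lintegral_indicator_const (hTim i)]
        · intro i _
          exact measurable_const.indicator (hTim i)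
    _ ≤ ∑ i ∈ Finset.range (2 * d), ENNReal.ofReal (144 * (d + 1) * (M * θ ^ (s - 1) * ρ ^ s)) := by
        refine Finset.sum_le_sum fun i hi => ?_
        have hi' : (i : ℝ) + 1 ≤ 2 * d := by
          have := Finset.mem_range.1 hi
          have h2 : i + 1 ≤ 2 * d := this
          exact_mod_cast h2
        have hb0 : 0 ≤ 1 - (i : ℝ) / (2 * d) := by
          rw [sub_nonneg, div_le_one (by positivity)]
          linarith
        have htube := tube_le μ (n := 2 * d) (by omega) hs0 (by push_cast; exact hsn) hM hμ v u hu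
          (hΛ0 i) hθ hθ1
        calc ENNReal.ofReal ((1 - (i : ℝ) / (2 * d)) ^ d) * μ (Ti i)
            ≤ ENNReal.ofReal ((1 - (i : ℝ) / (2 * d)) ^ d) *
              ENNReal.ofReal (3 * (((2 * d : ℕ) : ℝ) + 2) * (M * θ ^ (s - 1) * Λ i ^ s)) := by
              gcongr
          _ = ENNReal.ofReal ((1 - (i : ℝ) / (2 * d)) ^ d *
              (3 * (((2 * d : ℕ) : ℝ) + 2) * (M * θ ^ (s - 1) * Λ i ^ s))) := by
              rw [← ENNReal.ofReal_mul (by positivity)]
          _ ≤ _ := by
              apply ENNReal.ofReal_le_ofReal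
              set q : ℝ := 2 * √(((i : ℝ) + 1) / (2 * d)) with hq
              have hq0 : 0 < q := by positivity
              have hqsq : q ^ 2 = 2 * (((i : ℝ) + 1) / d) := by
                rw [hq, mul_pow, Real.sq_sqrt (by positivity)]
                field_simp
              have e1 : Λ i ^ s ≤ 3 * (ρ ^ s * q ^ s) := by
                have : Λ i = ρ * q * (1 + 1 / (2 * d)) := by
                  simp only [hΛ, hq]
                  ring
                rw [this, Real.mul_rpow (by positivity) (by positivity),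
                  Real.mul_rpow (by positivity) (by positivity)]
                have e2 : (1 + 1 / (2 * (d : ℝ))) ^ s ≤ 3 := by
                  calc (1 + 1 / (2 * (d : ℝ))) ^ s ≤ (1 + 1 / (2 * (d : ℝ))) ^ (2 * (d : ℝ)) :=
                        Real.rpow_le_rpow_of_exponent_le (by simp) hsn
                    _ ≤ (Real.exp (1 / (2 * (d : ℝ)))) ^ (2 * (d : ℝ)) := by
                        apply Real.rpow_le_rpow (by positivity) _ (by positivity)
                        linarith [Real.add_one_le_exp (1 / (2 * (d : ℝ)))]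
                    _ = Real.exp 1 := by
                        rw [← Real.exp_mul]
                        congr 1
                        field_simp
                    _ ≤ 3 := by linarith [Real.exp_one_lt_d9]
                have : 0 < ρ ^ s * q ^ s := by positivity
                nlinarith
              have e3 : (1 - (i : ℝ) / (2 * d)) ^ d * q ^ s ≤ 8 := by
                rcases le_total q 1 with hq1 | hq1
                · have e4 : q ^ s ≤ 1 := Real.rpow_le_one hq0.le hq1 hs0
                  have e5 : (1 - (i : ℝ) / (2 * d)) ^ d ≤ 1 := by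
                    apply pow_le_one₀ hb0
                    have : (0 : ℝ) ≤ (i : ℝ) / (2 * d) := by positivity
                    linarith
                  have e6 : (0 : ℝ) ≤ (1 - (i : ℝ) / (2 * d)) ^ d := pow_nonneg hb0 _
                  have e7 : 0 < q ^ s := by positivity
                  nlinarith
                · have e4 : q ^ s ≤ (q ^ 2) ^ d := by
                    rw [← pow_mul, ← Real.rpow_natCast]
                    apply Real.rpow_le_rpow_of_exponent_le hq1
                    push_cast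
                    exact hsn
                  have e5 : (1 - (i : ℝ) / (2 * d)) * q ^ 2 ≤ 1 + 2 / d := by
                    rw [hqsq]
                    have : (1 - (i : ℝ) / (2 * d)) * (2 * (((i : ℝ) + 1) / d)) =
                      ((2 * d - i) * (i + 1)) / d ^ 2 := by
                      field_simp
                    rw [this, div_le_iff₀ (by positivity)]
                    have : (1 + 2 / (d : ℝ)) * (d : ℝ) ^ 2 = (d : ℝ) ^ 2 + 2 * d := by
                      field_simp
                    rw [this]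
                    nlinarith [sq_nonneg ((d : ℝ) - i), hi', (Nat.cast_nonneg i : (0 : ℝ) ≤ i)]
                  calc (1 - (i : ℝ) / (2 * d)) ^ d * q ^ s
                      ≤ (1 - (i : ℝ) / (2 * d)) ^ d * (q ^ 2) ^ d := by gcongr
                    _ = ((1 - (i : ℝ) / (2 * d)) * q ^ 2) ^ d := (mul_pow _ _ _).symm
                    _ ≤ (1 + 2 / (d : ℝ)) ^ d := by
                        gcongr
                    _ ≤ (Real.exp (2 / d)) ^ d := by
                        gcongr
                        linarith [Real.add_one_le_exp (2 / (d : ℝ))]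
                    _ = Real.exp 1 * Real.exp 1 := by
                        rw [← Real.exp_nat_mul, ← Real.exp_add]
                        congr 1
                        field_simp
                        norm_num
                    _ ≤ 8 := by nlinarith [Real.exp_one_lt_d9, Real.exp_pos 1]
              have hθs : 0 < θ ^ (s - 1) := Real.rpow_pos_of_pos hθ _
              calc (1 - (i : ℝ) / (2 * d)) ^ d *
                    (3 * (((2 * d : ℕ) : ℝ) + 2) * (M * θ ^ (s - 1) * Λ i ^ s))
                  ≤ (1 - (i : ℝ) / (2 * d)) ^ d *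
                    (3 * (((2 * d : ℕ) : ℝ) + 2) * (M * θ ^ (s - 1) * (3 * (ρ ^ s * q ^ s)))) := by
                    gcongr
                _ = ((1 - (i : ℝ) / (2 * d)) ^ d * q ^ s) *
                    (18 * (d + 1) * (M * θ ^ (s - 1) * ρ ^ s)) := by
                    push_cast
                    ring
                _ ≤ 8 * (18 * (d + 1) * (M * θ ^ (s - 1) * ρ ^ s)) := by gcongr
                _ = _ := by ring
    _ = _ := by
        rw [Finset.sum_const, Finset.card_range, nsmul_eq_mul, ← ENNReal.ofReal_natCast,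
          ← ENNReal.ofReal_mul (by positivity)]
        congr 1
        push_cast
        ring

end Pool.Agent.Lib.Angles
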