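import Mathlib
import Pool.Agent.Lib.Angles.Defs
import Pool.Agent.Lib.Angles.Shell

/-!
# The step lemma
-/

namespace Pool.Agent.Lib.Angles

open MeasureTheory Set Filter Topology Metric
open scoped ENNReal NNReal

theorem exists_good {X : Type*} [MeasurableSpace X] (κ : Measure X) [IsFiniteMeasure κ]
    (hκ : κ ≠ 0) (m G : X → ℝ) (hm : Integrable m κ) (hG : Integrable G κ) (hm0 : ∀ x, 0 ≤ m x)
    {m₀ b T θ : ℝ} (hm₀ : 0 < m₀) (hT : 2 ≤ T) (hmi : κ.real univ * m₀ ≤ ∫ x, m x ∂κ)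
    (hGi : ∫ x, G x ∂κ = 0) (hGb : ∀ x, |G x| ≤ b * √(m x)) (hb : 0 ≤ b) (hθ0 : 0 ≤ θ)
    (hθ : b * √(m₀ / T) ≤ θ * m₀ / 2) :
    κ {x | m₀ / T ≤ m x ∧ G x ≤ θ * m x} ≠ 0 := by
  intro hnull
  have hκ' : 0 < κ.real univ := by
    rw [measureReal_def, ENNReal.toReal_pos_iff]
    exact ⟨by simpa [pos_iff_ne_zero] using hκ, measure_lt_top _ _⟩
  have hT0 : 0 < T := by linarith
  set c : ℝ := θ * m₀ / T + b * √(m₀ / T) with hc
  have hc0 : 0 ≤ c := by positivity
  have hae : ∀ᵐ x ∂κ, m₀ / T ≤ m x → θ * m x < G x := by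
    rw [ae_iff]
    refine measure_mono_null ?_ hnull
    intro x hx
    simp only [mem_ofPred_eq] at hx ⊢
    push Not at hx
    exact hx
  have hae2 : ∀ᵐ x ∂κ, 0 ≤ G x - θ * m x + c := by
    filter_upwards [hae] with x hx
    rcases le_or_gt (m₀ / T) (m x) with h | h
    · have := hx h
      linarith
    · have h1 : -(b * √(m x)) ≤ G x := (abs_le.1 (hGb x)).1
      have h2 : b * √(m x) ≤ b * √(m₀ / T) := by gcongr
      have h3 : θ * m x ≤ θ * m₀ / T := by
        rw [mul_div_assoc]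
        gcongr
      linarith
  have hsub : Integrable (fun x => G x - θ * m x) κ := hG.sub (hm.const_mul θ)
  have hint : Integrable (fun x => G x - θ * m x + c) κ := hsub.add (integrable_const c)
  have hval : ∫ x, (G x - θ * m x + c) ∂κ ≤ 0 := by
    rw [integral_add hsub (integrable_const c),
      integral_sub hG (hm.const_mul θ), hGi, integral_const_mul, integral_const, smul_eq_mul]
    have h1 : θ * (κ.real univ * m₀) ≤ θ * ∫ x, m x ∂κ := by gcongr
    have h2 : c ≤ θ * m₀ := by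
      have : θ * m₀ / T ≤ θ * m₀ / 2 := by gcongr
      rw [hc]
      linarith
    nlinarith
  have hz : ∫ x, (G x - θ * m x + c) ∂κ = 0 :=
    le_antisymm hval (integral_nonneg_of_ae hae2)
  have hz2 := (integral_eq_zero_iff_of_nonneg_ae hae2 hint).1 hz
  have hlt : ∀ᵐ x ∂κ, m x ≤ m₀ / T := by
    filter_upwards [hz2, hae] with x h1 h2
    by_contra h3
    push Not at h3
    have := h2 h3.le
    simp only [Pi.zero_apply] at h1
    linarith
  have h4 : ∫ x, m x ∂κ ≤ κ.real univ * (m₀ / T) := by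
    calc ∫ x, m x ∂κ ≤ ∫ _x, m₀ / T ∂κ := integral_mono_ae hm (integrable_const _) hlt
      _ = _ := by rw [integral_const, smul_eq_mul]
  have h5 : m₀ / T < m₀ := by
    rw [div_lt_iff₀ hT0]
    nlinarith
  nlinarith


section dir

variable {E : Type*} [NormedAddCommGroup E] [NormedSpace ℝ E]

lemma norm_dir {v y : E} (h : y ≠ v) : ‖dir v y‖ = 1 := by
  unfold dir
  rw [norm_smul, norm_inv, norm_norm, inv_mul_cancel₀]
  exact norm_ne_zero_iff.2 (sub_ne_zero.2 h)

lemma norm_dir_le (v y : E) : ‖dir v y‖ ≤ 1 := by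
  by_cases h : y = v
  · subst h
    simp [dir]
  · exact (norm_dir h).le

lemma dir_swap (v y : E) : dir y v = -dir v y := by
  unfold dir
  rw [norm_sub_rev, ← smul_neg, neg_sub]

lemma measurable_dir₂ [MeasurableSpace E] [BorelSpace E] [SecondCountableTopology E] :
    Measurable fun p : E × E => dir p.1 p.2 := by
  unfold dir
  fun_prop

lemma measurable_dir [MeasurableSpace E] [BorelSpace E] [SecondCountableTopology E] (v : E) :
    Measurable (dir v) := by
  unfold dir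
  fun_prop

lemma continuousOn_dir₂ : ContinuousOn (fun p : E × E => dir p.1 p.2) {p | p.2 ≠ p.1} := by
  unfold dir
  apply ContinuousOn.smul
  · apply ContinuousOn.inv₀
    · fun_prop
    · intro p hp
      exact norm_ne_zero_iff.2 (sub_ne_zero.2 hp)
  · fun_prop

end dir

lemma measurable_pot₂ {n : ℕ} (k : ℕ) :
    Measurable fun p : EuclideanSpace ℝ (Fin n) × EuclideanSpace ℝ (Fin n) => pot k p.1 p.2 := by
  unfold pot
  have h : Measurable fun p : EuclideanSpace ℝ (Fin n) × EuclideanSpace ℝ (Fin n) =>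
      1 - inner ℝ p.1 p.2 ^ 2 := by
    have : Continuous fun p : EuclideanSpace ℝ (Fin n) × EuclideanSpace ℝ (Fin n) =>
      1 - inner ℝ p.1 p.2 ^ 2 := by fun_prop
    exact this.measurable
  exact (h.ennreal_ofReal.inv).pow_const k

lemma measurable_pot {n : ℕ} (k : ℕ) (u : EuclideanSpace ℝ (Fin n)) : Measurable (pot k u) := by
  have h := (measurable_pot₂ (n := n) k).comp
    (measurable_prodMk_left (x := u) (β := EuclideanSpace ℝ (Fin n)))
  exact h

/-- The weighted measure around `x` at scale `ρ`. -/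
noncomputable def eta (d : ℕ) (ρ : ℝ) (κ : Measure (VV d)) (x : VV d) : Measure (VV d) :=
  κ.withDensity fun y => ENNReal.ofReal (wt d ρ x y)

lemma eta_le (d : ℕ) {ρ : ℝ} (hρ : 0 < ρ) (κ : Measure (VV d)) (x : VV d) : eta d ρ κ x ≤ κ := by
  unfold eta
  have : κ.withDensity (fun y => ENNReal.ofReal (wt d ρ x y)) ≤ κ.withDensity 1 := by
    apply withDensity_mono
    refine Eventually.of_forall fun y => ?_
    have := ENNReal.ofReal_le_ofReal (wt_le_one d hρ x y)
    rwa [ENNReal.ofReal_one] at this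
  rwa [withDensity_one] at this

lemma eta_finite (d : ℕ) {ρ : ℝ} (hρ : 0 < ρ) (κ : Measure (VV d)) [IsFiniteMeasure κ] (x : VV d) :
    IsFiniteMeasure (eta d ρ κ x) := isFiniteMeasure_of_le κ (eta_le d hρ κ x)

lemma integral_eta {F : Type*} [NormedAddCommGroup F] [NormedSpace ℝ F] (d : ℕ) {ρ : ℝ}
    (hρ : 0 < ρ) (κ : Measure (VV d)) (x : VV d) (f : VV d → F) :
    ∫ y, f y ∂(eta d ρ κ x) = ∫ y, wt d ρ x y • f y ∂κ := by
  unfold eta
  rw [integral_withDensity_eq_integral_toReal_smul (measurable_wt_right d ρ x).ennreal_ofReal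
    (Eventually.of_forall fun y => ENNReal.ofReal_lt_top)]
  simp only [ENNReal.toReal_ofReal (wt_nonneg d hρ x _)]

lemma integrable_wt (d : ℕ) {ρ : ℝ} (hρ : 0 < ρ) (κ : Measure (VV d)) [IsFiniteMeasure κ]
    (x : VV d) : Integrable (fun y => wt d ρ x y) κ := by
  refine Integrable.of_bound (C := 1) (measurable_wt_right d ρ x).aestronglyMeasurable ?_
  refine Eventually.of_forall fun y => ?_
  rw [Real.norm_eq_abs, abs_of_nonneg (wt_nonneg d hρ x y)]
  exact wt_le_one d hρ x y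

lemma eta_univ (d : ℕ) {ρ : ℝ} (hρ : 0 < ρ) (κ : Measure (VV d)) [IsFiniteMeasure κ] (x : VV d) :
    eta d ρ κ x univ = ENNReal.ofReal (∫ y, wt d ρ x y ∂κ) := by
  unfold eta
  rw [withDensity_apply _ MeasurableSet.univ, Measure.restrict_univ,
    ofReal_integral_eq_lintegral_ofReal (integrable_wt d hρ κ x)
      (Eventually.of_forall fun y => wt_nonneg d hρ x y)]

theorem pot_eta_le {d k : ℕ} (hd : 0 < d) (hk : 0 < k) (μ : Measure (VV d)) {M s : ℝ}
    (hs : 2 * k + 3 ≤ s) (hsn : s ≤ 2 * d) (hM : 0 ≤ M)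
    (hμ : ∀ x r, 0 < r → μ (closedBall x r) ≤ ENNReal.ofReal (M * r ^ s)) {ρ : ℝ} (hρ : 0 < ρ)
    (x v u : VV d) (hu : ‖u‖ = 1) (hv : dist v x ≤ ρ / (4 * d)) :
    ∫⁻ y, pot k u (dir v y) ∂(eta d ρ μ x) ≤
      ENNReal.ofReal (864 * (k + 1) * (d * (d + 1)) * (M * ρ ^ s)) := by
  have hs0 : 0 ≤ s := by
    have : (0 : ℝ) ≤ k := Nat.cast_nonneg k
    linarith
  have h := potential_of_tube (eta d ρ μ x) (fun y => 1 - inner ℝ u (dir v y) ^ 2) ?_ ?_ ?_
    (A := ENNReal.ofReal (288 * d * (d + 1) * (M * ρ ^ s))) ENNReal.ofReal_ne_top hk ?_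
  · refine le_trans ?_ (h.trans (le_of_eq ?_))
    · exact le_rfl
    · rw [← ENNReal.ofReal_mul (by positivity)]
      congr 1
      ring
  · have h1 : Measurable fun y => inner ℝ u (dir v y) :=
      (measurable_const).inner (measurable_dir v)
    fun_prop
  · intro y
    have h1 : |inner ℝ u (dir v y)| ≤ 1 := by
      refine (abs_real_inner_le_norm _ _).trans ?_
      rw [hu, one_mul]
      exact norm_dir_le v y
    have h2 : inner ℝ u (dir v y) ^ 2 ≤ 1 := by
      rw [← sq_abs]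
      exact pow_le_one₀ (abs_nonneg _) h1
    linarith
  · intro y
    nlinarith [sq_nonneg (inner ℝ u (dir v y))]
  · intro τ hτ0 hτ1
    have hms : MeasurableSet {y : VV d | ‖y - v‖ ^ 2 - inner ℝ u (y - v) ^ 2 ≤
        √τ ^ 2 * ‖y - v‖ ^ 2} := by
      have : IsClosed {y : VV d | ‖y - v‖ ^ 2 - inner ℝ u (y - v) ^ 2 ≤ √τ ^ 2 * ‖y - v‖ ^ 2} :=
        isClosed_le (by fun_prop) (by fun_prop)
      exact this.measurableSet
    have hsub : {y : VV d | 1 - inner ℝ u (dir v y) ^ 2 ≤ τ} ⊆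
        {y : VV d | ‖y - v‖ ^ 2 - inner ℝ u (y - v) ^ 2 ≤ √τ ^ 2 * ‖y - v‖ ^ 2} := by
      intro y hy
      simp only [mem_ofPred_eq] at hy ⊢
      rw [Real.sq_sqrt hτ0.le]
      by_cases hyv : y = v
      · subst hyv
        simp
      · have hn : ‖y - v‖ ≠ 0 := norm_ne_zero_iff.2 (sub_ne_zero.2 hyv)
        have e1 : inner ℝ u (dir v y) = ‖y - v‖⁻¹ * inner ℝ u (y - v) := by
          unfold dir
          rw [inner_smul_right]
        rw [e1] at hy
        have e2 : ‖y - v‖ ^ 2 * (1 - (‖y - v‖⁻¹ * inner ℝ u (y - v)) ^ 2) =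
            ‖y - v‖ ^ 2 - inner ℝ u (y - v) ^ 2 := by
          field_simp
        rw [← e2, mul_comm τ]
        gcongr
    have hw := weighted_tube_le hd μ hs0 hsn hM hμ hρ x v u hu hv (Real.sqrt_pos.2 hτ0)
      (Real.sqrt_le_one.2 hτ1)
    calc eta d ρ μ x {y | 1 - inner ℝ u (dir v y) ^ 2 ≤ τ}
        ≤ eta d ρ μ x {y | ‖y - v‖ ^ 2 - inner ℝ u (y - v) ^ 2 ≤ √τ ^ 2 * ‖y - v‖ ^ 2} :=
          measure_mono hsub
      _ = ∫⁻ y in {y | ‖y - v‖ ^ 2 - inner ℝ u (y - v) ^ 2 ≤ √τ ^ 2 * ‖y - v‖ ^ 2},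
            ENNReal.ofReal (wt d ρ x y) ∂μ := by
          unfold eta
          rw [withDensity_apply _ hms]
      _ ≤ _ := hw
      _ ≤ _ := by
          rw [← ENNReal.ofReal_mul (by positivity)]
          apply ENNReal.ofReal_le_ofReal
          have e1 : √τ ^ (s - 1) ≤ τ ^ (k + 1) := by
            rw [Real.sqrt_eq_rpow, ← Real.rpow_mul hτ0.le, ← Real.rpow_natCast]
            apply Real.rpow_le_rpow_of_exponent_ge hτ0 hτ1
            push_cast
            linarith
          calc 288 * (d : ℝ) * (d + 1) * (M * √τ ^ (s - 1) * ρ ^ s)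
              ≤ 288 * (d : ℝ) * (d + 1) * (M * τ ^ (k + 1) * ρ ^ s) := by gcongr
            _ = _ := by ring

/-- The integral of the features is controlled by the energy. -/
def FeatureBound {d : ℕ} {ι : Type} [Fintype ι] (k : ℕ) (Φ : VV d → EuclideanSpace ℝ ι)
    (B₁ : ℝ) : Prop :=
  ∀ (lam : Measure (VV d)) [IsFiniteMeasure lam], lam (sphere 0 1)ᶜ = 0 → ∀ I : ℝ, 0 ≤ I →
    (∫⁻ u, ∫⁻ w, pot k u w ∂lam ∂lam) ≤ ENNReal.ofReal I → ‖∫ u, Φ u ∂lam‖ ^ 2 ≤ B₁ * I

/-- Energy of a direction measure, from a uniform bound of the potentials. -/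
lemma energy_map_dir_le {d k : ℕ} (ν : Measure (VV d)) [IsFiniteMeasure ν] (v : VV d)
    (hv : ν {v} = 0) {P : ℝ≥0∞}
    (hP : ∀ u, ‖u‖ = 1 → ∫⁻ y, pot k u (dir v y) ∂ν ≤ P) :
    (ν.map (dir v)) (sphere 0 1)ᶜ = 0 ∧
    (∫⁻ u, ∫⁻ w, pot k u w ∂(ν.map (dir v)) ∂(ν.map (dir v))) ≤ P * ν univ := by
  have hm : Measurable (dir v) := measurable_dir v
  have hsm : MeasurableSet (sphere (0 : VV d) 1)ᶜ := isClosed_sphere.measurableSet.compl
  have hnull : (ν.map (dir v)) (sphere 0 1)ᶜ = 0 := by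
    rw [Measure.map_apply hm hsm]
    refine measure_mono_null ?_ hv
    intro y hy
    by_contra hne
    apply hy
    rw [mem_sphere_zero_iff_norm]
    exact norm_dir hne
  refine ⟨hnull, ?_⟩
  have h1 : ∀ u, ‖u‖ = 1 → ∫⁻ w, pot k u w ∂(ν.map (dir v)) ≤ P := by
    intro u hu
    rw [lintegral_map (measurable_pot k u) hm]
    exact hP u hu
  have h2 : ∀ᵐ u ∂(ν.map (dir v)), ∫⁻ w, pot k u w ∂(ν.map (dir v)) ≤ P := by
    have h3 : ∀ᵐ u ∂(ν.map (dir v)), u ∈ sphere (0 : VV d) 1 := by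
      rw [ae_iff]
      exact hnull
    filter_upwards [h3] with u hu
    exact h1 u (mem_sphere_zero_iff_norm.1 hu)
  calc (∫⁻ u, ∫⁻ w, pot k u w ∂(ν.map (dir v)) ∂(ν.map (dir v)))
      ≤ ∫⁻ _u, P ∂(ν.map (dir v)) := lintegral_mono_ae h2
    _ = P * ν univ := by
        rw [lintegral_const, Measure.map_apply hm MeasurableSet.univ, preimage_univ]

/-- **Step lemma.** -/
theorem step {d k : ℕ} (hd : 0 < d) (hk : 0 < k) {ι : Type} [Fintype ι]
    {Φ : VV d → EuclideanSpace ℝ ι} (hΦc : Continuous Φ) (hΦo : ∀ u, Φ (-u) = -Φ u) {B₁ : ℝ}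
    (hB₁ : 0 ≤ B₁) (hΦ : FeatureBound k Φ B₁) {s r q T : ℝ} (hs : 2 * k + 3 ≤ s)
    (hsn : s ≤ 2 * d) (hr : 0 < r) (hq : 0 < q)
    (hq2 : q + 2 ^ (-s) ≤ 1 / 2 * r ^ (2 * d - s) / (1 + r) ^ (2 * d)) (hT : 2 ≤ T)
    (μ : Measure (VV d)) [IsFiniteMeasure μ] (hμ0 : μ ≠ 0) {C : ℝ} (hC : 0 < C)
    (hμ : ∀ x r, 0 < r → μ (closedBall x r) ≤ ENNReal.ofReal (C * r ^ s))
    {K : Set (VV d)} (hK : IsCompact K) (hμK : μ Kᶜ = 0) (h : EuclideanSpace ℝ ι) :
    ∃ x ∈ K, (∀ U ∈ 𝓝 x, 0 < μ U) ∧ ∃ (ν : Measure (VV d)) (K' : Set (VV d)) (δ : ℝ),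
      IsProbabilityMeasure ν ∧ K' ⊆ K ∧ IsCompact K' ∧ x ∉ K' ∧ ν K'ᶜ = 0 ∧ 0 < δ ∧
      (∀ v, dist v x < δ → ∀ u, ‖u‖ = 1 → ∫⁻ y, pot k u (dir v y) ∂ν ≤
        ENNReal.ofReal (864 * (k + 1) * (d * (d + 1)) * T / q)) ∧
      inner ℝ h (∫ y, Φ (dir x y) ∂ν) ≤
        2 * √(B₁ * (864 * (k + 1) * (d * (d + 1))) / (q * T)) * ‖h‖ := by
  have hd' : (0 : ℝ) < d := by exact_mod_cast hd
  have hT0 : 0 < T := by linarith
  obtain ⟨M, x₀, R, hM, hR, hμM, hμR⟩ := exists_extremal μ hμ0 hC hμ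
  set ρ : ℝ := r * R with hρdef
  have hρ : 0 < ρ := by positivity
  have hρs : 0 < ρ ^ s := Real.rpow_pos_of_pos hρ s
  set B : Set (VV d) := closedBall x₀ R with hB
  set κ : Measure (VV d) := μ.restrict B with hκdef
  have hκμ : κ ≤ μ := Measure.restrict_le_self
  have hκM : ∀ x r, 0 < r → κ (closedBall x r) ≤ ENNReal.ofReal (M * r ^ s) := fun x r hr =>
    (hκμ _).trans (hμM x r hr)
  have hκuniv : κ univ = μ B := by rw [hκdef, Measure.restrict_apply_univ]
  have hκreal : M / 2 * R ^ s ≤ κ.real univ := by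
    rw [measureReal_def, hκuniv]
    exact (ENNReal.ofReal_le_iff_le_toReal (measure_ne_top _ _)).1 hμR
  have hRs : 0 < R ^ s := Real.rpow_pos_of_pos hR s
  have hκpos : 0 < κ.real univ := lt_of_lt_of_le (by positivity) hκreal
  have hκ0 : κ ≠ 0 := by
    intro h0
    rw [h0] at hκpos
    simp at hκpos
  set c₀ : ℝ := 864 * (k + 1) * (d * (d + 1)) with hc₀
  have hc₀pos : 0 < c₀ := by positivity
  set m : VV d → ℝ := fun x => ∫ y, wt d ρ x y ∂κ with hm
  set F : VV d × VV d → ℝ := fun p => wt d ρ p.1 p.2 * inner ℝ h (Φ (dir p.1 p.2)) with hF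
  set G : VV d → ℝ := fun x => ∫ y, F (x, y) ∂κ with hG
  -- bound for `Φ`
  obtain ⟨CΦ, hCΦ⟩ : ∃ CΦ : ℝ, ∀ u : VV d, ‖u‖ ≤ 1 → ‖Φ u‖ ≤ CΦ := by
    obtain ⟨b, hb⟩ := ((isCompact_closedBall (0 : VV d) 1).image hΦc).isBounded.exists_norm_le
    exact ⟨b, fun u hu => hb _ ⟨u, mem_closedBall_zero_iff.2 hu, rfl⟩⟩
  have hCΦ0 : 0 ≤ CΦ := (norm_nonneg _).trans (hCΦ 0 (by simp))
  have hFm : Measurable F := by
    have h1 : Measurable fun p : VV d × VV d => inner ℝ h (Φ (dir p.1 p.2)) := by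
      have h2 : Continuous fun u : VV d => inner ℝ h (Φ u) := by fun_prop
      exact h2.measurable.comp measurable_dir₂
    exact (measurable_wt d ρ).mul h1
  have hFb : ∀ p, ‖F p‖ ≤ ‖h‖ * CΦ := by
    intro p
    simp only [hF]
    rw [norm_mul, Real.norm_eq_abs, Real.norm_eq_abs, abs_of_nonneg (wt_nonneg d hρ _ _)]
    have h1 := wt_le_one d hρ p.1 p.2
    have h2 : |inner ℝ h (Φ (dir p.1 p.2))| ≤ ‖h‖ * CΦ := by
      refine (abs_real_inner_le_norm _ _).trans ?_
      gcongr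
      exact hCΦ _ (norm_dir_le _ _)
    have h3 := wt_nonneg d hρ p.1 p.2
    nlinarith [abs_nonneg (inner ℝ h (Φ (dir p.1 p.2)))]
  have hFi : Integrable F (κ.prod κ) :=
    Integrable.of_bound hFm.aestronglyMeasurable (‖h‖ * CΦ) (Eventually.of_forall hFb)
  have hWi : Integrable (fun p : VV d × VV d => wt d ρ p.1 p.2) (κ.prod κ) := by
    refine Integrable.of_bound (measurable_wt d ρ).aestronglyMeasurable 1
      (Eventually.of_forall fun p => ?_)
    rw [Real.norm_eq_abs, abs_of_nonneg (wt_nonneg d hρ _ _)]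
    exact wt_le_one d hρ _ _
  have hmi : Integrable m κ := hWi.integral_prod_left
  have hGi : Integrable G κ := hFi.integral_prod_left
  have hm0 : ∀ x, 0 ≤ m x := fun x => integral_nonneg fun y => wt_nonneg d hρ x y
  have hG0 : ∫ x, G x ∂κ = 0 := by
    have h1 : ∫ x, G x ∂κ = ∫ p, F p ∂(κ.prod κ) := (integral_prod F hFi).symm
    have h2 : ∫ p, F p.swap ∂(κ.prod κ) = ∫ p, F p ∂(κ.prod κ) := integral_prod_swap F
    have h3 : ∀ p, F p.swap = -F p := by
      intro p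
      simp only [hF, Prod.fst_swap, Prod.snd_swap]
      rw [wt_comm, dir_swap, hΦo, inner_neg_right]
      ring
    simp only [h3, integral_neg] at h2
    linarith
  -- relation with the measures `eta`
  have hGeq : ∀ x, G x = inner ℝ h (∫ y, Φ (dir x y) ∂(eta d ρ κ x)) := by
    intro x
    have := eta_finite d hρ κ x
    have hint : Integrable (fun y => Φ (dir x y)) (eta d ρ κ x) := by
      refine Integrable.of_bound (hΦc.measurable.comp (measurable_dir x)).aestronglyMeasurable CΦ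
        (Eventually.of_forall fun y => hCΦ _ (norm_dir_le _ _))
    rw [← integral_inner hint h, integral_eta d hρ κ x]
    simp only [hG, hF, smul_eq_mul]
  have heta0 : ∀ x, eta d ρ κ x {x} = 0 := by
    intro x
    unfold eta
    rw [withDensity_apply _ (measurableSet_singleton x)]
    rw [lintegral_singleton]
    have : wt d ρ x x = 0 := by
      unfold wt
      rw [if_neg]
      rw [dist_self]
      intro h3
      linarith [h3.1]
    rw [this]
    simp
  have hpot : ∀ x v, dist v x ≤ ρ / (4 * d) → ∀ u, ‖u‖ = 1 →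
      ∫⁻ y, pot k u (dir v y) ∂(eta d ρ κ x) ≤ ENNReal.ofReal (c₀ * (M * ρ ^ s)) := by
    intro x v hv u hu
    exact pot_eta_le hd hk κ hs hsn hM.le hκM hρ x v u hu hv
  have hnorm : ∀ x, ‖∫ y, Φ (dir x y) ∂(eta d ρ κ x)‖ ≤ √(B₁ * (c₀ * (M * ρ ^ s))) * √(m x) := by
    intro x
    have := eta_finite d hρ κ x
    obtain ⟨h1, h2⟩ := energy_map_dir_le (k := k) (eta d ρ κ x) x (heta0 x)
      (hpot x x (by rw [dist_self]; positivity))
    rw [eta_univ d hρ κ x, ← ENNReal.ofReal_mul (by positivity)] at h2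
    have : IsFiniteMeasure ((eta d ρ κ x).map (dir x)) := Measure.isFiniteMeasure_map _ _
    have h3 := hΦ ((eta d ρ κ x).map (dir x)) h1 _ (by have := hm0 x; positivity) h2
    rw [integral_map (measurable_dir x).aemeasurable hΦc.aestronglyMeasurable] at h3
    rw [← Real.sqrt_mul (by positivity)]
    apply Real.le_sqrt_of_sq_le
    refine h3.trans (le_of_eq ?_)
    ring
  -- lower bound for the total mass
  set m₀ : ℝ := q * (M * ρ ^ s) with hm₀
  have hm₀pos : 0 < m₀ := by positivity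
  have hmass : κ.real univ * m₀ ≤ ∫ x, m x ∂κ := by
    have h1 := pair_lower κ (x₀ := x₀) hR hρ (by
      rw [hκdef, Measure.restrict_apply measurableSet_closedBall.compl]
      simp [hB])
    have h2 : ∫⁻ x, ∫⁻ y, ENNReal.ofReal (wt0 d ρ x y) ∂κ ∂κ ≤
        ENNReal.ofReal (∫ x, m x ∂κ) + ENNReal.ofReal (M * (ρ / 2) ^ s) * κ univ := by
      calc ∫⁻ x, ∫⁻ y, ENNReal.ofReal (wt0 d ρ x y) ∂κ ∂κ
          ≤ ∫⁻ x, (ENNReal.ofReal (m x) + ENNReal.ofReal (M * (ρ / 2) ^ s)) ∂κ := by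
            apply lintegral_mono
            intro x
            calc ∫⁻ y, ENNReal.ofReal (wt0 d ρ x y) ∂κ
                ≤ ∫⁻ y, (ENNReal.ofReal (wt d ρ x y) +
                  (closedBall x (ρ / 2)).indicator (fun _ => (1 : ℝ≥0∞)) y) ∂κ :=
                  lintegral_mono fun y => wt0_le d hρ x y
              _ = ∫⁻ y, ENNReal.ofReal (wt d ρ x y) ∂κ +
                  ∫⁻ y, (closedBall x (ρ / 2)).indicator (fun _ => (1 : ℝ≥0∞)) y ∂κ :=
                  lintegral_add_left (measurable_wt_right d ρ x).ennreal_ofReal _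
              _ ≤ _ := by
                  rw [lintegral_indicator_const measurableSet_closedBall, one_mul]
                  refine add_le_add (le_of_eq ?_) (hκM x _ (by positivity))
                  rw [ofReal_integral_eq_lintegral_ofReal (integrable_wt d hρ κ x)
                    (Eventually.of_forall fun y => wt_nonneg d hρ x y)]
        _ = ∫⁻ x, ENNReal.ofReal (m x) ∂κ + ∫⁻ _x, ENNReal.ofReal (M * (ρ / 2) ^ s) ∂κ :=
            lintegral_add_right _ measurable_const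
        _ = _ := by
            rw [lintegral_const, ofReal_integral_eq_lintegral_ofReal hmi
              (Eventually.of_forall hm0)]
    set a : ℝ := κ.real univ with ha
    have haE : κ univ = ENNReal.ofReal a := by
      rw [ha, measureReal_def, ENNReal.ofReal_toReal (measure_ne_top _ _)]
    have hI0 : 0 ≤ ∫ x, m x ∂κ := integral_nonneg hm0
    have h3 : a ^ 2 * ρ ^ (2 * d) ≤ (R + ρ) ^ (2 * d) *
        ((∫ x, m x ∂κ) + M * (ρ / 2) ^ s * a) := by
      have h4 : κ univ ^ 2 * ENNReal.ofReal (ρ ^ (2 * d)) ≤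
          ENNReal.ofReal ((R + ρ) ^ (2 * d)) *
          (ENNReal.ofReal (∫ x, m x ∂κ) + ENNReal.ofReal (M * (ρ / 2) ^ s) * κ univ) :=
        h1.trans (by gcongr)
      rw [haE, ← ENNReal.ofReal_pow hκpos.le, ← ENNReal.ofReal_mul (by positivity),
        ← ENNReal.ofReal_mul (by positivity), ← ENNReal.ofReal_add hI0 (by positivity),
        ← ENNReal.ofReal_mul (by positivity)] at h4
      exact (ENNReal.ofReal_le_ofReal_iff (by positivity)).1 h4
    have h5 : a ^ 2 * r ^ (2 * d) ≤ (1 + r) ^ (2 * d) *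
        ((∫ x, m x ∂κ) + M * (ρ / 2) ^ s * a) := by
      have e1 : R + ρ = R * (1 + r) := by rw [hρdef]; ring
      rw [e1, hρdef, mul_pow, mul_pow] at h3
      have hRd : 0 < R ^ (2 * d) := by positivity
      have h6 : R ^ (2 * d) * (a ^ 2 * r ^ (2 * d)) ≤ R ^ (2 * d) * ((1 + r) ^ (2 * d) *
        ((∫ x, m x ∂κ) + M * (r * R / 2) ^ s * a)) := by
        calc R ^ (2 * d) * (a ^ 2 * r ^ (2 * d)) = a ^ 2 * (r ^ (2 * d) * R ^ (2 * d)) := by ring
          _ ≤ _ := h3
          _ = _ := by ring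
      exact le_of_mul_le_mul_left h6 hRd
    have h7 : a * (M / 2 * R ^ s) * r ^ (2 * d) / (1 + r) ^ (2 * d) - M * (ρ / 2) ^ s * a ≤
        ∫ x, m x ∂κ := by
      have h8 : a * (M / 2 * R ^ s) * r ^ (2 * d) / (1 + r) ^ (2 * d) ≤
          (∫ x, m x ∂κ) + M * (ρ / 2) ^ s * a := by
        rw [div_le_iff₀ (by positivity)]
        calc a * (M / 2 * R ^ s) * r ^ (2 * d) ≤ a * a * r ^ (2 * d) := by gcongr
          _ = a ^ 2 * r ^ (2 * d) := by ring
          _ ≤ _ := h5
          _ = _ := by ring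
      linarith
    refine le_trans ?_ h7
    have e1 : (ρ / 2) ^ s = ρ ^ s * 2 ^ (-s) := by
      rw [Real.div_rpow hρ.le (by norm_num), Real.rpow_neg (by norm_num), div_eq_mul_inv]
    have e2 : R ^ s * r ^ (2 * d) = ρ ^ s * r ^ (2 * d - s) := by
      rw [hρdef, Real.mul_rpow hr.le hR.le, Real.rpow_sub hr]
      have : r ^ (2 * (d : ℝ)) = r ^ (2 * d) := by
        rw [← Real.rpow_natCast]
        push_cast
        rfl
      rw [this]
      field_simp
    have e3 : a * (M / 2 * R ^ s) * r ^ (2 * d) / (1 + r) ^ (2 * d) =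
        a * (M * ρ ^ s) * (1 / 2 * r ^ (2 * d - s) / (1 + r) ^ (2 * d)) := by
      calc a * (M / 2 * R ^ s) * r ^ (2 * d) / (1 + r) ^ (2 * d)
          = a * M / 2 * (R ^ s * r ^ (2 * d)) / (1 + r) ^ (2 * d) := by ring
        _ = _ := by rw [e2]; ring
    rw [e3, e1, hm₀]
    have h9 : a * (M * ρ ^ s) * (q + 2 ^ (-s)) ≤
        a * (M * ρ ^ s) * (1 / 2 * r ^ (2 * d - s) / (1 + r) ^ (2 * d)) := by gcongr
    nlinarith
  -- choose the point
  set θ : ℝ := 2 * √(B₁ * c₀ / (q * T)) * ‖h‖ with hθ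
  have hgood := exists_good κ hκ0 m G hmi hGi hm0 (m₀ := m₀)
    (b := ‖h‖ * √(B₁ * (c₀ * (M * ρ ^ s)))) (T := T) (θ := θ) hm₀pos hT hmass hG0
    (fun x => by
      rw [hGeq x]
      refine (abs_real_inner_le_norm _ _).trans ?_
      rw [mul_assoc]
      gcongr
      exact hnorm x) (by positivity) (by positivity) (by
      have e1 : √(B₁ * (c₀ * (M * ρ ^ s))) * √(m₀ / T) =
          √(B₁ * c₀ / (q * T)) * m₀ := by
        rw [← Real.sqrt_mul (by positivity)]
        have : B₁ * (c₀ * (M * ρ ^ s)) * (m₀ / T) = (B₁ * c₀ / (q * T)) * m₀ ^ 2 := by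
          rw [hm₀]
          field_simp
        rw [this, Real.sqrt_mul (by positivity), Real.sqrt_sq hm₀pos.le]
      rw [mul_assoc, e1, hθ]
      apply le_of_eq
      ring)
  have hgood2 : κ ({x | m₀ / T ≤ m x ∧ G x ≤ θ * m x} ∩ K) ≠ 0 := by
    intro h0
    apply hgood
    have h1 : κ Kᶜ = 0 := le_antisymm ((hκμ _).trans hμK.le) zero_le
    refine measure_mono_null ?_ (measure_union_null h0 h1)
    intro x hx
    by_cases hxK : x ∈ K
    · exact Or.inl ⟨hx, hxK⟩
    · exact Or.inr hxK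
  obtain ⟨x, ⟨⟨hx1, hx2⟩, hxK⟩, hx3⟩ := exists_mem_forall_mem_nhdsWithin_pos_measure hgood2
  have hmx : 0 < m x := lt_of_lt_of_le (by positivity) hx1
  have hmx' : ENNReal.ofReal (m x) ≠ 0 := by
    rw [ne_eq, ENNReal.ofReal_eq_zero, not_le]
    exact hmx
  refine ⟨x, hxK, fun U hU => ?_, (ENNReal.ofReal (m x))⁻¹ • eta d ρ κ x,
    K ∩ {y | ρ / 2 ≤ dist x y ∧ dist x y ≤ 2 * ρ}, ρ / (4 * d), ?_, inter_subset_left, ?_, ?_, ?_,
    by positivity, ?_, ?_⟩
  · exact lt_of_lt_of_le (hx3 U (mem_nhdsWithin_of_mem_nhds hU)) (hκμ U)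
  · constructor
    rw [Measure.smul_apply, smul_eq_mul, eta_univ d hρ κ x]
    exact ENNReal.inv_mul_cancel hmx' ENNReal.ofReal_ne_top
  · apply hK.inter_right
    have h1 : IsClosed {y : VV d | ρ / 2 ≤ dist x y} := isClosed_le continuous_const (by fun_prop)
    have h2 : IsClosed {y : VV d | dist x y ≤ 2 * ρ} := isClosed_le (by fun_prop) continuous_const
    exact h1.inter h2
  · rintro ⟨_, h2, _⟩
    rw [dist_self] at h2
    linarith
  · rw [Measure.smul_apply, smul_eq_mul]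
    have h1 : eta d ρ κ x (K ∩ {y | ρ / 2 ≤ dist x y ∧ dist x y ≤ 2 * ρ})ᶜ = 0 := by
      rw [compl_inter]
      apply measure_union_null
      · have h1 : κ Kᶜ = 0 := le_antisymm ((hκμ _).trans hμK.le) zero_le
        exact le_antisymm ((eta_le d hρ κ x _).trans h1.le) zero_le
      · have h2 : MeasurableSet ({y : VV d | ρ / 2 ≤ dist x y ∧ dist x y ≤ 2 * ρ})ᶜ := by
          have h1 : IsClosed {y : VV d | ρ / 2 ≤ dist x y} :=
            isClosed_le continuous_const (by fun_prop)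
          have h2 : IsClosed {y : VV d | dist x y ≤ 2 * ρ} :=
            isClosed_le (by fun_prop) continuous_const
          exact (h1.inter h2).measurableSet.compl
        unfold eta
        rw [withDensity_apply _ h2]
        rw [setLIntegral_eq_zero_iff h2 (measurable_wt_right d ρ x).ennreal_ofReal]
        refine Eventually.of_forall fun y hy => ?_
        have : wt d ρ x y = 0 := by
          unfold wt
          exact if_neg fun h3 => hy h3
        rw [this]
        simp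
    rw [h1, mul_zero]
  · intro v hv u hu
    rw [lintegral_smul_measure, smul_eq_mul]
    refine (mul_le_mul_right (hpot x v hv.le u hu) _).trans ?_
    rw [← ENNReal.ofReal_inv_of_pos hmx, ← ENNReal.ofReal_mul (by positivity)]
    apply ENNReal.ofReal_le_ofReal
    rw [inv_mul_le_iff₀ hmx]
    calc c₀ * (M * ρ ^ s) = (m₀ / T) * (c₀ * T / q) := by
          rw [hm₀]
          field_simp
      _ ≤ m x * (c₀ * T / q) := by gcongr
  · rw [integral_smul_measure, inner_smul_right, ← hGeq x, ENNReal.toReal_inv,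
      ENNReal.toReal_ofReal hmx.le, inv_mul_le_iff₀ hmx]
    linarith

end Pool.Agent.Lib.Angles
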