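import Mathlib
import Pool.Agent.Lib.Angles.Step

/-!
# The chain argument
-/

namespace Pool.Agent.Lib.Angles

open MeasureTheory Set Filter Topology Metric
open scoped ENNReal NNReal

lemma continuousAt_dir_left {E : Type*} [NormedAddCommGroup E] [NormedSpace ℝ E] {v y : E}
    (h : y ≠ v) : ContinuousAt (fun v => dir v y) v := by
  unfold dir
  apply ContinuousAt.smul
  · apply ContinuousAt.inv₀
    · fun_prop
    · exact norm_ne_zero_iff.2 (sub_ne_zero.2 h)
  · fun_prop

lemma continuousOn_dir_right {E : Type*} [NormedAddCommGroup E] [NormedSpace ℝ E] {v : E}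
    {K : Set E} (h : v ∉ K) : ContinuousOn (dir v) K := by
  unfold dir
  apply ContinuousOn.smul
  · apply ContinuousOn.inv₀
    · fun_prop
    · intro y hy
      refine norm_ne_zero_iff.2 (sub_ne_zero.2 ?_)
      rintro rfl
      exact h hy
  · fun_prop

lemma continuousAt_feature {d : ℕ} {ι : Type} [Fintype ι] {Φ : VV d → EuclideanSpace ℝ ι}
    (hΦc : Continuous Φ) (ν : Measure (VV d)) [IsFiniteMeasure ν] {K' : Set (VV d)}
    (hν : ν K'ᶜ = 0) {v : VV d} (hv : v ∉ K') :
    ContinuousAt (fun v => ∫ y, Φ (dir v y) ∂ν) v := by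
  obtain ⟨CΦ, hCΦ⟩ : ∃ CΦ : ℝ, ∀ u : VV d, ‖u‖ ≤ 1 → ‖Φ u‖ ≤ CΦ := by
    obtain ⟨b, hb⟩ := ((isCompact_closedBall (0 : VV d) 1).image hΦc).isBounded.exists_norm_le
    exact ⟨b, fun u hu => hb _ ⟨u, mem_closedBall_zero_iff.2 hu, rfl⟩⟩
  refine continuousAt_of_dominated (bound := fun _ => CΦ) ?_ ?_ (integrable_const _) ?_
  · exact Eventually.of_forall fun v => (hΦc.measurable.comp (measurable_dir v)).aestronglyMeasurable
  · exact Eventually.of_forall fun v => Eventually.of_forall fun y => hCΦ _ (norm_dir_le _ _)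
  · have h1 : ∀ᵐ y ∂ν, y ∈ K' := by
      rw [ae_iff]
      exact hν
    filter_upwards [h1] with y hy
    have hne : y ≠ v := by
      rintro rfl
      exact hv hy
    exact hΦc.continuousAt.comp (continuousAt_dir_left hne)

/-- **Chain lemma.** -/
theorem chain {d k : ℕ} (hd : 0 < d) (hk : 0 < k) {ι : Type} [Fintype ι]
    {Φ : VV d → EuclideanSpace ℝ ι} (hΦc : Continuous Φ) (hΦo : ∀ u, Φ (-u) = -Φ u) {B₁ : ℝ}
    (hB₁ : 0 ≤ B₁) (hΦ : FeatureBound k Φ B₁) {s r q T P : ℝ} (hs : 2 * k + 3 ≤ s)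
    (hsn : s ≤ 2 * d) (hr : 0 < r) (hq : 0 < q)
    (hq2 : q + 2 ^ (-s) ≤ 1 / 2 * r ^ (2 * d - s) / (1 + r) ^ (2 * d)) (hT : 2 ≤ T)
    (hP : 864 * (k + 1) * (d * (d + 1)) * T / q = P)
    (hθ : 2 * √(B₁ * (864 * (k + 1) * (d * (d + 1))) / (q * T)) ≤ 1 / 4)
    (μ : Measure (VV d)) [IsFiniteMeasure μ] (hμ0 : μ ≠ 0) {C : ℝ} (hC : 0 < C)
    (hμ : ∀ x r, 0 < r → μ (closedBall x r) ≤ ENNReal.ofReal (C * r ^ s))
    {K : Set (VV d)} (hK : IsCompact K) (hμK : μ Kᶜ = 0) (m : ℕ) :
    ∃ x ∈ K, (∀ U ∈ 𝓝 x, 0 < μ U) ∧ ∃ (ν : Measure (VV d)) (K' : Set (VV d)) (δ : ℝ),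
      ν univ = m ∧ K' ⊆ K ∧ IsCompact K' ∧ ν K'ᶜ = 0 ∧ 0 < δ ∧
      (∀ v, dist v x < δ → v ∉ K' ∧
        (∀ u, ‖u‖ = 1 → ∫⁻ y, pot k u (dir v y) ∂ν ≤ ENNReal.ofReal (m * P)) ∧
        ‖∫ y, Φ (dir v y) ∂ν‖ ≤ m / 2 + 2 * (B₁ * P)) := by
  have hd' : (0 : ℝ) < d := by exact_mod_cast hd
  have hP0 : 0 < P := by
    rw [← hP]
    positivity
  induction m with
  | zero =>
    have hK0 : μ K ≠ 0 := by
      intro h0
      apply hμ0
      rw [← Measure.measure_univ_eq_zero, ← union_compl_self K]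
      exact measure_union_null h0 hμK
    obtain ⟨x, hx, hx2⟩ := exists_mem_forall_mem_nhdsWithin_pos_measure hK0
    refine ⟨x, hx, fun U hU => hx2 U (mem_nhdsWithin_of_mem_nhds hU), 0, ∅, 1, by simp,
      empty_subset _, isCompact_empty, by simp, one_pos, fun v _ => ⟨by simp, by simp, ?_⟩⟩
    simp only [integral_zero_measure, norm_zero, Nat.cast_zero, zero_div, zero_add]
    positivity
  | succ m ih =>
    obtain ⟨x, hxK, hxμ, ν, K', δ, hνm, hK'K, hK'c, hνK', hδ, hv⟩ := ih
    have hνfin : IsFiniteMeasure ν := ⟨by rw [hνm]; exact ENNReal.natCast_lt_top m⟩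
    set A : VV d → EuclideanSpace ℝ ι := fun v => ∫ y, Φ (dir v y) ∂ν with hA
    set B : ℝ := B₁ * P with hB
    have hB0 : 0 ≤ B := by positivity
    set η : ℝ := 1 / (8 * (√B + 1)) with hη
    have hη0 : 0 < η := by positivity
    have hη1 : 2 * η * √B < 1 / 4 := by
      rw [hη]
      have : 2 * (1 / (8 * (√B + 1))) * √B = √B / (4 * (√B + 1)) := by
        field_simp
        ring
      rw [this, div_lt_iff₀ (by positivity)]
      linarith
    have hxK' : x ∉ K' := (hv x (by rw [dist_self]; exact hδ)).1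
    -- continuity of `A`
    have hAc : ContinuousAt A x := continuousAt_feature hΦc ν hνK' hxK'
    obtain ⟨δ₁, hδ₁, hA₁⟩ := Metric.continuousAt_iff.1 hAc η hη0
    set δ₂ : ℝ := min δ δ₁ / 2 with hδ₂
    have hδ₂0 : 0 < δ₂ := by positivity
    have hδ₂δ : δ₂ < δ := by
      have := min_le_left δ δ₁
      have h3 : 0 < min δ δ₁ := lt_min hδ hδ₁
      rw [hδ₂]
      linarith
    have hδ₂δ₁ : δ₂ < δ₁ := by
      have := min_le_right δ δ₁
      have h3 : 0 < min δ δ₁ := lt_min hδ hδ₁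
      rw [hδ₂]
      linarith
    set μ' : Measure (VV d) := μ.restrict (ball x δ₂) with hμ'
    have hμ'le : μ' ≤ μ := Measure.restrict_le_self
    have hμ'0 : μ' ≠ 0 := by
      intro h0
      have h1 : μ' univ = 0 := by rw [h0]; simp
      rw [hμ', Measure.restrict_apply_univ] at h1
      exact (hxμ _ (ball_mem_nhds x hδ₂0)).ne' h1
    obtain ⟨x', hx'K, hx'μ, ν', K₁, δ', hν'p, hK₁K, hK₁c, hx'K₁, hν'K₁, hδ', hpot', hinner⟩ :=
      step hd hk hΦc hΦo hB₁ hΦ hs hsn hr hq hq2 hT μ' hμ'0 hC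
        (fun x r hr => (hμ'le _).trans (hμ x r hr)) hK
        (le_antisymm ((hμ'le _).trans hμK.le) zero_le) (A x)
    rw [hP] at hpot'
    -- the new point is close to the old one
    have hx'x : dist x' x ≤ δ₂ := by
      by_contra hcon
      push Not at hcon
      have h1 : ball x' (dist x' x - δ₂) ∈ 𝓝 x' := ball_mem_nhds x' (by linarith)
      have h2 := hx'μ _ h1
      rw [hμ', Measure.restrict_apply measurableSet_ball] at h2
      have h3 : ball x' (dist x' x - δ₂) ∩ ball x δ₂ = ∅ := by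
        rw [← disjoint_iff_inter_eq_empty]
        apply ball_disjoint_ball
        linarith
      rw [h3] at h2
      simp at h2
    set a : VV d → EuclideanSpace ℝ ι := fun v => ∫ y, Φ (dir v y) ∂ν' with ha
    have hac : ContinuousAt a x' := continuousAt_feature hΦc ν' hν'K₁ hx'K₁
    have hx'δ : dist x' x < δ := lt_of_le_of_lt hx'x hδ₂δ
    have hx'K' : x' ∉ K' := (hv x' hx'δ).1
    have hAc' : ContinuousAt A x' := continuousAt_feature hΦc ν hνK' hx'K'
    -- bounds at `x'`
    have ha1 : ‖a x'‖ ≤ √B := by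
      have hsing : ν' {x'} = 0 := by
        refine measure_mono_null ?_ hν'K₁
        intro y hy
        rw [mem_singleton_iff.1 hy]
        exact hx'K₁
      obtain ⟨h1, h2⟩ := energy_map_dir_le (k := k) ν' x' hsing
        (hpot' x' (by rw [dist_self]; exact hδ'))
      rw [measure_univ, mul_one] at h2
      have : IsFiniteMeasure (ν'.map (dir x')) := Measure.isFiniteMeasure_map _ _
      have h3 := hΦ (ν'.map (dir x')) h1 P hP0.le h2
      rw [integral_map (measurable_dir x').aemeasurable hΦc.aestronglyMeasurable] at h3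
      exact Real.le_sqrt_of_sq_le h3
    have hA1 : ‖A x'‖ ≤ m / 2 + 2 * B := (hv x' hx'δ).2.2
    have hA2 : ‖A x‖ ≤ m / 2 + 2 * B := (hv x (by rw [dist_self]; exact hδ)).2.2
    have hA3 : ‖A x' - A x‖ ≤ η := by
      rw [← dist_eq_norm]
      exact (hA₁ (lt_of_le_of_lt hx'x hδ₂δ₁)).le
    have hAa : ‖A x' + a x'‖ < (m + 1) / 2 + 2 * B := by
      set R : ℝ := m / 2 + 2 * B with hR
      have hR0 : 0 ≤ R := by positivity
      have hRB : B ≤ R / 2 := by
        have : (0 : ℝ) ≤ m := Nat.cast_nonneg m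
        rw [hR]
        linarith
      have h1 : inner ℝ (A x') (a x') ≤ R / 4 + η * √B := by
        have e1 : inner ℝ (A x') (a x') = inner ℝ (A x) (a x') + inner ℝ (A x' - A x) (a x') := by
          rw [← inner_add_left]
          congr 1
          abel
        have e2 : inner ℝ (A x) (a x') ≤ R / 4 := by
          refine hinner.trans ?_
          have : 2 * √(B₁ * (864 * (k + 1) * (d * (d + 1))) / (q * T)) * ‖A x‖ ≤ 1 / 4 * R := by
            gcongr
          linarith
        have e3 : inner ℝ (A x' - A x) (a x') ≤ η * √B := by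
          refine (real_inner_le_norm _ _).trans ?_
          gcongr
        linarith
      have h2 : ‖A x' + a x'‖ ^ 2 < (R + 1 / 2) ^ 2 := by
        rw [norm_add_sq_real]
        have e1 : ‖A x'‖ ^ 2 ≤ R ^ 2 := by gcongr
        have e2 : ‖a x'‖ ^ 2 ≤ B := by
          have : ‖a x'‖ ^ 2 ≤ √B ^ 2 := by gcongr
          rwa [Real.sq_sqrt hB0] at this
        nlinarith
      have h3 := lt_of_pow_lt_pow_left₀ 2 (by positivity) h2
      rw [hR] at h3
      linarith
    have hsum : ContinuousAt (fun v => ‖A v + a v‖) x' := (hAc'.add hac).norm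
    have hev : ∀ᶠ v in 𝓝 x', ‖A v + a v‖ < (m + 1) / 2 + 2 * B := hsum.eventually_lt_const hAa
    have hevK : ∀ᶠ v in 𝓝 x', v ∉ K₁ := by
      have : IsOpen K₁ᶜ := hK₁c.isClosed.isOpen_compl
      exact this.mem_nhds hx'K₁
    obtain ⟨δ₃, hδ₃, hδ₃'⟩ := Metric.eventually_nhds_iff.1 (hev.and hevK)
    refine ⟨x', hx'K, fun U hU => lt_of_lt_of_le (hx'μ U hU) (hμ'le U), ν + ν', K' ∪ K₁,
      min (min δ' δ₃) (δ - δ₂), ?_, union_subset hK'K hK₁K, hK'c.union hK₁c, ?_, ?_, ?_⟩
    · rw [Measure.add_apply, hνm, measure_univ]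
      push_cast
      rfl
    · rw [Measure.add_apply, compl_union]
      have e1 : ν (K'ᶜ ∩ K₁ᶜ) = 0 := measure_mono_null inter_subset_left hνK'
      have e2 : ν' (K'ᶜ ∩ K₁ᶜ) = 0 := measure_mono_null inter_subset_right hν'K₁
      rw [e1, e2, add_zero]
    · exact lt_min (lt_min hδ' hδ₃) (by linarith)
    · intro v hvd
      have hv1 : dist v x' < δ' := lt_of_lt_of_le hvd ((min_le_left _ _).trans (min_le_left _ _))
      have hv2 : dist v x' < δ₃ := lt_of_lt_of_le hvd ((min_le_left _ _).trans (min_le_right _ _))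
      have hv3 : dist v x < δ := by
        have e1 : dist v x' < δ - δ₂ := lt_of_lt_of_le hvd (min_le_right _ _)
        have e2 := dist_triangle v x' x
        linarith
      obtain ⟨hn1, hn2⟩ := hδ₃' hv2
      obtain ⟨hw1, hw2, hw3⟩ := hv v hv3
      refine ⟨?_, fun u hu => ?_, ?_⟩
      · rintro (h | h)
        · exact hw1 h
        · exact hn2 h
      · rw [lintegral_add_measure]
        have e1 := hw2 u hu
        have e2 := hpot' v hv1 u hu
        refine (add_le_add e1 e2).trans (le_of_eq ?_)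
        rw [← ENNReal.ofReal_add (by positivity) hP0.le]
        congr 1
        push_cast
        ring
      · have hi : ∀ (ν₀ : Measure (VV d)) [IsFiniteMeasure ν₀], Integrable (fun y => Φ (dir v y)) ν₀ := by
          intro ν₀ _
          obtain ⟨b, hb⟩ := ((isCompact_closedBall (0 : VV d) 1).image hΦc).isBounded.exists_norm_le
          exact Integrable.of_bound (hΦc.measurable.comp (measurable_dir v)).aestronglyMeasurable b
            (Eventually.of_forall fun y => hb _ ⟨_, mem_closedBall_zero_iff.2 (norm_dir_le _ _), rfl⟩)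
        rw [integral_add_measure (hi ν) (hi ν')]
        push_cast
        exact hn1.le

end Pool.Agent.Lib.Angles
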