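import Mathlib
import Pool.Agent.Lib.Angles.Chain

/-!
# Measures in even dimension: the core contradiction
-/

namespace Pool.Agent.Lib.Angles

open MeasureTheory Set Filter Topology Metric
open scoped ENNReal NNReal

/-- The output of the analysis on the sphere. -/
def SphereMain (d g : ℕ) (t : ℝ) : Prop :=
  ∃ (ι : Type) (_ : Fintype ι) (Φ : VV d → EuclideanSpace ℝ ι),
    Continuous Φ ∧ (∀ u, Φ (-u) = -Φ u) ∧
    FeatureBound (d - g) Φ (4 * ((d : ℝ) - 1) * (2 / (1 - t ^ 2)) ^ (2 * g)) ∧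
    ∀ (lam : Measure (VV d)) [IsFiniteMeasure lam] (S : Set (VV d)), IsCompact S →
      (∀ u ∈ S, ‖u‖ = 1) → lam Sᶜ = 0 → (∀ u ∈ S, ∀ w ∈ S, inner ℝ u w ≠ t) →
      ∀ I : ℝ, 0 ≤ I → (∫⁻ u, ∫⁻ w, pot (d - g) u w ∂lam ∂lam) ≤ ENNReal.ofReal I →
        (lam univ).toReal ^ 2 ≤ ‖∫ u, Φ u ∂lam‖ ^ 2 + tailB d g t * I

theorem even_core {d g : ℕ} (hg : 2 ≤ g) (hgd : 2 * g + 2 ≤ d) {t : ℝ} (ht : |t| < 1)
    (hS : SphereMain d g t) {s r q T : ℝ} (hs : s = 2 * ((d : ℝ) - g) + 3) (hr : 0 < r)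
    (hq : 0 < q)
    (hq2 : q + 2 ^ (-s) ≤ 1 / 2 * r ^ (2 * d - s) / (1 + r) ^ (2 * d)) (hT : 2 ≤ T)
    (hθ : 2 * √((4 * ((d : ℝ) - 1) * (2 / (1 - t ^ 2)) ^ (2 * g)) *
      (864 * (((d : ℝ) - g) + 1) * (d * (d + 1))) / (q * T)) ≤ 1 / 4)
    (htail : tailB d g t * (864 * (((d : ℝ) - g) + 1) * (d * (d + 1)) * T / q) ≤ 1 / 4)
    (htail0 : 0 ≤ tailB d g t)
    (μ : Measure (VV d)) [IsFiniteMeasure μ] (hμ0 : μ ≠ 0) {C : ℝ} (hC : 0 < C)
    (hμ : ∀ x r, 0 < r → μ (closedBall x r) ≤ ENNReal.ofReal (C * r ^ s))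
    {K : Set (VV d)} (hK : IsCompact K) (hμK : μ Kᶜ = 0) :
    ∃ v ∈ K, ∃ y ∈ K, ∃ z ∈ K, y ≠ v ∧ z ≠ v ∧ inner ℝ (dir v y) (dir v z) = t := by
  by_contra hcon
  push Not at hcon
  obtain ⟨ι, _, Φ, hΦc, hΦo, hΦ, hmain⟩ := hS
  have hgd' : g ≤ d := by omega
  have hk : 0 < d - g := by omega
  have hd : 0 < d := by omega
  have hcast : ((d - g : ℕ) : ℝ) = (d : ℝ) - g := Nat.cast_sub hgd'
  have hd1 : (1 : ℝ) ≤ d := by exact_mod_cast hd
  have ht2 : 0 < 1 - t ^ 2 := by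
    have : t ^ 2 < 1 := (sq_lt_one_iff_abs_lt_one t).2 ht
    linarith
  set B₁ : ℝ := 4 * ((d : ℝ) - 1) * (2 / (1 - t ^ 2)) ^ (2 * g) with hB₁
  have hB₁0 : 0 ≤ B₁ := by
    have : 0 ≤ (d : ℝ) - 1 := by linarith
    positivity
  set P : ℝ := 864 * (((d : ℝ) - g) + 1) * (d * (d + 1)) * T / q with hP
  have hdg : 0 < (d : ℝ) - g := by
    rw [← hcast]
    exact_mod_cast hk
  have hP0 : 0 < P := by
    have : 0 < T := by linarith
    positivity
  set B : ℝ := B₁ * P with hB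
  have hB0 : 0 ≤ B := by positivity
  set m : ℕ := ⌈8 * B⌉₊ + 1 with hm
  have hmB : 8 * B ≤ m := by
    rw [hm]
    push_cast
    linarith [Nat.le_ceil (8 * B)]
  have hm0 : (0 : ℝ) < m := by
    rw [hm]
    positivity
  obtain ⟨x, hxK, -, ν, K', δ, hνm, hK'K, hK'c, hνK', hδ, hv⟩ := chain hd hk hΦc hΦo hB₁0 hΦ
    (by rw [hcast, hs]) (by
      rw [hs]
      have : (2 : ℝ) ≤ g := by exact_mod_cast hg
      linarith) hr hq hq2 hT (P := P) (by rw [hcast]) (by rw [hcast]; exact hθ) μ hμ0 hC hμ hK hμK m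
  obtain ⟨hxK', hpot, hnorm⟩ := hv x (by rw [dist_self]; exact hδ)
  have hνfin : IsFiniteMeasure ν := ⟨by rw [hνm]; exact ENNReal.natCast_lt_top m⟩
  have hfin : IsFiniteMeasure (ν.map (dir x)) := Measure.isFiniteMeasure_map _ _
  have hsing : ν {x} = 0 := by
    refine measure_mono_null ?_ hνK'
    intro y hy
    rw [mem_singleton_iff.1 hy]
    exact hxK'
  obtain ⟨h1, h2⟩ := energy_map_dir_le (k := d - g) ν x hsing hpot
  rw [hνm] at h2
  have hSc : IsCompact (dir x '' K') := hK'c.image_of_continuousOn (continuousOn_dir_right hxK')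
  have hSnull : (ν.map (dir x)) (dir x '' K')ᶜ = 0 := by
    rw [Measure.map_apply (measurable_dir x) hSc.measurableSet.compl]
    refine measure_mono_null ?_ hνK'
    intro y hy hyK
    exact hy ⟨y, hyK, rfl⟩
  have hE : (∫⁻ u, ∫⁻ w, pot (d - g) u w ∂(ν.map (dir x)) ∂(ν.map (dir x))) ≤
      ENNReal.ofReal (m * P * m) := by
    refine h2.trans (le_of_eq ?_)
    rw [ENNReal.ofReal_mul (p := (m : ℝ) * P) (by positivity), ENNReal.ofReal_natCast]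
  have h3 := hmain (ν.map (dir x)) (dir x '' K') hSc ?_ hSnull ?_ (m * P * m) (by positivity) hE
  · rw [Measure.map_apply (measurable_dir x) MeasurableSet.univ, preimage_univ, hνm,
      ENNReal.toReal_natCast,
      integral_map (measurable_dir x).aemeasurable hΦc.aestronglyMeasurable] at h3
    have h4 : ‖∫ y, Φ (dir x y) ∂ν‖ ^ 2 ≤ (m / 2 + 2 * B) ^ 2 := by gcongr
    have h5 : (m / 2 + 2 * B) ^ 2 ≤ (3 / 4 * (m : ℝ)) ^ 2 := by
      gcongr
      linarith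
    have h6 : tailB d g t * (m * P * m) ≤ 1 / 4 * m ^ 2 := by
      calc tailB d g t * (m * P * m) = (tailB d g t * P) * m ^ 2 := by ring
        _ ≤ _ := by gcongr
    nlinarith [sq_pos_of_pos hm0]
  · rintro u ⟨y, hy, rfl⟩
    apply norm_dir
    rintro rfl
    exact hxK' hy
  · rintro u ⟨y, hy, rfl⟩ w ⟨z, hz, rfl⟩
    refine hcon x hxK y (hK'K hy) z (hK'K hz) ?_ ?_
    · rintro rfl
      exact hxK' hy
    · rintro rfl
      exact hxK' hz

end Pool.Agent.Lib.Angles
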