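import Mathlib
import Pool.Agent.Lib.Angles.Defs

/-!
# Choice of the parameters
-/

namespace Pool.Agent.Lib.Angles

open Filter Topology

lemma rOne_bounds {t : ℝ} (ht : |t| < 1) : 0 < rOne t ∧ rOne t < 1 := by
  have ht2 : t ^ 2 < 1 := (sq_lt_one_iff_abs_lt_one t).2 ht
  unfold rOne
  constructor
  · positivity
  · rw [Real.sqrt_lt' one_pos, one_pow, Real.sqrt_lt' one_pos]
    nlinarith

/-- Bound for the tail constant. -/
lemma tailB_le {t β Y : ℝ} (ht : |t| < 1) (hβ1 : rOne t ^ (t ^ 2 / 2) ≤ β)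
    (hβ2 : 3 / 4 ≤ β) (hβ3 : β < 1) (hY1 : 1 / (1 - rOne t) ≤ Y) (hY2 : 2 / (1 - t ^ 2) / β ≤ Y)
    {d g : ℕ} (hd : 1 ≤ d) (hgd : 2 * g + 2 ≤ d) :
    0 ≤ tailB d g t ∧ tailB d g t ≤ 6 * d / β ^ 2 * (Y ^ 2) ^ g * β ^ d := by
  obtain ⟨hr0, hr1⟩ := rOne_bounds ht
  have ht2 : 0 < 1 - t ^ 2 := by
    have : t ^ 2 < 1 := (sq_lt_one_iff_abs_lt_one t).2 ht
    linarith
  have hβ0 : 0 < β := by linarith
  have hd1 : (1 : ℝ) ≤ d := by exact_mod_cast hd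
  have hd0 : 0 ≤ (d : ℝ) - 1 := by linarith
  have h1r : 0 < 1 - rOne t := by linarith
  have hY0 : 0 < Y := lt_of_lt_of_le (by positivity) hY1
  constructor
  · unfold tailB
    positivity
  · have e1 : rOne t ^ (⌊((d : ℝ) - 1) * t ^ 2 / 2⌋₊ + 1) ≤ β ^ d / β ^ 2 := by
      have h1 : ((d : ℝ) - 1) * t ^ 2 / 2 ≤ ((⌊((d : ℝ) - 1) * t ^ 2 / 2⌋₊ + 1 : ℕ) : ℝ) := by
        push_cast
        exact (Nat.lt_floor_add_one _).le
      calc rOne t ^ (⌊((d : ℝ) - 1) * t ^ 2 / 2⌋₊ + 1)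
          = rOne t ^ (((⌊((d : ℝ) - 1) * t ^ 2 / 2⌋₊ + 1 : ℕ) : ℝ)) := (Real.rpow_natCast _ _).symm
        _ ≤ rOne t ^ (((d : ℝ) - 1) * t ^ 2 / 2) :=
            Real.rpow_le_rpow_of_exponent_ge hr0 hr1.le h1
        _ = (rOne t ^ (t ^ 2 / 2)) ^ (d - 1) := by
            rw [← Real.rpow_natCast (rOne t ^ (t ^ 2 / 2)) (d - 1), ← Real.rpow_mul hr0.le,
              Nat.cast_sub hd]
            congr 1
            push_cast
            ring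
        _ ≤ β ^ (d - 1) := by
            gcongr
        _ = β ^ d / β := by
            rw [eq_div_iff hβ0.ne', ← pow_succ]
            congr 1
            omega
        _ ≤ β ^ d / β ^ 2 := by
            gcongr
            nlinarith
    have e2 : (3 / 4 : ℝ) ^ (d - 2 - 2 * g) ≤ β ^ d / β ^ 2 / β ^ (2 * g) := by
      calc (3 / 4 : ℝ) ^ (d - 2 - 2 * g) ≤ β ^ (d - 2 - 2 * g) := by gcongr
        _ = _ := by
            rw [div_div, ← pow_add, eq_div_iff (by positivity), ← pow_add]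
            congr 1
            omega
    have e3 : (1 / (1 - rOne t)) ^ (2 * g) ≤ Y ^ (2 * g) := by gcongr
    have e4 : (2 / (1 - t ^ 2)) ^ (2 * g) / β ^ (2 * g) ≤ Y ^ (2 * g) := by
      rw [← div_pow]
      gcongr
    unfold tailB
    have hβd : 0 < β ^ d / β ^ 2 := by positivity
    have hY2g : 0 < Y ^ (2 * g) := by positivity
    calc 2 * rOne t ^ (⌊((d : ℝ) - 1) * t ^ 2 / 2⌋₊ + 1) * (1 / (1 - rOne t)) ^ (2 * g) +
          4 * ((d : ℝ) - 1) * (2 / (1 - t ^ 2)) ^ (2 * g) * (3 / 4) ^ (d - 2 - 2 * g)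
        ≤ 2 * (β ^ d / β ^ 2) * Y ^ (2 * g) +
          4 * ((d : ℝ) - 1) * (2 / (1 - t ^ 2)) ^ (2 * g) * (β ^ d / β ^ 2 / β ^ (2 * g)) := by
          gcongr
      _ = 2 * (β ^ d / β ^ 2) * Y ^ (2 * g) +
          4 * ((d : ℝ) - 1) * (β ^ d / β ^ 2) * ((2 / (1 - t ^ 2)) ^ (2 * g) / β ^ (2 * g)) := by
          ring
      _ ≤ 2 * (β ^ d / β ^ 2) * Y ^ (2 * g) +
          4 * ((d : ℝ) - 1) * (β ^ d / β ^ 2) * Y ^ (2 * g) := by gcongr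
      _ = (4 * d - 2) * ((β ^ d / β ^ 2) * Y ^ (2 * g)) := by ring
      _ ≤ (6 * d) * ((β ^ d / β ^ 2) * Y ^ (2 * g)) := by
          gcongr
          linarith
      _ = _ := by
          rw [← pow_mul]
          ring

lemma cond_one {r : ℝ} (hrpos : 0 < r) (hr4 : r ≤ 1 / 4) {N d g : ℕ} (hNg : N * g ≤ d)
    (hrN : (2 / r) ^ 2 ≤ 2 ^ N) :
    1 / 4 * r ^ (2 * g) / (1 + r) ^ (2 * d) + 2 ^ (-(2 * ((d : ℝ) - g) + 3)) ≤
        1 / 2 * r ^ (2 * d - (2 * ((d : ℝ) - g) + 3)) / (1 + r) ^ (2 * d) := by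
  have e1 : r ^ (2 * (d : ℝ) - (2 * ((d : ℝ) - g) + 3)) ≥ r ^ (2 * g) := by
    rw [ge_iff_le, ← Real.rpow_natCast]
    apply Real.rpow_le_rpow_of_exponent_ge hrpos (by linarith)
    push_cast
    linarith
  have e2 : (2 : ℝ) ^ (-(2 * ((d : ℝ) - g) + 3)) ≤ 1 / 4 * r ^ (2 * g) / (1 + r) ^ (2 * d) := by
    have f1 : (2 : ℝ) ^ (-(2 * ((d : ℝ) - g) + 3)) = 2 ^ (2 * g) / 2 ^ (2 * d) / 8 := by
      rw [show -(2 * ((d : ℝ) - g) + 3) = ((2 * g : ℕ) : ℝ) - ((2 * d : ℕ) : ℝ) - ((3 : ℕ) : ℝ) by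
        push_cast; ring, Real.rpow_sub (by norm_num), Real.rpow_sub (by norm_num),
        Real.rpow_natCast, Real.rpow_natCast, Real.rpow_natCast]
      norm_num
    have f2 : ((2 / r) ^ 2) ^ g ≤ 2 ^ d := by
      calc ((2 / r) ^ 2) ^ g ≤ (2 ^ N) ^ g := by gcongr
        _ = 2 ^ (N * g) := by rw [pow_mul]
        _ ≤ 2 ^ d := pow_le_pow_right₀ (by norm_num) hNg
    have f3 : (1 + r) ^ (2 * d) ≤ 2 ^ d := by
      rw [pow_mul]
      gcongr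
      nlinarith
    rw [f1, div_div, div_le_div_iff₀ (by positivity) (by positivity)]
    have f4 : (2 : ℝ) ^ (2 * g) = ((2 / r) ^ 2) ^ g * r ^ (2 * g) := by
      rw [← pow_mul, ← mul_pow]
      congr 1
      field_simp
    have f5 : (2 : ℝ) ^ (2 * d) = 2 ^ d * 2 ^ d := by
      rw [← pow_add]
      congr 1
      omega
    rw [f4, f5]
    calc ((2 / r) ^ 2) ^ g * r ^ (2 * g) * (1 + r) ^ (2 * d)
        ≤ 2 ^ d * r ^ (2 * g) * 2 ^ d := by gcongr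
      _ = 2 ^ d * 2 ^ d * r ^ (2 * g) := by ring
      _ ≤ 2 * (2 ^ d * 2 ^ d * r ^ (2 * g)) := by
          have : 0 < (2 : ℝ) ^ d * 2 ^ d * r ^ (2 * g) := by positivity
          linarith
      _ = 1 / 4 * r ^ (2 * g) * (2 ^ d * 2 ^ d * 8) := by ring
  calc 1 / 4 * r ^ (2 * g) / (1 + r) ^ (2 * d) + 2 ^ (-(2 * ((d : ℝ) - g) + 3))
      ≤ 1 / 4 * r ^ (2 * g) / (1 + r) ^ (2 * d) + 1 / 4 * r ^ (2 * g) / (1 + r) ^ (2 * d) := by
        gcongr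
    _ = 1 / 2 * r ^ (2 * g) / (1 + r) ^ (2 * d) := by ring
    _ ≤ _ := by gcongr

lemma cond_two {B₁ c₀ q : ℝ} (hB₁ : 0 ≤ B₁) (hc₀ : 0 < c₀) (hq : 0 < q) :
    2 * √(B₁ * c₀ / (q * (64 * B₁ * c₀ / q + 2))) ≤ 1 / 4 := by
  have hT0 : 0 < 64 * B₁ * c₀ / q + 2 := by positivity
  have e1 : B₁ * c₀ / (q * (64 * B₁ * c₀ / q + 2)) ≤ (1 / 8) ^ 2 := by
    rw [div_le_iff₀ (by positivity)]
    have : (1 / 8) ^ 2 * (q * (64 * B₁ * c₀ / q + 2)) = B₁ * c₀ + q / 32 := by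
      field_simp
      ring
    rw [this]
    linarith
  have e2 : √(B₁ * c₀ / (q * (64 * B₁ * c₀ / q + 2))) ≤ 1 / 8 :=
    Real.sqrt_le_iff.2 ⟨by norm_num, e1⟩
  linarith

lemma cond_three {d g : ℕ} {b r : ℝ} (hrpos : 0 < r) (hr4 : r ≤ 1 / 4) (hb : 1 ≤ b)
    (hd1 : 1 ≤ d) (hg2 : 2 ≤ g) (hgd : 2 * g + 2 ≤ d) {q B₁ c₀ : ℝ}
    (hq : q = 1 / 4 * r ^ (2 * g) / (1 + r) ^ (2 * d))
    (hB₁ : B₁ = 4 * ((d : ℝ) - 1) * b ^ (2 * g))
    (hc₀ : c₀ = 864 * (((d : ℝ) - g) + 1) * (d * (d + 1))) :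
    c₀ * (64 * B₁ * c₀ / q + 2) / q ≤ 1728 * 442370 * 16 * (d : ℝ) ^ 7 * (b ^ 2 / r ^ 4) ^ g *
        ((1 + r) ^ 4) ^ d := by
  have hdR : (1 : ℝ) ≤ d := by exact_mod_cast hd1
  have hgR : (2 : ℝ) ≤ g := by exact_mod_cast hg2
  have hgdR : 2 * (g : ℝ) + 2 ≤ d := by exact_mod_cast hgd
  have hq0 : 0 < q := by
    rw [hq]
    positivity
  have hq1 : q ≤ 1 := by
    rw [hq, div_le_one (by positivity)]
    have e1 : r ^ (2 * g) ≤ 1 := pow_le_one₀ hrpos.le (by linarith)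
    have e2 : 1 ≤ (1 + r) ^ (2 * d) := one_le_pow₀ (by linarith)
    linarith
  have hB₁0 : 0 ≤ B₁ := by
    have : 0 ≤ (d : ℝ) - 1 := by linarith
    rw [hB₁]
    positivity
  have hc₀0 : 0 < c₀ := by
    have : 0 < (d : ℝ) - g + 1 := by linarith
    rw [hc₀]
    positivity
  have hc₀le : c₀ ≤ 1728 * (d : ℝ) ^ 3 := by
    rw [hc₀]
    have f1 : (d : ℝ) - g + 1 ≤ d := by linarith
    have f0 : 0 ≤ (d : ℝ) - g + 1 := by linarith
    have f2 : (d : ℝ) * (d + 1) ≤ 2 * (d : ℝ) ^ 2 := by nlinarith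
    calc 864 * ((d : ℝ) - g + 1) * (d * (d + 1)) ≤ 864 * d * (2 * (d : ℝ) ^ 2) := by gcongr
      _ = _ := by ring
  have hB₁le : B₁ ≤ 4 * d * b ^ (2 * g) := by
    rw [hB₁]
    gcongr
    linarith
  have hb1 : 1 ≤ b ^ (2 * g) := one_le_pow₀ hb
  have hd4 : 1 ≤ (d : ℝ) ^ 4 := one_le_pow₀ hdR
  have f2 : 1 ≤ (d : ℝ) ^ 4 * b ^ (2 * g) := one_le_mul_of_one_le_of_one_le hd4 hb1
  have f1 : 64 * B₁ * c₀ ≤ 442368 * ((d : ℝ) ^ 4 * b ^ (2 * g)) := by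
    calc 64 * B₁ * c₀ ≤ 64 * (4 * d * b ^ (2 * g)) * (1728 * (d : ℝ) ^ 3) := by gcongr
      _ = _ := by ring
  have hTle : 64 * B₁ * c₀ / q + 2 ≤ 442370 * ((d : ℝ) ^ 4 * b ^ (2 * g)) / q := by
    rw [le_div_iff₀ hq0, add_mul, div_mul_cancel₀ _ hq0.ne']
    linarith
  have g1 : r ^ (4 * g) = r ^ (2 * g) * r ^ (2 * g) := by
    rw [← pow_add]
    congr 1
    omega
  have g2 : (1 + r) ^ (4 * d) = (1 + r) ^ (2 * d) * (1 + r) ^ (2 * d) := by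
    rw [← pow_add]
    congr 1
    omega
  calc c₀ * (64 * B₁ * c₀ / q + 2) / q
      ≤ (1728 * (d : ℝ) ^ 3) * (442370 * ((d : ℝ) ^ 4 * b ^ (2 * g)) / q) / q := by
        gcongr
    _ = _ := by
        rw [hq, div_pow, ← pow_mul, ← pow_mul, ← pow_mul, g1, g2]
        field_simp
        norm_num

theorem params {t : ℝ} (ht0 : t ≠ 0) (ht : |t| < 1) :
    ∃ N : ℕ, 1 ≤ N ∧ ∃ d₀ : ℕ, ∀ d : ℕ, d₀ ≤ d → ∀ g : ℕ, g = d / N →
      2 ≤ g ∧ 2 * g + 2 ≤ d ∧ 0 ≤ tailB d g t ∧ ∃ r q T : ℝ, 0 < r ∧ 0 < q ∧ 2 ≤ T ∧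
      q + 2 ^ (-(2 * ((d : ℝ) - g) + 3)) ≤
        1 / 2 * r ^ (2 * d - (2 * ((d : ℝ) - g) + 3)) / (1 + r) ^ (2 * d) ∧
      2 * √((4 * ((d : ℝ) - 1) * (2 / (1 - t ^ 2)) ^ (2 * g)) *
        (864 * (((d : ℝ) - g) + 1) * (d * (d + 1))) / (q * T)) ≤ 1 / 4 ∧
      tailB d g t * (864 * (((d : ℝ) - g) + 1) * (d * (d + 1)) * T / q) ≤ 1 / 4 := by
  obtain ⟨hr0, hr1⟩ := rOne_bounds ht
  have ht2 : 0 < 1 - t ^ 2 := by
    have : t ^ 2 < 1 := (sq_lt_one_iff_abs_lt_one t).2 ht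
    linarith
  have ht2' : 0 < t ^ 2 := by positivity
  set β : ℝ := max (rOne t ^ (t ^ 2 / 2)) (3 / 4) with hβ
  have hβ1 : rOne t ^ (t ^ 2 / 2) ≤ β := le_max_left _ _
  have hβ2 : 3 / 4 ≤ β := le_max_right _ _
  have hβ3 : β < 1 := max_lt (Real.rpow_lt_one hr0.le hr1 (by positivity)) (by norm_num)
  have hβ0 : 0 < β := by linarith
  set x : ℝ := √(√β) with hx
  have hx0 : 0 < x := by positivity
  have hx1 : x < 1 := by
    rw [hx, Real.sqrt_lt' one_pos, one_pow, Real.sqrt_lt' one_pos]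
    simpa using hβ3
  have hx4 : x ^ 4 = β := by
    rw [hx, show (4 : ℕ) = 2 * 2 by norm_num, pow_mul, Real.sq_sqrt (by positivity),
      Real.sq_sqrt hβ0.le]
  -- choice of `r`
  set r : ℝ := min (1 / √x - 1) (1 / 4) with hr
  have hsx : √x < 1 := by
    rw [Real.sqrt_lt' one_pos]
    simpa using hx1
  have hsx0 : 0 < √x := Real.sqrt_pos.2 hx0
  have hrpos : 0 < r := by
    refine lt_min ?_ (by norm_num)
    rw [sub_pos, lt_div_iff₀ hsx0, one_mul]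
    exact hsx
  have hr4 : r ≤ 1 / 4 := min_le_right _ _
  have hrx : (1 + r) ^ 4 * β ≤ x ^ 2 := by
    have h1 : 1 + r ≤ 1 / √x := by
      have : r ≤ 1 / √x - 1 := min_le_left _ _
      linarith
    have h2 : (1 + r) ^ 4 ≤ (1 / √x) ^ 4 := by gcongr
    have h3 : (1 / √x) ^ 4 = 1 / x ^ 2 := by
      rw [div_pow, one_pow, show (4 : ℕ) = 2 * 2 by norm_num, pow_mul, Real.sq_sqrt hx0.le]
    rw [h3] at h2
    calc (1 + r) ^ 4 * β ≤ 1 / x ^ 2 * β := by gcongr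
      _ = x ^ 2 := by
          rw [← hx4]
          field_simp
  set b : ℝ := 2 / (1 - t ^ 2) with hb
  have hb2 : 2 ≤ b := by
    rw [hb, le_div_iff₀ ht2]
    nlinarith
  set Y : ℝ := max (1 / (1 - rOne t)) (b / β) with hY
  have hY1 : 1 / (1 - rOne t) ≤ Y := le_max_left _ _
  have hY2 : b / β ≤ Y := le_max_right _ _
  have hY0 : 1 ≤ Y := by
    refine le_trans ?_ hY1
    rw [le_div_iff₀ (by linarith)]
    linarith
  set Z : ℝ := Y ^ 2 * b ^ 2 / r ^ 4 with hZ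
  have hZ0 : 0 < Z := by positivity
  -- choice of `N`
  obtain ⟨N₁, hN₁⟩ := pow_unbounded_of_one_lt Z (show 1 < 1 / x by
    rw [lt_div_iff₀ hx0]
    linarith)
  obtain ⟨N₂, hN₂⟩ := pow_unbounded_of_one_lt ((2 / r) ^ 2) (show (1 : ℝ) < 2 by norm_num)
  set N : ℕ := max (max N₁ N₂) 4 with hN
  have hN4 : 4 ≤ N := le_max_right _ _
  have hZN : Z ≤ (1 / x) ^ N := by
    refine hN₁.le.trans ?_
    apply pow_le_pow_right₀
    · rw [le_div_iff₀ hx0]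
      linarith
    · exact (le_max_left _ _).trans (le_max_left _ _)
  have hrN : (2 / r) ^ 2 ≤ 2 ^ N := by
    refine hN₂.le.trans ?_
    apply pow_le_pow_right₀ (by norm_num)
    exact (le_max_right _ _).trans (le_max_left _ _)
  -- choice of `d₀`
  set C₀ : ℝ := 6 / β ^ 2 * 1728 * 442370 * 16 with hC₀
  have hC₀0 : 0 < C₀ := by positivity
  have hlim : Tendsto (fun n : ℕ => C₀ * ((n : ℝ) ^ 8 * x ^ n)) atTop (𝓝 (C₀ * 0)) :=
    (tendsto_pow_const_mul_const_pow_of_abs_lt_one 8 (by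
      rw [abs_of_pos hx0]
      exact hx1)).const_mul C₀
  rw [mul_zero] at hlim
  obtain ⟨d₁, hd₁⟩ := eventually_atTop.1 (hlim.eventually_le_const
    (show (0 : ℝ) < 1 / 4 by norm_num))
  refine ⟨N, by omega, max d₁ (2 * N), fun d hd g hg => ?_⟩
  have hdd₁ : d₁ ≤ d := (le_max_left _ _).trans hd
  have hdN : 2 * N ≤ d := (le_max_right _ _).trans hd
  have hNg : N * g ≤ d := by
    rw [hg]
    exact Nat.mul_div_le d N
  have hg2 : 2 ≤ g := by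
    rw [hg, Nat.le_div_iff_mul_le (by omega)]
    omega
  have h4g : 4 * g ≤ d := le_trans (by gcongr) hNg
  have hgd : 2 * g + 2 ≤ d := by omega
  have hd1 : 1 ≤ d := by omega
  obtain ⟨ht1, ht3⟩ := tailB_le ht hβ1 hβ2 hβ3 hY1 hY2 hd1 hgd
  refine ⟨hg2, hgd, ht1, ?_⟩
  have hdR : (1 : ℝ) ≤ d := by exact_mod_cast hd1
  have hgR : (2 : ℝ) ≤ g := by exact_mod_cast hg2
  have hgdR : 2 * (g : ℝ) + 2 ≤ d := by exact_mod_cast hgd
  set q : ℝ := 1 / 4 * r ^ (2 * g) / (1 + r) ^ (2 * d) with hq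
  have hq0 : 0 < q := by positivity
  set B₁ : ℝ := 4 * ((d : ℝ) - 1) * b ^ (2 * g) with hB₁
  have hB₁0 : 0 ≤ B₁ := by
    have : 0 ≤ (d : ℝ) - 1 := by linarith
    positivity
  set c₀ : ℝ := 864 * (((d : ℝ) - g) + 1) * (d * (d + 1)) with hc₀
  have hc₀0 : 0 < c₀ := by
    have : 0 < (d : ℝ) - g + 1 := by linarith
    positivity
  have hTq : 0 ≤ 64 * B₁ * c₀ / q := by positivity
  refine ⟨r, q, 64 * B₁ * c₀ / q + 2, hrpos, hq0, by linarith,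
    cond_one hrpos hr4 hNg hrN, cond_two hB₁0 hc₀0 hq0, ?_⟩
  have hPle := cond_three hrpos hr4 (by linarith) hd1 hg2 hgd hq hB₁ hc₀
  have hZg : Z ^ g ≤ (1 / x) ^ d := by
    calc Z ^ g ≤ ((1 / x) ^ N) ^ g := by gcongr
      _ = (1 / x) ^ (N * g) := by rw [pow_mul]
      _ ≤ (1 / x) ^ d := by
          apply pow_le_pow_right₀ _ hNg
          rw [le_div_iff₀ hx0]
          linarith
  have hZg2 : Z ^ g = (Y ^ 2) ^ g * (b ^ 2 / r ^ 4) ^ g := by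
    rw [hZ, mul_div_assoc, mul_pow]
  have hxx : (1 / x) ^ d * (x ^ 2) ^ d = x ^ d := by
    rw [← mul_pow]
    congr 1
    field_simp
  calc tailB d g t * (c₀ * (64 * B₁ * c₀ / q + 2) / q)
      ≤ (6 * d / β ^ 2 * (Y ^ 2) ^ g * β ^ d) * (1728 * 442370 * 16 * (d : ℝ) ^ 7 *
        (b ^ 2 / r ^ 4) ^ g * ((1 + r) ^ 4) ^ d) := by gcongr
    _ = C₀ * (d : ℝ) ^ 8 * Z ^ g * ((1 + r) ^ 4 * β) ^ d := by
        rw [hZg2, mul_pow ((1 + r) ^ 4), hC₀]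
        ring
    _ ≤ C₀ * (d : ℝ) ^ 8 * (1 / x) ^ d * (x ^ 2) ^ d := by gcongr
    _ = C₀ * (d : ℝ) ^ 8 * ((1 / x) ^ d * (x ^ 2) ^ d) := by ring
    _ = C₀ * ((d : ℝ) ^ 8 * x ^ d) := by
        rw [hxx]
        ring
    _ ≤ 1 / 4 := hd₁ d hdd₁

end Pool.Agent.Lib.Angles
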