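import Mathlib

open Set Filter Topology MeasureTheory
open scoped ENNReal NNReal

namespace Pool.Agent.Lib.Angles

variable {k m : ℕ}

/-- the product space -/
abbrev XX (k m : ℕ) := (Fin k → ℝ) × (Fin m → ℝ)

/-- matrices -/
abbrev MM (k m : ℕ) := Fin m → Fin k → ℝ

/-- the projection `x.2 - A x.1` -/
def prj (A : MM k m) (x : XX k m) : Fin m → ℝ := fun j => x.2 j - ∑ i, A j i * x.1 i

lemma prj_sub (A : MM k m) (x y : XX k m) (j : Fin m) :
    prj A x j - prj A y j = prj A (x - y) j := by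
  simp only [prj, Prod.snd_sub, Prod.fst_sub, Pi.sub_apply, mul_sub, Finset.sum_sub_distrib]
  ring

lemma continuous_prj : Continuous fun p : MM k m × XX k m => prj p.1 p.2 := by
  unfold prj
  fun_prop

lemma exists_norm_eq {l : ℕ} [Nonempty (Fin l)] (z : Fin l → ℝ) : ∃ i, ‖z‖ = |z i| := by
  obtain ⟨i, hi⟩ := Finite.exists_max (fun i => |z i|)
  refine ⟨i, le_antisymm ?_ (norm_le_pi_norm z i)⟩
  exact (pi_norm_le_iff_of_nonneg (abs_nonneg _)).2 hi

/-- measure of the set of rows -/
lemma volume_row {R ρ : ℝ} (hρ : 0 ≤ ρ) (hR : 0 < R) (z : Fin k → ℝ) (c : ℝ)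
    (i₀ : Fin k) (hz : z i₀ ≠ 0) :
    volume {a : Fin k → ℝ | (∀ i, |a i| ≤ R) ∧ |c - ∑ i, a i * z i| ≤ ρ} ≤
      ENNReal.ofReal (2 * ρ / |z i₀| * (2 * R) ^ (k - 1)) := by
  classical
  set M : Matrix (Fin k) (Fin k) ℝ := (1 : Matrix (Fin k) (Fin k) ℝ).updateRow i₀ z with hM
  have hdet : M.det = z i₀ := by
    rw [hM, ← Matrix.cramer_transpose_apply, Matrix.transpose_one, Matrix.cramer_one]
    rfl
  have hdet' : LinearMap.det (Matrix.toLin' M) = z i₀ := by rw [LinearMap.det_toLin', hdet]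
  set box : Set (Fin k → ℝ) := Set.pi univ fun i =>
    if i = i₀ then Icc (c - ρ) (c + ρ) else Icc (-R) R with hbox
  have hsub : {a : Fin k → ℝ | (∀ i, |a i| ≤ R) ∧ |c - ∑ i, a i * z i| ≤ ρ} ⊆
      (Matrix.toLin' M) ⁻¹' box := by
    rintro a ⟨ha, hc⟩
    rw [mem_preimage, hbox, mem_univ_pi]
    intro i
    rw [Matrix.toLin'_apply]
    by_cases hi : i = i₀
    · rw [if_pos hi, hi, Matrix.mulVec, hM, Matrix.updateRow_self]
      have e1 : z ⬝ᵥ a = ∑ i, a i * z i := by
        simp [dotProduct, mul_comm]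
      rw [e1]
      rw [abs_le] at hc
      constructor <;> linarith [hc.1, hc.2]
    · rw [if_neg hi, Matrix.mulVec, hM, Matrix.updateRow_ne hi]
      have e1 : (1 : Matrix (Fin k) (Fin k) ℝ) i ⬝ᵥ a = a i := by
        have := congrFun (Matrix.one_mulVec a) i
        exact this
      rw [e1]
      exact abs_le.1 (ha i)
  refine (measure_mono hsub).trans ?_
  rw [Measure.addHaar_preimage_linearMap _ (by rw [hdet']; exact hz), hdet', hbox, volume_pi_pi,
    ← Finset.mul_prod_erase _ _ (Finset.mem_univ i₀), if_pos rfl, Real.volume_Icc]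
  have h1 : ∏ i ∈ Finset.univ.erase i₀, volume (if i = i₀ then Icc (c - ρ) (c + ρ) else Icc (-R) R) =
      ENNReal.ofReal (2 * R) ^ (k - 1) := by
    rw [Finset.prod_congr rfl (g := fun _ => ENNReal.ofReal (2 * R))]
    · rw [Finset.prod_const, Finset.card_erase_of_mem (Finset.mem_univ i₀), Finset.card_univ,
        Fintype.card_fin]
    · intro i hi
      rw [if_neg (Finset.ne_of_mem_erase hi), Real.volume_Icc]
      congr 1
      ring
  rw [h1, ← ENNReal.ofReal_pow (by positivity), ← ENNReal.ofReal_mul (by linarith),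
    ← ENNReal.ofReal_mul (abs_nonneg _)]
  apply ENNReal.ofReal_le_ofReal
  rw [abs_inv]
  apply le_of_eq
  field_simp
  ring

/-- trivial bound -/
lemma volume_row' {R : ℝ} (hR : 0 < R) (S : Set (Fin k → ℝ)) (hS : ∀ a ∈ S, ∀ i, |a i| ≤ R) :
    volume S ≤ ENNReal.ofReal ((2 * R) ^ k) := by
  calc volume S ≤ volume (Set.pi univ fun _ : Fin k => Icc (-R) R) := by
        apply measure_mono
        intro a ha
        rw [mem_univ_pi]
        intro i
        exact abs_le.1 (hS a ha i)
    _ = _ := by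
        rw [volume_pi_pi]
        simp only [Real.volume_Icc]
        rw [Finset.prod_const, Finset.card_univ, Fintype.card_fin, ← ENNReal.ofReal_pow (by linarith)]
        congr 2
        ring

/-- transversality of the projections -/
lemma volume_transversal {R : ℝ} (hR : 0 < R) : ∃ D : ℝ, 0 < D ∧ ∀ (z : XX k m) (ρ : ℝ), 0 < ρ →
    z ≠ 0 → volume {A : MM k m | (∀ j i, |A j i| ≤ R) ∧ ∀ j, |prj A z j| ≤ ρ} ≤
      ENNReal.ofReal (D * ρ / ‖z‖) ^ m := by
  set κ : ℝ := 2 * (k * R + 1) with hκ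
  have hκ0 : 0 < κ := by positivity
  refine ⟨2 * κ * (2 * R) ^ (k - 1) + 2 * (2 * R) ^ k, by positivity, ?_⟩
  intro z ρ hρ hz
  have hzn : 0 < ‖z‖ := norm_pos_iff.2 hz
  set row : Fin m → Set (Fin k → ℝ) := fun j =>
    {a | (∀ i, |a i| ≤ R) ∧ |z.2 j - ∑ i, a i * z.1 i| ≤ ρ} with hrow
  have hset : {A : MM k m | (∀ j i, |A j i| ≤ R) ∧ ∀ j, |prj A z j| ≤ ρ} = Set.pi univ row := by
    ext A
    simp only [hrow, mem_univ_pi, mem_ofPred_eq, prj]
    constructor
    · rintro ⟨h1, h2⟩ j
      exact ⟨h1 j, h2 j⟩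
    · intro h
      exact ⟨fun j => (h j).1, fun j => (h j).2⟩
  rw [hset, volume_pi_pi]
  have hconst : ∀ (c : ℝ≥0∞), (∀ j, volume (row j) ≤ c) → ∏ j, volume (row j) ≤ c ^ m := by
    intro c hc
    calc ∏ j, volume (row j) ≤ ∏ _j : Fin m, c := Finset.prod_le_prod' fun j _ => hc j
      _ = c ^ m := by simp
  by_cases hbig : ‖z‖ ≤ κ * ‖z.1‖
  · -- the first component is large
    apply hconst
    intro j
    have hz1 : 0 < ‖z.1‖ := by
      by_contra hcon
      have : ‖z.1‖ = 0 := le_antisymm (not_lt.1 hcon) (norm_nonneg _)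
      rw [this, mul_zero] at hbig
      linarith
    have hk : Nonempty (Fin k) := by
      by_contra hcon
      rw [not_nonempty_iff] at hcon
      have : z.1 = 0 := Subsingleton.elim _ _
      rw [this, norm_zero] at hz1
      exact lt_irrefl _ hz1
    obtain ⟨i₀, hi₀⟩ := exists_norm_eq z.1
    have hne : z.1 i₀ ≠ 0 := by
      intro h
      rw [h, abs_zero] at hi₀
      linarith
    refine (volume_row hρ.le hR z.1 (z.2 j) i₀ hne).trans ?_
    apply ENNReal.ofReal_le_ofReal
    rw [← hi₀]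
    have h1 : 2 * ρ / ‖z.1‖ ≤ 2 * ρ * κ / ‖z‖ := by
      rw [div_le_div_iff₀ hz1 hzn]
      nlinarith
    calc 2 * ρ / ‖z.1‖ * (2 * R) ^ (k - 1) ≤ 2 * ρ * κ / ‖z‖ * (2 * R) ^ (k - 1) := by gcongr
      _ = (2 * κ * (2 * R) ^ (k - 1)) * ρ / ‖z‖ := by ring
      _ ≤ _ := by
        gcongr
        have : 0 ≤ 2 * (2 * R) ^ k := by positivity
        linarith
  · push Not at hbig
    have hz2 : ‖z‖ = ‖z.2‖ := by
      have h1 : ‖z.1‖ < ‖z‖ := by
        have : ‖z.1‖ ≤ κ * ‖z.1‖ := by
          have hκ1 : 1 ≤ κ := by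
            rw [hκ]
            have : 0 ≤ k * R := by positivity
            linarith
          nlinarith [norm_nonneg z.1]
        linarith
      rw [Prod.norm_def] at h1 ⊢
      rcases max_choice ‖z.1‖ ‖z.2‖ with h | h
      · rw [h] at h1
        exact absurd h1 (lt_irrefl _)
      · exact h
    by_cases hρz : ‖z‖ / 2 ≤ ρ
    · apply hconst
      intro j
      refine (volume_row' hR (row j) (fun a ha => ha.1)).trans ?_
      apply ENNReal.ofReal_le_ofReal
      rw [le_div_iff₀ hzn]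
      have h1 : 0 ≤ 2 * κ * (2 * R) ^ (k - 1) * ρ := by positivity
      have h2 : 0 ≤ (2 * R) ^ k := by positivity
      nlinarith
    · push Not at hρz
      -- one row is empty
      have hm : Nonempty (Fin m) := by
        by_contra hcon
        rw [not_nonempty_iff] at hcon
        have : z.2 = 0 := Subsingleton.elim _ _
        rw [this, norm_zero] at hz2
        linarith
      obtain ⟨j₀, hj₀⟩ := exists_norm_eq z.2
      have hempty : row j₀ = ∅ := by
        rw [eq_empty_iff_forall_notMem]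
        rintro a ⟨ha1, ha2⟩
        have h1 : |∑ i, a i * z.1 i| ≤ k * R * ‖z.1‖ := by
          calc |∑ i, a i * z.1 i| ≤ ∑ i, |a i * z.1 i| := Finset.abs_sum_le_sum_abs _ _
            _ ≤ ∑ _i : Fin k, R * ‖z.1‖ := by
                apply Finset.sum_le_sum
                intro i _
                rw [abs_mul]
                exact mul_le_mul (ha1 i) (norm_le_pi_norm z.1 i) (abs_nonneg _) hR.le
            _ = k * R * ‖z.1‖ := by simp; ring
        have h2 : |z.2 j₀| ≤ |z.2 j₀ - ∑ i, a i * z.1 i| + |∑ i, a i * z.1 i| := by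
          have := abs_add_le (z.2 j₀ - ∑ i, a i * z.1 i) (∑ i, a i * z.1 i)
          rwa [sub_add_cancel] at this
        have h3 : (k : ℝ) * R * ‖z.1‖ ≤ ‖z‖ / 2 := by
          rw [hκ] at hbig
          nlinarith [norm_nonneg z.1]
        rw [← hj₀, ← hz2] at h2
        linarith
      rw [Finset.prod_eq_zero (Finset.mem_univ j₀) (by rw [hempty]; simp)]
      exact zero_le

/-- pigeonhole: many pairs have close images -/
lemma pigeonhole {X : Type*} [MeasurableSpace X] (μ : Measure X) [IsFiniteMeasure μ]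
    {S : Set X} (hS : MeasurableSet S) (p : X → Fin m → ℝ) (hp : Measurable p) {R' ρ : ℝ}
    (hR : 0 < R') (hρ : 0 < ρ) (hρ1 : ρ ≤ 1) (hb : ∀ x ∈ S, ∀ j, |p x j| ≤ R') :
    μ S ^ 2 ≤ ENNReal.ofReal ((2 * R' + 1) / ρ) ^ m *
      (μ.prod μ) {xy | xy.1 ∈ S ∧ xy.2 ∈ S ∧ ∀ j, |p xy.1 j - p xy.2 j| ≤ ρ} := by
  set N : ℕ := ⌊2 * R' / ρ⌋₊ + 1 with hN
  -- index of the cell
  set ι : X → Fin m → ℕ := fun x j => ⌊(p x j + R') / ρ⌋₊ with hι
  have hιm : Measurable ι := by
    apply measurable_pi_lambda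
    intro j
    exact Nat.measurable_floor.comp ((((measurable_pi_apply j).comp hp).add_const R').div_const ρ)
  have hιN : ∀ x ∈ S, ∀ j, ι x j < N := by
    intro x hx j
    simp only [hι, hN]
    have h1 := abs_le.1 (hb x hx j)
    have h2 : (p x j + R') / ρ ≤ 2 * R' / ρ := by
      apply div_le_div_of_nonneg_right _ hρ.le
      linarith [h1.2]
    exact Nat.lt_succ_of_le (Nat.floor_le_floor h2)
  set P : (Fin m → Fin N) → Set X := fun a => S ∩ ι ⁻¹' {fun j => (a j : ℕ)} with hP
  have hPm : ∀ a, MeasurableSet (P a) := fun a => hS.inter (hιm (measurableSet_singleton _))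
  have hPS : S ⊆ ⋃ a, P a := by
    intro x hx
    refine mem_iUnion.2 ⟨fun j => ⟨ι x j, hιN x hx j⟩, hx, ?_⟩
    simp
  have hdisj : Pairwise (Function.onFun Disjoint P) := by
    intro a b hab
    rw [Function.onFun, Set.disjoint_left]
    rintro x ⟨_, hx1⟩ ⟨_, hx2⟩
    apply hab
    simp only [mem_preimage, mem_singleton_iff] at hx1 hx2
    funext j
    apply Fin.ext
    rw [hx1] at hx2
    exact congrFun hx2 j
  have hsub : (⋃ a, P a ×ˢ P a) ⊆
      {xy | xy.1 ∈ S ∧ xy.2 ∈ S ∧ ∀ j, |p xy.1 j - p xy.2 j| ≤ ρ} := by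
    rintro ⟨x, y⟩ hxy
    obtain ⟨a, ⟨hx, hxa⟩, ⟨hy, hya⟩⟩ := mem_iUnion.1 hxy
    refine ⟨hx, hy, fun j => ?_⟩
    simp only [mem_preimage, mem_singleton_iff] at hxa hya
    have h1 : ⌊(p x j + R') / ρ⌋₊ = ⌊(p y j + R') / ρ⌋₊ := by
      have h2 := congrFun hxa j
      have h3 := congrFun hya j
      exact h2.trans h3.symm
    have hx0 : 0 ≤ (p x j + R') / ρ := by
      apply div_nonneg _ hρ.le
      linarith [(abs_le.1 (hb x hx j)).1]
    have hy0 : 0 ≤ (p y j + R') / ρ := by
      apply div_nonneg _ hρ.le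
      linarith [(abs_le.1 (hb y hy j)).1]
    have f1 := Nat.floor_le hx0
    have f2 := Nat.lt_floor_add_one ((p x j + R') / ρ)
    have f3 := Nat.floor_le hy0
    have f4 := Nat.lt_floor_add_one ((p y j + R') / ρ)
    rw [h1] at f1 f2
    have h4 : |(p x j + R') / ρ - (p y j + R') / ρ| ≤ 1 := by
      rw [abs_le]
      constructor <;> linarith
    rw [← sub_div, abs_div, abs_of_pos hρ, div_le_one hρ] at h4
    simpa using h4
  -- Cauchy-Schwarz
  have hCS : μ S ^ 2 ≤ (N ^ m : ℕ) * ∑ a, μ (P a) ^ 2 := by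
    have h1 : μ S ≤ ∑ a, μ (P a) := (measure_mono hPS).trans (measure_iUnion_fintype_le _ _)
    have hfin : ∀ a, μ (P a) ≠ ∞ := fun a => measure_ne_top _ _
    have h2 : (∑ a, μ (P a)) = ENNReal.ofReal (∑ a, (μ (P a)).toReal) := by
      rw [ENNReal.ofReal_sum_of_nonneg fun a _ => ENNReal.toReal_nonneg]
      exact Finset.sum_congr rfl fun a _ => (ENNReal.ofReal_toReal (hfin a)).symm
    have h3 : (∑ a, (μ (P a)).toReal) ^ 2 ≤ (N ^ m : ℕ) * ∑ a, (μ (P a)).toReal ^ 2 := by
      have := sq_sum_le_card_mul_sum_sq (s := (Finset.univ : Finset (Fin m → Fin N)))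
        (f := fun a => (μ (P a)).toReal)
      rw [Finset.card_univ, Fintype.card_fun, Fintype.card_fin, Fintype.card_fin] at this
      exact_mod_cast this
    calc μ S ^ 2 ≤ (∑ a, μ (P a)) ^ 2 := by gcongr
      _ = ENNReal.ofReal ((∑ a, (μ (P a)).toReal) ^ 2) := by
          rw [h2, ENNReal.ofReal_pow (Finset.sum_nonneg fun a _ => ENNReal.toReal_nonneg)]
      _ ≤ ENNReal.ofReal ((N ^ m : ℕ) * ∑ a, (μ (P a)).toReal ^ 2) := ENNReal.ofReal_le_ofReal h3
      _ = (N ^ m : ℕ) * ∑ a, μ (P a) ^ 2 := by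
          rw [ENNReal.ofReal_mul (by positivity), ENNReal.ofReal_natCast,
            ENNReal.ofReal_sum_of_nonneg fun a _ => by positivity]
          congr 1
          refine Finset.sum_congr rfl fun a _ => ?_
          rw [ENNReal.ofReal_pow ENNReal.toReal_nonneg, ENNReal.ofReal_toReal (hfin a)]
  have hNle : ((N ^ m : ℕ) : ℝ≥0∞) ≤ ENNReal.ofReal ((2 * R' + 1) / ρ) ^ m := by
    push_cast
    gcongr
    rw [← ENNReal.ofReal_natCast]
    apply ENNReal.ofReal_le_ofReal
    rw [hN]
    push_cast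
    have h1 := Nat.floor_le (show 0 ≤ 2 * R' / ρ by positivity)
    have h2 : 1 ≤ 1 / ρ := by
      rw [le_div_iff₀ hρ]
      linarith
    rw [add_div]
    linarith
  calc μ S ^ 2 ≤ (N ^ m : ℕ) * ∑ a, μ (P a) ^ 2 := hCS
    _ ≤ ENNReal.ofReal ((2 * R' + 1) / ρ) ^ m * ∑ a, μ (P a) ^ 2 := by gcongr
    _ = ENNReal.ofReal ((2 * R' + 1) / ρ) ^ m * (μ.prod μ) (⋃ a, P a ×ˢ P a) := by
        congr 1
        rw [measure_iUnion _ fun a => (hPm a).prod (hPm a), tsum_fintype]
        · refine Finset.sum_congr rfl fun a _ => ?_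
          rw [Measure.prod_prod, sq]
        · intro a b hab
          exact Set.Disjoint.set_prod_left (hdisj hab) _ _
    _ ≤ _ := by gcongr

/-- finiteness of energies, potential form -/
lemma potential_le {X : Type*} [MetricSpace X] [MeasurableSpace X] [BorelSpace X]
    (μ : Measure X) [IsProbabilityMeasure μ] {C s : ℝ} (hs : (m : ℝ) < s) (hC : 0 < C)
    (hμ : ∀ x r, 0 < r → μ (Metric.closedBall x r) ≤ ENNReal.ofReal (C * r ^ s)) :
    ∃ B : ℝ≥0∞, B ≠ ∞ ∧ ∀ x, ∫⁻ y, (ENNReal.ofReal (dist x y)⁻¹) ^ m ∂μ ≤ B := by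
  have hr0 : (0 : ℝ) ≤ (1 / 2) ^ (s - m) := by positivity
  have hr1 : ((1 : ℝ) / 2) ^ (s - m) < 1 := Real.rpow_lt_one (by norm_num) (by norm_num) (by linarith)
  have hsum : Summable fun i : ℕ => 2 ^ m * C * (((1 : ℝ) / 2) ^ (s - m)) ^ i :=
    (summable_geometric_of_lt_one hr0 hr1).mul_left _
  refine ⟨1 + ∑' i : ℕ, ENNReal.ofReal (2 ^ m * C * (((1 : ℝ) / 2) ^ (s - m)) ^ i),
    ENNReal.add_ne_top.2 ⟨ENNReal.one_ne_top, hsum.tsum_ofReal_ne_top⟩, fun x => ?_⟩
  have hx0 : μ {x} = 0 := by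
    have h1 : Tendsto (fun i : ℕ => ENNReal.ofReal (C * ((1 / 2 : ℝ) ^ i) ^ s)) atTop (𝓝 0) := by
      have h2 : Tendsto (fun i : ℕ => ((1 / 2 : ℝ)) ^ i) atTop (𝓝 0) :=
        tendsto_pow_atTop_nhds_zero_of_lt_one (by norm_num) (by norm_num)
      have hs0 : 0 < s := lt_of_le_of_lt (Nat.cast_nonneg m) hs
      have h3 := ((Real.continuousAt_rpow_const 0 s (Or.inr hs0.le)).tendsto.comp h2).const_mul C
      rw [Real.zero_rpow hs0.ne', mul_zero] at h3
      have h4 := ENNReal.tendsto_ofReal h3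
      simpa using h4
    refine le_antisymm (ge_of_tendsto' h1 fun i => ?_) zero_le
    refine (measure_mono ?_).trans (hμ x ((1 / 2) ^ i) (by positivity))
    intro y hy
    rw [mem_singleton_iff.1 hy]
    exact Metric.mem_closedBall_self (by positivity)
  have hpt : ∀ᵐ y ∂μ, (ENNReal.ofReal (dist x y)⁻¹) ^ m ≤
      1 + ∑' i : ℕ, (Metric.closedBall x ((1 / 2 : ℝ) ^ i)).indicator
        (fun _ => (2 : ℝ≥0∞) ^ ((i + 1) * m)) y := by
    have hne : ∀ᵐ y ∂μ, y ≠ x := by
      rw [ae_iff]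
      simpa using hx0
    filter_upwards [hne] with y hy
    have hd : 0 < dist x y := dist_pos.2 (Ne.symm hy)
    rcases lt_or_ge 1 (dist x y) with h1 | h1
    · refine le_trans ?_ le_self_add
      apply pow_le_one₀ (by positivity)
      rw [ENNReal.ofReal_le_one]
      exact inv_le_one_of_one_le₀ h1.le
    · obtain ⟨i, h2, h3⟩ := exists_nat_pow_near_of_lt_one (x := dist x y) (y := (1 / 2 : ℝ))
        hd h1 (by norm_num) (by norm_num)
      refine le_trans ?_ le_add_self
      refine le_trans ?_ (ENNReal.le_tsum i)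
      rw [indicator_of_mem (by rw [Metric.mem_closedBall, dist_comm]; exact h3), pow_mul]
      gcongr
      calc ENNReal.ofReal (dist x y)⁻¹ ≤ ENNReal.ofReal ((2 : ℝ) ^ (i + 1)) := by
            apply ENNReal.ofReal_le_ofReal
            rw [inv_le_comm₀ hd (by positivity)]
            have : ((2 : ℝ) ^ (i + 1))⁻¹ = (1 / 2) ^ (i + 1) := by
              rw [one_div, inv_pow]
            rw [this]
            exact h2.le
        _ = 2 ^ (i + 1) := by
            rw [ENNReal.ofReal_pow (by norm_num)]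
            norm_num
  refine (lintegral_mono_ae hpt).trans ?_
  rw [lintegral_add_left measurable_const, lintegral_const, measure_univ, mul_one, lintegral_tsum]
  · gcongr with i
    rw [lintegral_indicator_const Metric.isClosed_closedBall.measurableSet]
    calc (2 : ℝ≥0∞) ^ ((i + 1) * m) * μ (Metric.closedBall x ((1 / 2) ^ i))
        ≤ (2 : ℝ≥0∞) ^ ((i + 1) * m) * ENNReal.ofReal (C * ((1 / 2) ^ i) ^ s) := by
          gcongr
          exact hμ x _ (by positivity)
      _ = ENNReal.ofReal (2 ^ ((i + 1) * m) * (C * ((1 / 2) ^ i) ^ s)) := by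
          rw [ENNReal.ofReal_mul (p := 2 ^ ((i + 1) * m)) (by positivity),
            ENNReal.ofReal_pow (by norm_num)]
          norm_num
      _ ≤ _ := by
          apply ENNReal.ofReal_le_ofReal
          apply le_of_eq
          have e1 : (((1 : ℝ) / 2) ^ (s - m)) ^ i = ((1 / 2 : ℝ) ^ i) ^ s * 2 ^ (i * m) := by
            rw [← Real.rpow_natCast, ← Real.rpow_mul (by norm_num), ← Real.rpow_natCast (1 / 2) i,
              ← Real.rpow_mul (by norm_num), ← Real.rpow_natCast 2 (i * m)]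
            have e2 : (2 : ℝ) ^ (((i * m : ℕ) : ℝ)) = (1 / 2 : ℝ) ^ (-((i * m : ℕ) : ℝ)) := by
              rw [Real.rpow_neg (by norm_num), one_div, Real.inv_rpow (by norm_num), inv_inv]
            rw [e2, ← Real.rpow_add (by norm_num)]
            congr 1
            push_cast
            ring
          rw [e1]
          ring
  · intro i
    exact (measurable_const.indicator Metric.isClosed_closedBall.measurableSet).aemeasurable

lemma measure_singleton_eq_zero {X : Type*} [MetricSpace X] [MeasurableSpace X] [BorelSpace X]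
    (μ : Measure X) {C s : ℝ} (hs : 0 < s) (hC : 0 < C)
    (hμ : ∀ x r, 0 < r → μ (Metric.closedBall x r) ≤ ENNReal.ofReal (C * r ^ s)) (x : X) :
    μ {x} = 0 := by
  have h1 : Tendsto (fun i : ℕ => ENNReal.ofReal (C * ((1 / 2 : ℝ) ^ i) ^ s)) atTop (𝓝 0) := by
    have h2 : Tendsto (fun i : ℕ => ((1 / 2 : ℝ)) ^ i) atTop (𝓝 0) :=
      tendsto_pow_atTop_nhds_zero_of_lt_one (by norm_num) (by norm_num)
    have h3 := ((Real.continuousAt_rpow_const 0 s (Or.inr hs.le)).tendsto.comp h2).const_mul C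
    rw [Real.zero_rpow hs.ne', mul_zero] at h3
    have h4 := ENNReal.tendsto_ofReal h3
    simpa using h4
  refine le_antisymm (ge_of_tendsto' h1 fun i => ?_) zero_le
  refine (measure_mono ?_).trans (hμ x ((1 / 2) ^ i) (by positivity))
  intro y hy
  rw [mem_singleton_iff.1 hy]
  exact Metric.mem_closedBall_self (by positivity)

/-- **Slicing lemma.**  If `μ` has more than `m` dimensions then a set whose slices are mapped
injectively by the projections `x.2 - A x.1` is null. -/
theorem slicing (μ : Measure (XX k m)) [IsProbabilityMeasure μ] {C s : ℝ} (hs : (m : ℝ) < s)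
    (hC : 0 < C)
    (hμ : ∀ x r, 0 < r → μ (Metric.closedBall x r) ≤ ENNReal.ofReal (C * r ^ s))
    {G : Set (XX k m × MM k m)} (hG : MeasurableSet G)
    (hinj : ∀ A x y, (x, A) ∈ G → (y, A) ∈ G → prj A x = prj A y → x = y) :
    (μ.prod volume) G = 0 := by
  by_contra hpos
  have hs0 : 0 < s := lt_of_le_of_lt (Nat.cast_nonneg m) hs
  -- restrict to a bounded set of matrices
  set box : ℕ → Set (MM k m) := fun N => {A | ∀ j i, |A j i| ≤ N} with hbox
  have hboxc : ∀ N, IsClosed (box N) := by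
    intro N
    simp only [hbox, ofPred_forall]
    refine isClosed_iInter fun j => isClosed_iInter fun i => ?_
    exact isClosed_le (by fun_prop) continuous_const
  obtain ⟨N₀, hN₀⟩ : ∃ N : ℕ, (μ.prod volume) (G ∩ (univ ×ˢ box N)) ≠ 0 := by
    by_contra hcon
    push Not at hcon
    apply hpos
    refine measure_mono_null ?_ (measure_iUnion_null hcon)
    rintro ⟨x, A⟩ hxA
    obtain ⟨N, hN⟩ := exists_nat_ge (∑ j, ∑ i, |A j i|)
    refine mem_iUnion.2 ⟨N, hxA, mem_univ _, fun j i => ?_⟩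
    refine le_trans ?_ hN
    calc |A j i| ≤ ∑ i, |A j i| :=
          Finset.single_le_sum (f := fun i => |A j i|) (fun i _ => abs_nonneg _) (Finset.mem_univ i)
      _ ≤ ∑ j, ∑ i, |A j i| := Finset.single_le_sum (f := fun j => ∑ i, |A j i|)
          (fun j _ => Finset.sum_nonneg fun i _ => abs_nonneg _) (Finset.mem_univ j)
  set R : ℝ := (N₀ : ℝ) + 1 with hR
  have hR0 : 0 < R := by positivity
  have hfin : (μ.prod volume) (G ∩ (univ ×ˢ box N₀)) ≠ ∞ := by
    have h1 : (μ.prod volume) (univ ×ˢ box N₀) < ∞ := by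
      rw [Measure.prod_prod, measure_univ, one_mul]
      have h2 : box N₀ ⊆ Metric.closedBall (0 : MM k m) N₀ := by
        intro A hA
        rw [mem_closedBall_zero_iff, pi_norm_le_iff_of_nonneg (Nat.cast_nonneg _)]
        intro j
        rw [pi_norm_le_iff_of_nonneg (Nat.cast_nonneg _)]
        intro i
        rw [Real.norm_eq_abs]
        exact hA j i
      exact lt_of_le_of_lt (measure_mono h2) measure_closedBall_lt_top
    exact (lt_of_le_of_lt (measure_mono inter_subset_right) h1).ne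
  obtain ⟨𝒞, h𝒞sub, h𝒞c, h𝒞pos⟩ := (hG.inter (MeasurableSet.univ.prod
    (hboxc N₀).measurableSet)).exists_lt_isCompact_of_ne_top hfin (pos_iff_ne_zero.2 hN₀)
  have h𝒞cl : IsClosed 𝒞 := h𝒞c.isClosed
  have h𝒞G : 𝒞 ⊆ G := fun p hp => (h𝒞sub hp).1
  have h𝒞box : ∀ x A, (x, A) ∈ 𝒞 → ∀ j i, |A j i| ≤ R := by
    intro x A h j i
    have h1 := (h𝒞sub h).2.2 j i
    rw [hR]
    linarith
  -- slices
  set S : MM k m → Set (XX k m) := fun A => {x | (x, A) ∈ 𝒞} with hS
  have hScl : ∀ A, IsClosed (S A) := fun A => h𝒞cl.preimage (by fun_prop)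
  have hSc : ∀ A, IsCompact (S A) := by
    intro A
    have h1 : S A ⊆ Prod.fst '' 𝒞 := fun x hx => ⟨(x, A), hx, rfl⟩
    exact (h𝒞c.image continuous_fst).of_isClosed_subset (hScl A) h1
  have hgm : Measurable fun A => μ (S A) := measurable_measure_prodMk_right h𝒞cl.measurableSet
  have hint : ∫⁻ A, μ (S A) = (μ.prod volume) 𝒞 := by
    rw [Measure.prod_apply_symm h𝒞cl.measurableSet]
    rfl
  have hint2 : ∫⁻ A, μ (S A) ^ 2 ≠ 0 := by
    intro h0
    rw [lintegral_eq_zero_iff (hgm.pow_const 2)] at h0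
    have h1 : ∫⁻ A, μ (S A) = 0 := by
      rw [lintegral_eq_zero_iff hgm]
      filter_upwards [h0] with A hA
      simpa using hA
    rw [hint] at h1
    exact h𝒞pos.ne' h1
  -- bound on the projections
  obtain ⟨R', hR'0, hR'⟩ : ∃ R' : ℝ, 0 < R' ∧ ∀ x A, (x, A) ∈ 𝒞 → ∀ j, |prj A x j| ≤ R' := by
    have hcont : Continuous fun p : XX k m × MM k m => prj p.2 p.1 := by
      unfold prj
      fun_prop
    obtain ⟨B, hB⟩ := (h𝒞c.image hcont).isBounded.exists_norm_le
    refine ⟨|B| + 1, by positivity, fun x A h j => ?_⟩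
    have h1 := hB _ (mem_image_of_mem _ h)
    have h2 := norm_le_pi_norm (prj A x) j
    rw [Real.norm_eq_abs] at h2
    linarith [le_abs_self B]
  -- close pairs
  set W : ℝ → ℝ → Set (MM k m × (XX k m × XX k m)) := fun ρ δ =>
    {p | (p.2.1, p.1) ∈ 𝒞 ∧ (p.2.2, p.1) ∈ 𝒞 ∧ (∀ j, |prj p.1 p.2.1 j - prj p.1 p.2.2 j| ≤ ρ) ∧
      dist p.2.1 p.2.2 ≤ δ} with hW
  have hWcl : ∀ ρ δ, IsClosed (W ρ δ) := by
    intro ρ δ
    have h1 : IsClosed {p : MM k m × (XX k m × XX k m) | (p.2.1, p.1) ∈ 𝒞} :=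
      h𝒞cl.preimage (by fun_prop)
    have h2 : IsClosed {p : MM k m × (XX k m × XX k m) | (p.2.2, p.1) ∈ 𝒞} :=
      h𝒞cl.preimage (by fun_prop)
    have h3 : IsClosed {p : MM k m × (XX k m × XX k m) |
        ∀ j, |prj p.1 p.2.1 j - prj p.1 p.2.2 j| ≤ ρ} := by
      simp only [ofPred_forall]
      refine isClosed_iInter fun j => isClosed_le ?_ continuous_const
      unfold prj
      fun_prop
    have h4 : IsClosed {p : MM k m × (XX k m × XX k m) | dist p.2.1 p.2.2 ≤ δ} :=
      isClosed_le (by fun_prop) continuous_const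
    exact h1.inter (h2.inter (h3.inter h4))
  set ρs : ℕ → ℝ := fun i => 1 / ((i : ℝ) + 1) with hρs
  have hρ0 : ∀ i, 0 < ρs i := fun i => by positivity
  have hρ1 : ∀ i, ρs i ≤ 1 := by
    intro i
    rw [hρs]
    simp only
    rw [div_le_one (by positivity)]
    linarith [show (0 : ℝ) ≤ i from Nat.cast_nonneg i]
  have hρlim : Tendsto ρs atTop (𝓝 0) := tendsto_one_div_add_atTop_nhds_zero_nat
  obtain ⟨D, hD0, hD⟩ := volume_transversal (k := k) (m := m) hR0
  set f : XX k m × XX k m → ℝ≥0∞ := fun xy => (ENNReal.ofReal (dist xy.1 xy.2)⁻¹) ^ m with hf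
  have hfm : Measurable f := by
    have h1 : Measurable fun xy : XX k m × XX k m => dist xy.1 xy.2 := measurable_dist
    exact h1.inv.ennreal_ofReal.pow_const m
  have hdiag : ∀ᵐ xy ∂(μ.prod μ), xy.1 ≠ xy.2 := by
    rw [ae_iff]
    have h1 : MeasurableSet {xy : XX k m × XX k m | ¬ xy.1 ≠ xy.2} := by
      simp only [ne_eq, not_not]
      exact (isClosed_eq continuous_fst continuous_snd).measurableSet
    rw [Measure.measure_prod_null h1]
    refine Eventually.of_forall fun x => ?_
    have h2 : Prod.mk x ⁻¹' {xy : XX k m × XX k m | ¬ xy.1 ≠ xy.2} = {x} := by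
      ext y
      simp [eq_comm]
    show μ (Prod.mk x ⁻¹' {xy : XX k m × XX k m | ¬ xy.1 ≠ xy.2}) = 0
    rw [h2]
    exact measure_singleton_eq_zero μ hs0 hC hμ x
  -- the key estimate
  have hkey : ∀ δ : ℝ, 0 < δ → ∫⁻ A, μ (S A) ^ 2 ≤
      (ENNReal.ofReal ((2 * R' + 1) * D)) ^ m * ∫⁻ xy in {xy | dist xy.1 xy.2 ≤ δ}, f xy ∂(μ.prod μ) := by
    intro δ hδ
    set c : ℕ → ℝ≥0∞ := fun i => ENNReal.ofReal ((2 * R' + 1) / ρs i) ^ m with hc
    have h1 : ∀ A, μ (S A) ^ 2 ≤
        liminf (fun i => c i * (μ.prod μ) (Prod.mk A ⁻¹' W (ρs i) δ)) atTop := by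
      intro A
      refine le_liminf_of_le (by isBoundedDefault) ?_
      -- separation of far away points
      obtain ⟨ρ₁, hρ₁, hsep⟩ : ∃ ρ₁ : ℝ, 0 < ρ₁ ∧ ∀ x ∈ S A, ∀ y ∈ S A, δ ≤ dist x y →
          ρ₁ ≤ ‖prj A x - prj A y‖ := by
        set F : Set (XX k m × XX k m) := (S A ×ˢ S A) ∩ {xy | δ ≤ dist xy.1 xy.2} with hF
        have hFc : IsCompact F := ((hSc A).prod (hSc A)).inter_right
          (isClosed_le continuous_const (by fun_prop))
        rcases F.eq_empty_or_nonempty with he | hne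
        · refine ⟨1, one_pos, fun x hx y hy hxy => ?_⟩
          have : (x, y) ∈ F := ⟨⟨hx, hy⟩, hxy⟩
          rw [he] at this
          exact this.elim
        · have hcont : Continuous fun xy : XX k m × XX k m => ‖prj A xy.1 - prj A xy.2‖ := by
            unfold prj
            fun_prop
          obtain ⟨⟨x₀, y₀⟩, hF0, hmin⟩ := hFc.exists_isMinOn hne hcont.continuousOn
          refine ⟨‖prj A x₀ - prj A y₀‖, ?_, fun x hx y hy hxy => hmin (⟨⟨hx, hy⟩, hxy⟩ : (x, y) ∈ F)⟩
          rw [norm_pos_iff, sub_ne_zero]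
          intro he
          have := hinj A x₀ y₀ (h𝒞G hF0.1.1) (h𝒞G hF0.1.2) he
          have h2 := hF0.2
          simp only [mem_ofPred_eq] at h2
          rw [this, dist_self] at h2
          linarith
      filter_upwards [hρlim.eventually_lt_const hρ₁] with i hi
      refine (pigeonhole μ (hScl A).measurableSet (prj A) ?_ hR'0 (hρ0 i) (hρ1 i)
        (fun x hx j => hR' x A hx j)).trans ?_
      · have : Continuous (prj A) := by
          unfold prj
          fun_prop
        exact this.measurable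
      · gcongr
        rintro ⟨x, y⟩ ⟨hx, hy, hxy⟩
        refine ⟨hx, hy, hxy, ?_⟩
        by_contra hcon
        push Not at hcon
        have h2 := hsep x hx y hy hcon.le
        have h3 : ‖prj A x - prj A y‖ ≤ ρs i :=
          (pi_norm_le_iff_of_nonneg (hρ0 i).le).2 fun j => by simpa using hxy j
        linarith
    have hmeas : ∀ i, Measurable fun A => c i * (μ.prod μ) (Prod.mk A ⁻¹' W (ρs i) δ) := fun i =>
      (measurable_measure_prodMk_left (hWcl _ _).measurableSet).const_mul _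
    calc ∫⁻ A, μ (S A) ^ 2
        ≤ ∫⁻ A, liminf (fun i => c i * (μ.prod μ) (Prod.mk A ⁻¹' W (ρs i) δ)) atTop :=
          lintegral_mono h1
      _ ≤ liminf (fun i => ∫⁻ A, c i * (μ.prod μ) (Prod.mk A ⁻¹' W (ρs i) δ)) atTop :=
          lintegral_liminf_le hmeas
      _ ≤ _ := by
          refine liminf_le_of_le (by isBoundedDefault) ?_
          intro b hb
          obtain ⟨i, hi⟩ := hb.exists
          refine hi.trans ?_
          rw [lintegral_const_mul _ (measurable_measure_prodMk_left (hWcl _ _).measurableSet),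
            ← Measure.prod_apply (hWcl _ _).measurableSet,
            Measure.prod_apply_symm (hWcl _ _).measurableSet]
          have h2 : ∀ᵐ xy ∂(μ.prod μ), volume ((fun A => (A, xy)) ⁻¹' W (ρs i) δ) ≤
              ({xy : XX k m × XX k m | dist xy.1 xy.2 ≤ δ}).indicator
                (fun xy => ENNReal.ofReal (D * ρs i) ^ m * f xy) xy := by
            filter_upwards [hdiag] with xy hxy
            by_cases hd : dist xy.1 xy.2 ≤ δ
            · rw [indicator_of_mem (by exact hd)]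
              have hne : xy.1 - xy.2 ≠ 0 := sub_ne_zero.2 hxy
              refine (measure_mono ?_).trans ((hD (xy.1 - xy.2) (ρs i) (hρ0 i) hne).trans ?_)
              · rintro A ⟨hA1, hA2, hA3, _⟩
                refine ⟨h𝒞box _ _ hA1, fun j => ?_⟩
                rw [← prj_sub]
                exact hA3 j
              · simp only [hf]
                rw [← mul_pow, ← ENNReal.ofReal_mul (by positivity), dist_eq_norm, div_eq_mul_inv]
            · rw [indicator_of_notMem (by exact hd)]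
              have : (fun A => (A, xy)) ⁻¹' W (ρs i) δ = ∅ := by
                rw [eq_empty_iff_forall_notMem]
                rintro A ⟨_, _, _, hA⟩
                exact hd hA
              rw [this]
              simp
          calc c i * ∫⁻ xy, volume ((fun A => (A, xy)) ⁻¹' W (ρs i) δ) ∂(μ.prod μ)
              ≤ c i * ∫⁻ xy, ({xy : XX k m × XX k m | dist xy.1 xy.2 ≤ δ}).indicator
                (fun xy => ENNReal.ofReal (D * ρs i) ^ m * f xy) xy ∂(μ.prod μ) := by
                gcongr 1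
                exact lintegral_mono_ae h2
            _ = c i * (ENNReal.ofReal (D * ρs i) ^ m *
                  ∫⁻ xy in {xy | dist xy.1 xy.2 ≤ δ}, f xy ∂(μ.prod μ)) := by
                rw [lintegral_indicator, lintegral_const_mul _ hfm]
                exact (isClosed_le (by fun_prop) continuous_const).measurableSet
            _ = _ := by
                rw [← mul_assoc]
                congr 1
                simp only [hc]
                rw [← mul_pow, ← ENNReal.ofReal_mul (by have := hρ0 i; positivity)]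
                congr 2
                have := (hρ0 i).ne'
                field_simp
  -- let `δ → 0`
  obtain ⟨B, hB, hBx⟩ := potential_le (m := m) μ hs hC hμ
  have hftot : ∫⁻ xy, f xy ∂(μ.prod μ) ≠ ∞ := by
    rw [lintegral_prod _ hfm.aemeasurable]
    refine ne_top_of_le_ne_top hB ?_
    calc ∫⁻ x, ∫⁻ y, f (x, y) ∂μ ∂μ ≤ ∫⁻ _x, B ∂μ := lintegral_mono fun x => hBx x
      _ = B := by simp
  have hlim : Tendsto (fun l : ℕ => (ENNReal.ofReal ((2 * R' + 1) * D)) ^ m *
      ∫⁻ xy in {xy | dist xy.1 xy.2 ≤ ρs l}, f xy ∂(μ.prod μ)) atTop (𝓝 0) := by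
    have h1 : Tendsto (fun l : ℕ => (μ.prod μ) {xy | dist xy.1 xy.2 ≤ ρs l}) atTop (𝓝 0) := by
      have h2 : (μ.prod μ) (⋂ l : ℕ, {xy | dist xy.1 xy.2 ≤ ρs l}) = 0 := by
        rw [ae_iff] at hdiag
        refine measure_mono_null ?_ hdiag
        intro xy hxy
        simp only [mem_iInter, mem_ofPred_eq] at hxy
        simp only [ne_eq, not_not, mem_ofPred_eq]
        exact dist_le_zero.1 (ge_of_tendsto' hρlim hxy)
      rw [← h2]
      apply tendsto_measure_iInter_atTop
      · intro l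
        exact (isClosed_le (by fun_prop) continuous_const).measurableSet.nullMeasurableSet
      · intro a b hab xy hxy
        simp only [mem_ofPred_eq] at hxy ⊢
        refine hxy.trans ?_
        simp only [hρs]
        apply one_div_le_one_div_of_le (by positivity)
        have : (a : ℝ) ≤ b := by exact_mod_cast hab
        linarith
      · exact ⟨0, measure_ne_top _ _⟩
    have h3 := tendsto_setLIntegral_zero hftot h1
    have h4 := ENNReal.Tendsto.const_mul (a := (ENNReal.ofReal ((2 * R' + 1) * D)) ^ m) h3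
      (Or.inr (by simp))
    simpa using h4
  have hfinal : ∫⁻ A, μ (S A) ^ 2 ≤ 0 := ge_of_tendsto' hlim fun l => hkey (ρs l) (hρ0 l)
  exact hint2 (le_antisymm hfinal zero_le)

end Pool.Agent.Lib.Angles
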