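import Mathlib
import Pool.Agent.Lib.Angles.Slicing

/-!
# Consequences of the slicing lemma
-/

namespace Pool.Agent.Lib.Angles

open MeasureTheory Set Filter Topology
open scoped ENNReal NNReal

variable {k m : ℕ}

theorem slice_ae (μ : Measure (XX k m)) [IsProbabilityMeasure μ] {C s : ℝ} (hs : (m : ℝ) < s)
    (hC : 0 < C) (hμ : ∀ x r, 0 < r → μ (Metric.closedBall x r) ≤ ENNReal.ofReal (C * r ^ s))
    {K : Set (XX k m)} (hK : IsCompact K) (hμK : μ Kᶜ = 0) (R : ℕ → Set (XX k m × XX k m))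
    (hRc : ∀ j, IsClosed (R j))
    (hR : ∀ (A : MM k m) (x y : XX k m), x ≠ y → prj A x = prj A y →
      (∃ j, (x, y) ∈ R j) ∨ (∃ j, (y, x) ∈ R j)) :
    ∀ᵐ x ∂μ, x ∈ K ∧ ∀ᵐ A ∂(volume : Measure (MM k m)), ∃ y ∈ K, (∃ j, (x, y) ∈ R j) ∧
      prj A y = prj A x := by
  set F : ℕ → Set (XX k m × MM k m) := fun j =>
    {p | ∃ y ∈ K, (p.1, y) ∈ R j ∧ prj p.2 y = prj p.2 p.1} with hF
  have hFc : ∀ j, IsClosed (F j) := by
    intro j
    have : CompactSpace K := isCompact_iff_compactSpace.1 hK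
    set D : Set ((XX k m × MM k m) × K) :=
      {q | (q.1.1, (q.2 : XX k m)) ∈ R j ∧ prj q.1.2 (q.2 : XX k m) = prj q.1.2 q.1.1} with hD
    have hDc : IsClosed D := by
      have h1 : IsClosed {q : (XX k m × MM k m) × K | (q.1.1, (q.2 : XX k m)) ∈ R j} :=
        (hRc j).preimage (by fun_prop)
      have h2 : IsClosed {q : (XX k m × MM k m) × K |
          prj q.1.2 (q.2 : XX k m) = prj q.1.2 q.1.1} := by
        apply isClosed_eq
        · unfold prj
          fun_prop
        · unfold prj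
          fun_prop
      exact h1.inter h2
    have h3 : F j = Prod.fst '' D := by
      ext p
      constructor
      · rintro ⟨y, hy, h4, h5⟩
        exact ⟨(p, ⟨y, hy⟩), ⟨h4, h5⟩, rfl⟩
      · rintro ⟨⟨p', y⟩, ⟨h4, h5⟩, rfl⟩
        exact ⟨y, y.2, h4, h5⟩
    rw [h3]
    exact isClosedMap_fst_of_compactSpace _ hDc
  set G : Set (XX k m × MM k m) := (K ×ˢ univ) \ ⋃ j, F j with hG
  have hGm : MeasurableSet G :=
    (hK.measurableSet.prod MeasurableSet.univ).diff
      (MeasurableSet.iUnion fun j => (hFc j).measurableSet)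
  have hnull := slicing μ hs hC hμ hGm (by
    intro A x y hx hy hxy
    by_contra hne
    rcases hR A x y hne hxy with ⟨j, hj⟩ | ⟨j, hj⟩
    · exact hx.2 (mem_iUnion.2 ⟨j, y, hy.1.1, hj, hxy.symm⟩)
    · exact hy.2 (mem_iUnion.2 ⟨j, x, hx.1.1, hj, hxy⟩))
  rw [Measure.measure_prod_null hGm] at hnull
  have hKae : ∀ᵐ x ∂μ, x ∈ K := by
    rw [ae_iff]
    exact hμK
  filter_upwards [hnull, hKae] with x hx hxK
  refine ⟨hxK, ?_⟩
  rw [ae_iff]
  refine measure_mono_null ?_ hx
  intro A hA
  simp only [mem_ofPred_eq] at hA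
  refine ⟨⟨hxK, mem_univ _⟩, fun hcon => hA ?_⟩
  obtain ⟨j, y, hy, hj, hp⟩ := mem_iUnion.1 hcon
  exact ⟨y, hy, ⟨j, hj⟩, hp⟩

/-- The two coordinate blocks of a vector. -/
def split (k m : ℕ) (x : EuclideanSpace ℝ (Fin (k + m))) : XX k m :=
  (fun i => x (Fin.castAdd m i), fun j => x (Fin.natAdd k j))

lemma continuous_split : Continuous (split k m) := by
  unfold split
  fun_prop

lemma inner_eq_split (x y : EuclideanSpace ℝ (Fin (k + m))) :
    inner ℝ x y = ∑ i, (split k m x).1 i * (split k m y).1 i +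
      ∑ j, (split k m x).2 j * (split k m y).2 j := by
  rw [PiLp.inner_apply, Fin.sum_univ_add]
  unfold split
  simp only [RCLike.inner_apply, conj_trivial]
  congr 1 <;> exact Finset.sum_congr rfl fun i _ => mul_comm _ _

lemma split_sub (x y : EuclideanSpace ℝ (Fin (k + m))) :
    split k m (x - y) = split k m x - split k m y := by
  unfold split
  rfl

lemma split_injective : Function.Injective (split k m) := by
  intro x y h
  have h1 : inner ℝ (x - y) (x - y) = 0 := by
    rw [inner_eq_split, split_sub, h]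
    simp
  exact sub_eq_zero.1 (inner_self_eq_zero.1 h1)

lemma dist_le_of_split (x y : EuclideanSpace ℝ (Fin (k + m))) {r : ℝ} (hr : 0 ≤ r)
    (h : dist (split k m x) (split k m y) ≤ r) : dist x y ≤ ((k : ℝ) + m + 1) * r := by
  rw [dist_eq_norm, ← split_sub] at h
  rw [dist_eq_norm]
  apply abs_le_of_sq_le_sq' _ (by positivity) |>.2
  rw [← real_inner_self_eq_norm_sq, inner_eq_split]
  rw [Prod.norm_def, max_le_iff, pi_norm_le_iff_of_nonneg hr, pi_norm_le_iff_of_nonneg hr] at h
  have h1 : ∑ i, (split k m (x - y)).1 i * (split k m (x - y)).1 i ≤ k * r ^ 2 := by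
    calc ∑ i, (split k m (x - y)).1 i * (split k m (x - y)).1 i ≤ ∑ _i : Fin k, r ^ 2 := by
          refine Finset.sum_le_sum fun i _ => ?_
          have := h.1 i
          rw [Real.norm_eq_abs] at this
          rw [← sq]
          exact sq_le_sq.2 (by rwa [abs_of_nonneg hr])
      _ = _ := by simp
  have h2 : ∑ j, (split k m (x - y)).2 j * (split k m (x - y)).2 j ≤ m * r ^ 2 := by
    calc ∑ j, (split k m (x - y)).2 j * (split k m (x - y)).2 j ≤ ∑ _j : Fin m, r ^ 2 := by
          refine Finset.sum_le_sum fun i _ => ?_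
          have := h.2 i
          rw [Real.norm_eq_abs] at this
          rw [← sq]
          exact sq_le_sq.2 (by rwa [abs_of_nonneg hr])
      _ = _ := by simp
  have h3 : (k : ℝ) + m ≤ ((k : ℝ) + m + 1) ^ 2 := by
    have : (0 : ℝ) ≤ (k : ℝ) + m := by positivity
    nlinarith
  calc _ ≤ k * r ^ 2 + m * r ^ 2 := add_le_add h1 h2
    _ = ((k : ℝ) + m) * r ^ 2 := by ring
    _ ≤ ((k : ℝ) + m + 1) ^ 2 * r ^ 2 := by gcongr
    _ = _ := by ring

/-- Push-forward of a Frostman measure to the product. -/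
lemma map_split_bound (μ : Measure (EuclideanSpace ℝ (Fin (k + m)))) {C s : ℝ} (hs : 0 < s)
    (hμ : ∀ x r, 0 < r → μ (Metric.closedBall x r) ≤ ENNReal.ofReal (C * r ^ s)) :
    ∀ z r, 0 < r → (μ.map (split k m)) (Metric.closedBall z r) ≤
      ENNReal.ofReal ((C * (2 * ((k : ℝ) + m + 1)) ^ s) * r ^ s) := by
  intro z r hr
  rw [Measure.map_apply continuous_split.measurable measurableSet_closedBall]
  rcases (split k m ⁻¹' Metric.closedBall z r).eq_empty_or_nonempty with he | ⟨x₀, hx₀⟩
  · rw [he]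
    simp
  · have hsub : split k m ⁻¹' Metric.closedBall z r ⊆
        Metric.closedBall x₀ (2 * ((k : ℝ) + m + 1) * r) := by
      intro x hx
      rw [mem_preimage, Metric.mem_closedBall] at hx hx₀
      rw [Metric.mem_closedBall]
      have h1 : dist (split k m x) (split k m x₀) ≤ 2 * r := by
        have := dist_triangle_right (split k m x) (split k m x₀) z
        linarith
      have h2 := dist_le_of_split x x₀ (by positivity) h1
      linarith
    refine (measure_mono hsub).trans ((hμ x₀ _ (by positivity)).trans (le_of_eq ?_))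
    rw [Real.mul_rpow (by positivity) hr.le]
    congr 1
    ring

end Pool.Agent.Lib.Angles
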