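import Mathlib
import Pool.Agent.Lib.GMT.Frostman
import Pool.Agent.Lib.Angles.SliceAE

/-!
# Right angles
-/

namespace Pool.Agent.Lib.Angles

open MeasureTheory Set Filter Topology
open scoped ENNReal NNReal

variable {k m : ℕ}

instance isAddHaar_MM (k m : ℕ) : (volume : Measure (MM k m)).IsAddHaarMeasure := by
  have : ∀ _i : Fin m, (volume : Measure (Fin k → ℝ)).IsAddHaarMeasure := fun _ => inferInstance
  exact Measure.pi.isAddHaarMeasure _

/-- `A ↦ -Aᵀ` as a continuous linear equivalence. -/
noncomputable def negT (k m : ℕ) : MM k m ≃L[ℝ] MM m k :=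
  LinearEquiv.toContinuousLinearEquiv
    { toFun := fun A i j => -A j i
      invFun := fun B j i => -B i j
      map_add' := by
        intro A B
        ext i j
        simp only [Pi.add_apply]
        ring
      map_smul' := by
        intro c A
        ext i j
        simp
      left_inv := by
        intro A
        ext j i
        simp
      right_inv := by
        intro B
        ext i j
        simp }

lemma negT_apply (A : MM k m) (i : Fin k) (j : Fin m) : negT k m A i j = -A j i := rfl

lemma ae_negT {P : MM m k → Prop} (h : ∀ᵐ B ∂(volume : Measure (MM m k)), P B) :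
    ∀ᵐ A ∂(volume : Measure (MM k m)), P (negT k m A) := by
  have h1 : ((volume : Measure (MM k m)).map (negT k m)).IsAddHaarMeasure :=
    ContinuousLinearEquiv.isAddHaarMeasure_map _ _
  have h2 : (volume : Measure (MM k m)).map (negT k m) ≪ (volume : Measure (MM m k)) :=
    Measure.absolutelyContinuous_isAddHaarMeasure _ _
  have h3 : ∀ᵐ B ∂((volume : Measure (MM k m)).map (negT k m)), P B := h2.ae_le h
  exact ae_of_ae_map (negT k m).continuous.aemeasurable h3

theorem right_angle (hkm : k ≤ m) {E : Set (EuclideanSpace ℝ (Fin (k + m)))}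
    (hE : MeasurableSet E) (hd : (m : ℝ≥0∞) < dimH E) :
    ∃ v ∈ E, ∃ y ∈ E, ∃ z ∈ E, y ≠ v ∧ z ≠ v ∧ inner ℝ (y - v) (z - v) = 0 := by
  obtain ⟨s, hs1, hs2⟩ := ENNReal.lt_iff_exists_nnreal_btwn.1 hd
  have hms : (m : ℝ) < s := by
    have : (m : ℝ≥0) < s := by exact_mod_cast hs1
    exact_mod_cast this
  have hs0 : (0 : ℝ) < s := lt_of_le_of_lt (Nat.cast_nonneg m) hms
  obtain ⟨K, hKE, hKc, μ, hμK, C, hC, hμ⟩ :=
    GMT.frostman_euclidean (by exact_mod_cast hs0) hE hs2
  set C' : ℝ := C * (2 * ((k : ℝ) + m + 1)) ^ (s : ℝ) with hC'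
  have hC'0 : 0 < C' := by positivity
  set μ' : Measure (XX k m) :=
    (μ : Measure (EuclideanSpace ℝ (Fin (k + m)))).map (split k m) with hμ'
  have hμ'b : ∀ z r, 0 < r → μ' (Metric.closedBall z r) ≤ ENNReal.ofReal (C' * r ^ (s : ℝ)) :=
    map_split_bound (μ : Measure (EuclideanSpace ℝ (Fin (k + m)))) hs0 hμ
  have hp : IsProbabilityMeasure μ' :=
    Measure.isProbabilityMeasure_map continuous_split.measurable.aemeasurable
  set K' : Set (XX k m) := split k m '' K with hK'
  have hK'c : IsCompact K' := hKc.image continuous_split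
  have hμ'K : μ' K'ᶜ = 0 := by
    rw [hμ', Measure.map_apply continuous_split.measurable hK'c.measurableSet.compl]
    refine measure_mono_null ?_ hμK
    intro y hy hyK
    exact hy ⟨y, hyK, rfl⟩
  -- first slicing
  have h1 := slice_ae μ' hms hC'0 hμ'b hK'c hμ'K
    (fun j => {p : XX k m × XX k m | 1 / ((j : ℝ) + 1) ≤ dist p.1 p.2})
    (fun j => isClosed_le continuous_const (by fun_prop)) (by
      intro A x y hxy _
      left
      obtain ⟨j, hj⟩ := exists_nat_one_div_lt (dist_pos.2 hxy)
      exact ⟨j, hj.le⟩)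
  -- second slicing
  set μs : Measure (XX m k) := μ'.map Prod.swap with hμs
  have hps : IsProbabilityMeasure μs := Measure.isProbabilityMeasure_map measurable_swap.aemeasurable
  have hμsb : ∀ z r, 0 < r → μs (Metric.closedBall z r) ≤ ENNReal.ofReal (C' * r ^ (s : ℝ)) := by
    intro z r hr
    rw [hμs, Measure.map_apply measurable_swap measurableSet_closedBall]
    refine le_trans (measure_mono ?_) (hμ'b z.swap r hr)
    intro x hx
    rw [mem_preimage, Metric.mem_closedBall, Prod.dist_eq] at hx
    rw [Metric.mem_closedBall, Prod.dist_eq]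
    simp only [Prod.fst_swap, Prod.snd_swap] at hx ⊢
    rw [max_comm]
    exact hx
  have hKs : IsCompact (Prod.swap '' K') := hK'c.image continuous_swap
  have hμsK : μs (Prod.swap '' K')ᶜ = 0 := by
    rw [hμs, Measure.map_apply measurable_swap hKs.measurableSet.compl]
    refine measure_mono_null ?_ hμ'K
    intro y hy hyK
    exact hy ⟨y, hyK, rfl⟩
  have hks : (k : ℝ) < s := lt_of_le_of_lt (by exact_mod_cast hkm) hms
  have h2 := slice_ae μs hks hC'0 hμsb hKs hμsK
    (fun j => {p : XX m k × XX m k | 1 / ((j : ℝ) + 1) ≤ dist p.1 p.2})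
    (fun j => isClosed_le continuous_const (by fun_prop)) (by
      intro A x y hxy _
      left
      obtain ⟨j, hj⟩ := exists_nat_one_div_lt (dist_pos.2 hxy)
      exact ⟨j, hj.le⟩)
  have h3 := ae_of_ae_map measurable_swap.aemeasurable h2
  obtain ⟨x, ⟨⟨v, hvK, hv⟩, hx1⟩, ⟨-, hx2⟩⟩ := (h1.and h3).exists
  have h4 := ae_negT hx2
  have hne : (volume : Measure (MM k m)) ≠ 0 := by
    have : (volume : Measure (MM k m)).IsAddHaarMeasure := inferInstance
    exact NeZero.ne _
  have hne2 : (ae (volume : Measure (MM k m))).NeBot := ae_neBot.2 hne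
  obtain ⟨A, ⟨y', ⟨y, hyK, rfl⟩, ⟨j, hj⟩, hyA⟩, ⟨w, ⟨z', ⟨z, hzK, rfl⟩, rfl⟩, ⟨j', hj'⟩, hzB⟩⟩ :=
    (hx1.and h4).exists
  subst hv
  refine ⟨v, hKE hvK, y, hKE hyK, z, hKE hzK, ?_, ?_, ?_⟩
  · rintro rfl
    simp only [mem_ofPred_eq, dist_self] at hj
    have : (0 : ℝ) < 1 / ((j : ℝ) + 1) := by positivity
    linarith
  · rintro rfl
    simp only [mem_ofPred_eq, dist_self] at hj'
    have : (0 : ℝ) < 1 / ((j' : ℝ) + 1) := by positivity
    linarith
  · rw [inner_eq_split, split_sub, split_sub]
    set p := split k m y - split k m v with hpdef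
    set o := split k m z - split k m v with hodef
    have e1 : ∀ j, p.2 j = ∑ i, A j i * p.1 i := by
      intro j
      have := congrFun hyA j
      simp only [prj] at this
      simp only [hpdef, Prod.fst_sub, Prod.snd_sub, Pi.sub_apply, mul_sub, Finset.sum_sub_distrib]
      linarith
    have e2 : ∀ i, o.1 i = ∑ j, -A j i * o.2 j := by
      intro i
      have := congrFun hzB i
      simp only [prj, negT_apply, Prod.fst_swap, Prod.snd_swap] at this
      simp only [hodef, Prod.fst_sub, Prod.snd_sub, Pi.sub_apply, mul_sub, Finset.sum_sub_distrib]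
      linarith
    have e3 : ∑ i, p.1 i * o.1 i = ∑ i, ∑ j, -(p.1 i * A j i * o.2 j) := by
      refine Finset.sum_congr rfl fun i _ => ?_
      rw [e2 i, Finset.mul_sum]
      refine Finset.sum_congr rfl fun j _ => ?_
      ring
    have e4 : ∑ j, p.2 j * o.2 j = ∑ i, ∑ j, p.1 i * A j i * o.2 j := by
      rw [Finset.sum_comm]
      refine Finset.sum_congr rfl fun j _ => ?_
      rw [e1 j, Finset.sum_mul]
      refine Finset.sum_congr rfl fun i _ => ?_
      ring
    rw [e3, e4, ← Finset.sum_add_distrib]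
    refine Finset.sum_eq_zero fun i _ => ?_
    rw [← Finset.sum_add_distrib]
    refine Finset.sum_eq_zero fun j _ => ?_
    ring

end Pool.Agent.Lib.Angles
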