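import Mathlib
import Pool.Agent.Lib.GMT.Frostman
import Pool.Agent.Lib.Angles.SliceAE
import Pool.Agent.Lib.Angles.Defs

/-!
# All angles in sets of dimension larger than `n - 1`
-/

namespace Pool.Agent.Lib.Angles

open MeasureTheory Set Filter Topology
open scoped ENNReal NNReal

/-- In a conull set of slopes there are two slopes forming a prescribed angle. -/
lemma exists_slopes {S : Set ℝ} (hS : ∀ᵐ s, s ∈ S) {a α : ℝ} (ha : 0 < a) (hα0 : 0 < α)
    (hα1 : α < Real.pi) :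
    ∃ θ : ℝ, θ ∈ Ioo (-(Real.pi / 2)) (Real.pi / 2) ∧ θ + α ∈ Ioo (-(Real.pi / 2)) (Real.pi / 2) ∧
      a * Real.tan θ ∈ S ∧ a * Real.tan (θ + α) ∈ S := by
  have hN : volume Sᶜ = 0 := by
    rw [ae_iff] at hS
    exact hS
  set N : Set ℝ := (fun s => Real.arctan (s / a)) '' Sᶜ with hNdef
  have hN0 : volume N = 0 := by
    apply addHaar_image_eq_zero_of_differentiableOn_of_addHaar_eq_zero volume _ hN
    have : Differentiable ℝ fun s => Real.arctan (s / a) :=
      Real.differentiable_arctan.comp (differentiable_id.div_const a)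
    exact this.differentiableOn
  have hN1 : volume ((fun θ => θ + α) ⁻¹' N) = 0 := by
    rw [measure_preimage_add_right]
    exact hN0
  have hI : volume (Ioo (-(Real.pi / 2)) (Real.pi / 2 - α)) ≠ 0 := by
    rw [Real.volume_Ioo, ne_eq, ENNReal.ofReal_eq_zero, not_le]
    linarith
  have hne : (Ioo (-(Real.pi / 2)) (Real.pi / 2 - α) \ (N ∪ (fun θ => θ + α) ⁻¹' N)).Nonempty := by
    by_contra hcon
    rw [not_nonempty_iff_eq_empty, sdiff_eq_empty] at hcon
    exact hI (measure_mono_null hcon (measure_union_null hN0 hN1))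
  obtain ⟨θ, ⟨hθ1, hθ2⟩, hθ3⟩ := hne
  have hθ3' : θ ∉ N ∧ θ + α ∉ N := by
    constructor
    · exact fun h => hθ3 (Or.inl h)
    · exact fun h => hθ3 (Or.inr h)
  have key : ∀ φ, φ ∈ Ioo (-(Real.pi / 2)) (Real.pi / 2) → φ ∉ N → a * Real.tan φ ∈ S := by
    intro φ hφ hφN
    by_contra hcon
    apply hφN
    refine ⟨a * Real.tan φ, hcon, ?_⟩
    simp only
    rw [mul_div_cancel_left₀ _ ha.ne']
    exact Real.arctan_tan hφ.1 hφ.2
  have h1 : θ ∈ Ioo (-(Real.pi / 2)) (Real.pi / 2) := ⟨hθ1, by linarith⟩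
  have h2 : θ + α ∈ Ioo (-(Real.pi / 2)) (Real.pi / 2) := ⟨by linarith, by linarith⟩
  exact ⟨θ, h1, h2, key θ h1 hθ3'.1, key _ h2 hθ3'.2⟩

/-- Splitting off the first row of a column of slopes. -/
lemma ae_first_row {m' : ℕ} {P : MM 1 (m' + 1) → Prop}
    (h : ∀ᵐ A ∂(volume : Measure (MM 1 (m' + 1))), P A) :
    ∃ Q : Fin m' → Fin 1 → ℝ, ∀ᵐ s : ℝ, P (Fin.cons (fun _ => s) Q) := by
  have h1 := volume_preserving_piFinSuccAbove (fun _ : Fin (m' + 1) => Fin 1 → ℝ) 0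
  have h2 := h1.symm
  have h3 : ∀ᵐ p ∂(volume : Measure ((Fin 1 → ℝ) × (Fin m' → Fin 1 → ℝ))),
      P ((MeasurableEquiv.piFinSuccAbove (fun _ : Fin (m' + 1) => Fin 1 → ℝ) 0).symm p) :=
    h2.quasiMeasurePreserving.ae h
  have h4 : ∀ᵐ p ∂((volume : Measure (Fin m' → Fin 1 → ℝ)).prod (volume : Measure (Fin 1 → ℝ))),
      P ((MeasurableEquiv.piFinSuccAbove (fun _ : Fin (m' + 1) => Fin 1 → ℝ) 0).symm p.swap) :=
    Measure.measurePreserving_swap.quasiMeasurePreserving.ae h3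
  have h5 := Measure.ae_ae_of_ae_prod h4
  obtain ⟨Q, hQ⟩ := h5.exists
  refine ⟨Q, ?_⟩
  have h6 := (volume_preserving_funUnique (Fin 1) ℝ).symm.quasiMeasurePreserving.ae hQ
  filter_upwards [h6] with s hs
  have e : (MeasurableEquiv.piFinSuccAbove (fun _ : Fin (m' + 1) => Fin 1 → ℝ) 0).symm
      (Q, (MeasurableEquiv.funUnique (Fin 1) ℝ).symm s).swap = Fin.cons (fun _ => s) Q := by
    ext i j
    refine Fin.cases ?_ (fun i => ?_) i
    · rfl
    · rfl
  rw [e] at hs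
  exact hs

theorem all_angles {m' : ℕ} {E : Set (EuclideanSpace ℝ (Fin (1 + (m' + 1))))}
    (hE : MeasurableSet E) (hd : ((m' + 1 : ℕ) : ℝ≥0∞) < dimH E) {α : ℝ} (hα0 : 0 < α)
    (hα1 : α < Real.pi) :
    ∃ v ∈ E, ∃ y ∈ E, ∃ z ∈ E, y ≠ v ∧ z ≠ v ∧ inner ℝ (dir v y) (dir v z) = Real.cos α := by
  obtain ⟨s, hs1, hs2⟩ := ENNReal.lt_iff_exists_nnreal_btwn.1 hd
  have hms : ((m' + 1 : ℕ) : ℝ) < s := by
    have : ((m' + 1 : ℕ) : ℝ≥0) < s := by exact_mod_cast hs1
    exact_mod_cast this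
  have hs0 : (0 : ℝ) < s := lt_of_le_of_lt (Nat.cast_nonneg _) hms
  obtain ⟨K, hKE, hKc, μ, hμK, C, hC, hμ⟩ :=
    GMT.frostman_euclidean (by exact_mod_cast hs0) hE hs2
  set C' : ℝ := C * (2 * (((1 : ℕ) : ℝ) + ((m' + 1 : ℕ) : ℝ) + 1)) ^ (s : ℝ) with hC'
  have hC'0 : 0 < C' := by positivity
  set μ' : Measure (XX 1 (m' + 1)) :=
    (μ : Measure (EuclideanSpace ℝ (Fin (1 + (m' + 1))))).map (split 1 (m' + 1)) with hμ'
  have hμ'b : ∀ z r, 0 < r → μ' (Metric.closedBall z r) ≤ ENNReal.ofReal (C' * r ^ (s : ℝ)) :=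
    map_split_bound (μ : Measure (EuclideanSpace ℝ (Fin (1 + (m' + 1))))) hs0 hμ
  have hp : IsProbabilityMeasure μ' :=
    Measure.isProbabilityMeasure_map continuous_split.measurable.aemeasurable
  set K' : Set (XX 1 (m' + 1)) := split 1 (m' + 1) '' K with hK'
  have hK'c : IsCompact K' := hKc.image continuous_split
  have hμ'K : μ' K'ᶜ = 0 := by
    rw [hμ', Measure.map_apply continuous_split.measurable hK'c.measurableSet.compl]
    refine measure_mono_null ?_ hμK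
    intro y hy hyK
    exact hy ⟨y, hyK, rfl⟩
  have h1 := slice_ae μ' hms hC'0 hμ'b hK'c hμ'K
    (fun j => {p : XX 1 (m' + 1) × XX 1 (m' + 1) | p.1.1 0 + 1 / ((j : ℝ) + 1) ≤ p.2.1 0})
    (fun j => isClosed_le (by fun_prop) (by fun_prop)) (by
      intro A x y hxy hprj
      have hne : x.1 0 ≠ y.1 0 := by
        intro h0
        apply hxy
        have e1 : x.1 = y.1 := by
          ext i
          rw [Fin.fin_one_eq_zero i]
          exact h0
        refine Prod.ext e1 ?_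
        ext j
        have := congrFun hprj j
        simp only [prj, e1] at this
        linarith
      rcases lt_or_gt_of_ne hne with h | h
      · left
        obtain ⟨j, hj⟩ := exists_nat_one_div_lt (sub_pos.2 h)
        refine ⟨j, ?_⟩
        simp only [mem_ofPred_eq]
        linarith
      · right
        obtain ⟨j, hj⟩ := exists_nat_one_div_lt (sub_pos.2 h)
        refine ⟨j, ?_⟩
        simp only [mem_ofPred_eq]
        linarith)
  obtain ⟨x, ⟨v, hvK, hv⟩, hx1⟩ := h1.exists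
  subst hv
  obtain ⟨Q, hQ⟩ := ae_first_row hx1
  set n2 : ℝ := ∑ j, (Q j 0) ^ 2 with hn2
  have hn20 : 0 ≤ n2 := Finset.sum_nonneg fun j _ => sq_nonneg _
  set a : ℝ := √(1 + n2) with ha
  have ha0 : 0 < a := by positivity
  have ha2 : a ^ 2 = 1 + n2 := Real.sq_sqrt (by positivity)
  obtain ⟨θ, hθ, hθα, hS1, hS2⟩ := exists_slopes hQ ha0 hα0 hα1
  -- the structure of the points
  have key : ∀ w : ℝ, w ∈ {s : ℝ | ∃ y ∈ K', (∃ j : ℕ, (split 1 (m' + 1) v, y) ∈
      {p : XX 1 (m' + 1) × XX 1 (m' + 1) | p.1.1 0 + 1 / ((j : ℝ) + 1) ≤ p.2.1 0}) ∧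
      prj (Fin.cons (fun _ => s) Q : MM 1 (m' + 1)) y =
        prj (Fin.cons (fun _ => s) Q : MM 1 (m' + 1)) (split 1 (m' + 1) v)} →
      ∃ y ∈ K, ∃ τ : ℝ, 0 < τ ∧ (split 1 (m' + 1) (y - v)).1 0 = τ ∧
        (split 1 (m' + 1) (y - v)).2 0 = τ * w ∧
        ∀ j : Fin m', (split 1 (m' + 1) (y - v)).2 j.succ = τ * Q j 0 := by
    rintro w ⟨_, ⟨y, hyK, rfl⟩, ⟨j, hj⟩, hprj⟩
    refine ⟨y, hyK, (split 1 (m' + 1) y).1 0 - (split 1 (m' + 1) v).1 0, ?_, ?_, ?_, ?_⟩
    · simp only [mem_ofPred_eq] at hj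
      have : (0 : ℝ) < 1 / ((j : ℝ) + 1) := by positivity
      linarith
    · rw [split_sub]
      rfl
    · have := congrFun hprj 0
      simp only [prj, Fin.cons_zero, Finset.univ_unique, Fin.default_eq_zero,
        Finset.sum_singleton] at this
      rw [split_sub, Prod.snd_sub, Pi.sub_apply]
      linarith
    · intro i
      have := congrFun hprj i.succ
      simp only [prj, Fin.cons_succ, Finset.univ_unique, Fin.default_eq_zero,
        Finset.sum_singleton] at this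
      rw [split_sub, Prod.snd_sub, Pi.sub_apply]
      linarith
  obtain ⟨y, hyK, τ, hτ, hy1, hy2, hy3⟩ := key _ hS1
  obtain ⟨z, hzK, σ, hσ, hz1, hz2, hz3⟩ := key _ hS2
  have hyv : y ≠ v := by
    rintro rfl
    rw [sub_self] at hy1
    have : (split 1 (m' + 1) (0 : EuclideanSpace ℝ (Fin (1 + (m' + 1))))).1 0 = 0 := rfl
    linarith
  have hzv : z ≠ v := by
    rintro rfl
    rw [sub_self] at hz1
    have : (split 1 (m' + 1) (0 : EuclideanSpace ℝ (Fin (1 + (m' + 1))))).1 0 = 0 := rfl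
    linarith
  refine ⟨v, hKE hvK, y, hKE hyK, z, hKE hzK, hyv, hzv, ?_⟩
  have hcθ : 0 < Real.cos θ := Real.cos_pos_of_mem_Ioo hθ
  have hcα : 0 < Real.cos (θ + α) := Real.cos_pos_of_mem_Ioo hθα
  have inn : ∀ (y z : EuclideanSpace ℝ (Fin (1 + (m' + 1)))) (τ σ w w' : ℝ),
      (split 1 (m' + 1) (y - v)).1 0 = τ → (split 1 (m' + 1) (y - v)).2 0 = τ * w →
      (∀ j : Fin m', (split 1 (m' + 1) (y - v)).2 j.succ = τ * Q j 0) →
      (split 1 (m' + 1) (z - v)).1 0 = σ → (split 1 (m' + 1) (z - v)).2 0 = σ * w' →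
      (∀ j : Fin m', (split 1 (m' + 1) (z - v)).2 j.succ = σ * Q j 0) →
      inner ℝ (y - v) (z - v) = τ * σ * (a ^ 2 + w * w') := by
    intro y z τ σ w w' h1 h2 h3 h4 h5 h6
    rw [inner_eq_split, Fin.sum_univ_one, Fin.sum_univ_succ, h1, h2, h4, h5]
    have : ∑ j : Fin m', (split 1 (m' + 1) (y - v)).2 j.succ *
        (split 1 (m' + 1) (z - v)).2 j.succ = τ * σ * n2 := by
      rw [hn2, Finset.mul_sum]
      refine Finset.sum_congr rfl fun j _ => ?_
      rw [h3, h6]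
      ring
    rw [this, ha2]
    ring
  have tan1 : Real.tan θ = Real.sin θ / Real.cos θ := Real.tan_eq_sin_div_cos θ
  have tan2 : Real.tan (θ + α) = Real.sin (θ + α) / Real.cos (θ + α) :=
    Real.tan_eq_sin_div_cos _
  have norm_aux : ∀ (y : EuclideanSpace ℝ (Fin (1 + (m' + 1)))) (τ φ : ℝ), 0 < τ →
      0 < Real.cos φ → (split 1 (m' + 1) (y - v)).1 0 = τ →
      (split 1 (m' + 1) (y - v)).2 0 = τ * (a * Real.tan φ) →
      (∀ j : Fin m', (split 1 (m' + 1) (y - v)).2 j.succ = τ * Q j 0) →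
      ‖y - v‖ = τ * a / Real.cos φ := by
    intro y τ φ hτ hφ h1 h2 h3
    have e1 := inn y y τ τ _ _ h1 h2 h3 h1 h2 h3
    rw [real_inner_self_eq_norm_sq] at e1
    have e2 : ‖y - v‖ ^ 2 = (τ * a / Real.cos φ) ^ 2 := by
      rw [e1, Real.tan_eq_sin_div_cos]
      have : Real.sin φ ^ 2 = 1 - Real.cos φ ^ 2 := by
        have := Real.sin_sq_add_cos_sq φ
        linarith
      field_simp
      rw [this]
      ring
    have e3 : 0 ≤ τ * a / Real.cos φ := by positivity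
    exact (pow_left_inj₀ (norm_nonneg _) e3 two_ne_zero).1 e2
  have ny := norm_aux y τ θ hτ hcθ hy1 hy2 hy3
  have nz := norm_aux z σ (θ + α) hσ hcα hz1 hz2 hz3
  have hin := inn y z τ σ _ _ hy1 hy2 hy3 hz1 hz2 hz3
  unfold dir
  rw [real_inner_smul_left, real_inner_smul_right, hin, ny, nz, tan1, tan2]
  have hcos : Real.cos α = Real.cos (θ + α) * Real.cos θ + Real.sin (θ + α) * Real.sin θ := by
    have := Real.cos_sub (θ + α) θ
    rw [add_sub_cancel_left] at this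
    exact this
  rw [hcos]
  field_simp

end Pool.Agent.Lib.Angles
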