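import Mathlib
import Pool.Agent.Lib.GMT.Frostman
import Pool.Agent.Lib.Angles.Even
import Pool.Agent.Lib.Angles.Params
import Pool.Agent.Lib.Angles.RightAngle
import Pool.Agent.Lib.Angles.SmallDim

/-!
# Putting the pieces together
-/

namespace Pool.Agent.Lib.Angles

open MeasureTheory Set Filter Topology
open scoped ENNReal NNReal

lemma angle_of_inner_dir {n : ℕ} {v y z : EuclideanSpace ℝ (Fin n)} {α : ℝ} (hα0 : 0 < α)
    (hα1 : α < Real.pi) (hy : y ≠ v) (hz : z ≠ v)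
    (h : inner ℝ (dir v y) (dir v z) = Real.cos α) :
    y ≠ v ∧ v ≠ z ∧ y ≠ z ∧ EuclideanGeometry.angle y v z = α := by
  have hyn : ‖y - v‖ ≠ 0 := norm_ne_zero_iff.2 (sub_ne_zero.2 hy)
  have hang : EuclideanGeometry.angle y v z = α := by
    unfold EuclideanGeometry.angle InnerProductGeometry.angle
    rw [vsub_eq_sub, vsub_eq_sub]
    have : inner ℝ (y - v) (z - v) / (‖y - v‖ * ‖z - v‖) = Real.cos α := by
      rw [← h]
      unfold dir
      rw [real_inner_smul_left, real_inner_smul_right]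
      field_simp
    rw [this, Real.arccos_cos hα0.le hα1.le]
  refine ⟨hy, hz.symm, ?_, hang⟩
  rintro rfl
  rw [EuclideanGeometry.angle_self_of_ne hy] at hang
  exact hα0.ne hang

theorem even_case {t : ℝ} (ht0 : t ≠ 0) (ht : |t| < 1)
    (hS : ∀ d g : ℕ, 2 * g + 2 ≤ d → SphereMain d g t) :
    ∃ N : ℕ, 1 ≤ N ∧ ∃ d₀ : ℕ, ∀ d : ℕ, d₀ ≤ d → ∀ E : Set (VV d), MeasurableSet E →
      ENNReal.ofReal ((1 - 1 / (2 * (N : ℝ))) * (2 * d)) < dimH E →
      ∃ v ∈ E, ∃ y ∈ E, ∃ z ∈ E, y ≠ v ∧ z ≠ v ∧ inner ℝ (dir v y) (dir v z) = t := by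
  obtain ⟨N, hN, d₀, hd₀⟩ := params ht0 ht
  refine ⟨N, hN, max d₀ (5 * N), fun d hd E hE hdim => ?_⟩
  have hN0 : (0 : ℝ) < N := by exact_mod_cast hN
  obtain ⟨hg2, hgd, htail0, r, q, T, hr, hq, hT, hc1, hc2, hc3⟩ :=
    hd₀ d ((le_max_left _ _).trans hd) (d / N) rfl
  set g : ℕ := d / N with hg
  have hgdR : 2 * (g : ℝ) + 2 ≤ d := by exact_mod_cast hgd
  set s : ℝ := 2 * ((d : ℝ) - g) + 3 with hs
  have hs0 : 0 < s := by
    rw [hs]
    have : (0 : ℝ) ≤ g := Nat.cast_nonneg g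
    linarith
  have hsle : s ≤ (1 - 1 / (2 * (N : ℝ))) * (2 * d) := by
    have h1 : (d : ℝ) < N * (g + 1) := by
      have : d < N * (d / N + 1) := Nat.lt_mul_div_succ d (by omega)
      exact_mod_cast this
    have h2 : (d : ℝ) / N < g + 1 := by
      rw [div_lt_iff₀ hN0]
      linarith
    have h3 : (5 : ℝ) ≤ d / N := by
      rw [le_div_iff₀ hN0]
      have : 5 * N ≤ d := (le_max_right _ _).trans hd
      exact_mod_cast this
    have h4 : (1 - 1 / (2 * (N : ℝ))) * (2 * d) = 2 * d - d / N := by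
      field_simp
    rw [h4, hs]
    linarith
  obtain ⟨sN, hsN⟩ : ∃ sN : ℝ≥0, (sN : ℝ) = s := ⟨⟨s, hs0.le⟩, rfl⟩
  have hlt : (sN : ℝ≥0∞) < dimH E := by
    refine lt_of_le_of_lt ?_ hdim
    rw [ENNReal.ofReal, ENNReal.coe_le_coe, ← NNReal.coe_le_coe, hsN]
    exact hsle.trans (Real.le_coe_toNNReal _)
  obtain ⟨K, hKE, hKc, μ, hμK, C, hC, hμ⟩ :=
    GMT.frostman_euclidean (s := sN) (by rw [← NNReal.coe_pos, hsN]; exact hs0) hE hlt
  rw [hsN] at hμ
  obtain ⟨v, hv, y, hy, z, hz, h1, h2, h3⟩ := even_core hg2 hgd ht (hS d g hgd) hs hr hq hc1 hT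
    hc2 hc3 htail0 (μ : Measure (VV d)) (IsProbabilityMeasure.ne_zero _) hC hμ hKc hμK
  exact ⟨v, hKE hv, y, hKE hy, z, hKE hz, h1, h2, h3⟩

/-- Isometric embedding into a space of larger dimension. -/
lemma exists_embedding (n k : ℕ) :
    ∃ f : EuclideanSpace ℝ (Fin n) →ₗᵢ[ℝ] EuclideanSpace ℝ (Fin (n + k)), True := by
  let f : EuclideanSpace ℝ (Fin n) →ₗ[ℝ] EuclideanSpace ℝ (Fin (n + k)) :=
    { toFun := fun x => WithLp.toLp 2 (Fin.append x.ofLp (0 : Fin k → ℝ))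
      map_add' := by
        intro x y
        ext i
        refine Fin.addCases (fun i => ?_) (fun i => ?_) i <;> simp
      map_smul' := by
        intro c x
        ext i
        refine Fin.addCases (fun i => ?_) (fun i => ?_) i <;> simp }
  refine ⟨⟨f, fun x => ?_⟩, trivial⟩
  have h : ‖f x‖ ^ 2 = ‖x‖ ^ 2 := by
    rw [EuclideanSpace.norm_sq_eq, EuclideanSpace.norm_sq_eq, Fin.sum_univ_add]
    simp [f]
  exact (pow_left_inj₀ (norm_nonneg _) (norm_nonneg _) two_ne_zero).1 h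

lemma dir_map {n n' : ℕ} (f : EuclideanSpace ℝ (Fin n) →ₗᵢ[ℝ] EuclideanSpace ℝ (Fin n'))
    (v y : EuclideanSpace ℝ (Fin n)) : dir (f v) (f y) = f (dir v y) := by
  unfold dir
  rw [← map_sub, f.norm_map, map_smul]

theorem main_of_sphere
    (hS : ∀ (t : ℝ) (d g : ℕ), t ≠ 0 → |t| < 1 → 2 * g + 2 ≤ d → SphereMain d g t) :
    ∀ α : ℝ, 0 < α → α < Real.pi →
      ∃ c : ℝ, c < 1 ∧
        ∀ n : ℕ, 2 ≤ n →
          ∀ E : Set (EuclideanSpace ℝ (Fin n)), MeasurableSet E →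
            ENNReal.ofReal (c * (n : ℝ)) < dimH E →
              ∃ x ∈ E, ∃ y ∈ E, ∃ z ∈ E,
                x ≠ y ∧ y ≠ z ∧ x ≠ z ∧ EuclideanGeometry.angle x y z = α := by
  intro α hα0 hα1
  -- it suffices to find directions
  suffices h : ∃ c : ℝ, c < 1 ∧ ∀ n : ℕ, 2 ≤ n →
      ∀ E : Set (EuclideanSpace ℝ (Fin n)), MeasurableSet E →
      ENNReal.ofReal (c * (n : ℝ)) < dimH E →
      ∃ v ∈ E, ∃ y ∈ E, ∃ z ∈ E, y ≠ v ∧ z ≠ v ∧ inner ℝ (dir v y) (dir v z) = Real.cos α by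
    obtain ⟨c, hc, h⟩ := h
    refine ⟨c, hc, fun n hn E hE hdim => ?_⟩
    obtain ⟨v, hv, y, hy, z, hz, h1, h2, h3⟩ := h n hn E hE hdim
    obtain ⟨h4, h5, h6, h7⟩ := angle_of_inner_dir hα0 hα1 h1 h2 h3
    exact ⟨y, hy, v, hv, z, hz, h4, h5, h6, h7⟩
  by_cases ht0 : Real.cos α = 0
  · -- right angle
    refine ⟨3 / 4, by norm_num, fun n hn E hE hdim => ?_⟩
    obtain ⟨k, m, hkm, hmk, rfl⟩ : ∃ k m : ℕ, k ≤ m ∧ m ≤ k + 1 ∧ n = k + m :=
      ⟨n / 2, n - n / 2, by omega, by omega, by omega⟩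
    have hdim' : (m : ℝ≥0∞) < dimH E := by
      refine lt_of_le_of_lt ?_ hdim
      rw [← ENNReal.ofReal_natCast]
      apply ENNReal.ofReal_le_ofReal
      push_cast
      have h1 : (m : ℝ) ≤ k + 1 := by exact_mod_cast hmk
      have h2 : (2 : ℝ) ≤ k + m := by exact_mod_cast hn
      linarith
    obtain ⟨v, hv, y, hy, z, hz, h1, h2, h3⟩ := right_angle hkm hE hdim'
    refine ⟨v, hv, y, hy, z, hz, h1, h2, ?_⟩
    unfold dir
    rw [real_inner_smul_left, real_inner_smul_right, h3, ht0]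
    ring
  · have ht1 : |Real.cos α| < 1 := by
      rw [abs_lt]
      constructor
      · have := Real.cos_lt_cos_of_nonneg_of_le_pi hα0.le le_rfl hα1
        rwa [Real.cos_pi] at this
      · have := Real.cos_lt_cos_of_nonneg_of_le_pi le_rfl hα1.le hα0
        rwa [Real.cos_zero] at this
    obtain ⟨N, hN, d₀, hd₀⟩ := even_case ht0 ht1 (fun d g h => hS _ d g ht0 ht1 h)
    have hN0 : (0 : ℝ) < N := by exact_mod_cast hN
    set n₀ : ℕ := 2 * (d₀ + 2 * N) with hn₀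
    have hn₀0 : (0 : ℝ) < n₀ := by
      have : 0 < n₀ := by omega
      exact_mod_cast this
    refine ⟨max (1 - 1 / (4 * (N : ℝ))) (1 - 1 / (n₀ : ℝ)), ?_, fun n hn E hE hdim => ?_⟩
    · apply max_lt
      · have : 0 < 1 / (4 * (N : ℝ)) := by positivity
        linarith
      · have : 0 < 1 / (n₀ : ℝ) := by positivity
        linarith
    have hn0 : (0 : ℝ) ≤ n := Nat.cast_nonneg n
    rcases le_or_gt n n₀ with hle | hgt
    · obtain ⟨m', rfl⟩ : ∃ m', n = 1 + (m' + 1) := ⟨n - 2, by omega⟩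
      have hdim' : ((m' + 1 : ℕ) : ℝ≥0∞) < dimH E := by
        refine lt_of_le_of_lt ?_ hdim
        rw [← ENNReal.ofReal_natCast]
        apply ENNReal.ofReal_le_ofReal
        have h1 : ((1 + (m' + 1) : ℕ) : ℝ) ≤ n₀ := by exact_mod_cast hle
        have h2 : (1 - 1 / (n₀ : ℝ)) * ((1 + (m' + 1) : ℕ) : ℝ) ≤
            max (1 - 1 / (4 * (N : ℝ))) (1 - 1 / (n₀ : ℝ)) * ((1 + (m' + 1) : ℕ) : ℝ) :=
          mul_le_mul_of_nonneg_right (le_max_right _ _) hn0
        refine le_trans ?_ h2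
        have h3 : 1 / (n₀ : ℝ) * ((1 + (m' + 1) : ℕ) : ℝ) ≤ 1 := by
          rw [one_div, inv_mul_le_iff₀ hn₀0]
          linarith
        push_cast at h3 ⊢
        linarith
      exact all_angles hE hdim' hα0 hα1
    · set d : ℕ := (n + 1) / 2 with hd
      obtain ⟨k, hk⟩ : ∃ k, 2 * d = n + k := ⟨2 * d - n, by omega⟩
      have hk1 : k ≤ 1 := by omega
      have hdd₀ : d₀ ≤ d := by omega
      have hdN : 2 * N ≤ d := by omega
      obtain ⟨f, -⟩ := exists_embedding n k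
      have hiso : Isometry f := f.isometry
      set E' : Set (EuclideanSpace ℝ (Fin (n + k))) := f '' E with hE'
      have hE'm : MeasurableSet E' :=
        hiso.isClosedEmbedding.measurableEmbedding.measurableSet_image.2 hE
      have hdimE' : dimH E' = dimH E := hiso.dimH_image E
      have hmain : ∀ E'' : Set (EuclideanSpace ℝ (Fin (n + k))), MeasurableSet E'' →
          ENNReal.ofReal ((1 - 1 / (2 * (N : ℝ))) * (2 * d)) < dimH E'' →
          ∃ v ∈ E'', ∃ y ∈ E'', ∃ z ∈ E'', y ≠ v ∧ z ≠ v ∧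
            inner ℝ (dir v y) (dir v z) = Real.cos α := by
        rw [← hk]
        exact hd₀ d hdd₀
      obtain ⟨_, ⟨v, hv, rfl⟩, _, ⟨y, hy, rfl⟩, _, ⟨z, hz, rfl⟩, h1, h2, h3⟩ := hmain E' hE'm (by
        rw [hdimE']
        refine lt_of_le_of_lt (ENNReal.ofReal_le_ofReal ?_) hdim
        have h2 : (1 - 1 / (4 * (N : ℝ))) * (n : ℝ) ≤
            max (1 - 1 / (4 * (N : ℝ))) (1 - 1 / (n₀ : ℝ)) * (n : ℝ) :=
          mul_le_mul_of_nonneg_right (le_max_left _ _) hn0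
        refine le_trans ?_ h2
        have h3 : 2 * (d : ℝ) - 1 ≤ n := by
          have : 2 * d ≤ n + 1 := by omega
          have h4 : 2 * (d : ℝ) ≤ n + 1 := by exact_mod_cast this
          linarith
        have h4 : 0 ≤ 1 - 1 / (4 * (N : ℝ)) := by
          rw [sub_nonneg, div_le_one (by positivity)]
          have : (1 : ℝ) ≤ N := by exact_mod_cast hN
          linarith
        have h5 : (1 - 1 / (4 * (N : ℝ))) * (2 * (d : ℝ) - 1) ≤ (1 - 1 / (4 * (N : ℝ))) * n :=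
          mul_le_mul_of_nonneg_left h3 h4
        refine le_trans ?_ h5
        have h6 : (1 : ℝ) ≤ d / (2 * N) := by
          rw [le_div_iff₀ (by positivity), one_mul]
          exact_mod_cast hdN
        have h7 : (1 - 1 / (2 * (N : ℝ))) * (2 * d) = 2 * d - 2 * (d / (2 * N)) := by
          field_simp
        have h8 : (1 - 1 / (4 * (N : ℝ))) * (2 * (d : ℝ) - 1) =
            2 * d - 1 - d / (2 * N) + 1 / (4 * N) := by
          field_simp
          ring
        have h9 : 0 < 1 / (4 * (N : ℝ)) := by positivity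
        rw [h7, h8]
        linarith)
      refine ⟨v, hv, y, hy, z, hz, fun h => h1 (by rw [h]), fun h => h2 (by rw [h]), ?_⟩
      rw [dir_map, dir_map, f.inner_map_map] at h3
      exact h3

end Pool.Agent.Lib.Angles
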