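import Pool.Agent.Lib.Angles.SphereMain
import Pool.Agent.Lib.Angles.Even

/-!
# The analysis on the sphere in the form used by the assembly
-/

namespace Pool.Agent.Lib.Angles

open MeasureTheory Set Filter Topology Metric
open scoped ENNReal NNReal

/-- The output of the analysis on the sphere. -/
theorem sphereMain_holds {d g : ℕ} (hd : 2 * g + 2 ≤ d) {t : ℝ} (ht0 : t ≠ 0) (ht1 : |t| < 1) :
    SphereMain d g t := by
  obtain ⟨ι, hι, Φ, hc, ho, hm⟩ := sphere_main d g hd t ht0 ht1
  refine ⟨ι, hι, Φ, hc, ho, ?_, ?_⟩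
  · intro lam hfin hS I hI hpot
    exact (hm lam (sphere 0 1) (isCompact_sphere 0 1) (fun u hu => by simpa using hu) hS I hI hpot).1
  · intro lam hfin S hS hS1 hS0 hne I hI hpot
    exact (hm lam S hS hS1 hS0 I hI hpot).2 hne

end Pool.Agent.Lib.Angles
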