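import Pool.Agent.Lib.Angles.SphereRec

open MvPolynomial Finset

namespace Pool.Agent.Lib.Angles.Sph

set_option linter.unusedSectionVars false

variable {σ : Type} [Fintype σ] [DecidableEq σ]

/-- product of factorials -/
noncomputable def fac (α : σ →₀ ℕ) : ℝ := ∏ i, ((α i).factorial : ℝ)

lemma fac_pos (α : σ →₀ ℕ) : 0 < fac α := by
  unfold fac; exact Finset.prod_pos fun i _ => by exact_mod_cast Nat.factorial_pos _

lemma fac_add_single (β : σ →₀ ℕ) (i : σ) :
    fac (β + Finsupp.single i 1) = fac β * ((β i : ℝ)+1) := by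
  unfold fac
  rw [← Finset.mul_prod_erase _ _ (Finset.mem_univ i), ← Finset.mul_prod_erase _ _ (Finset.mem_univ i)]
  have h1 : ∏ x ∈ Finset.univ.erase i, (((β + Finsupp.single i 1 : σ →₀ ℕ) x).factorial : ℝ)
      = ∏ x ∈ Finset.univ.erase i, ((β x).factorial : ℝ) := by
    apply Finset.prod_congr rfl
    intro x hx
    have : x ≠ i := Finset.ne_of_mem_erase hx
    simp [Finsupp.single_apply, this.symm]
  rw [h1]
  simp only [Finsupp.coe_add, Pi.add_apply, Finsupp.single_eq_same]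
  rw [Nat.factorial_succ]
  push_cast
  ring

/-- the Fischer form, linear in `p` -/
noncomputable def fB (q : MvPolynomial σ ℝ) : MvPolynomial σ ℝ →ₗ[ℝ] ℝ :=
  (basisMonomials σ ℝ).constr ℝ (fun β => fac β * coeff β q)

lemma fB_monomial (q : MvPolynomial σ ℝ) (β : σ →₀ ℕ) (a : ℝ) :
    fB q (monomial β a) = a * (fac β * coeff β q) := by
  have h : (monomial β a : MvPolynomial σ ℝ) = a • (basisMonomials σ ℝ β) := by
    rw [coe_basisMonomials]; simp [smul_monomial]
  rw [h, map_smul]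
  unfold fB
  rw [Module.Basis.constr_basis]
  rfl

lemma fB_ext {f g : MvPolynomial σ ℝ →ₗ[ℝ] ℝ} (h : ∀ β, f (monomial β 1) = g (monomial β 1)) : f = g := by
  apply (basisMonomials σ ℝ).ext
  intro β
  rw [coe_basisMonomials]; exact h β

lemma fB_add (q q' : MvPolynomial σ ℝ) (p : MvPolynomial σ ℝ) : fB (q+q') p = fB q p + fB q' p := by
  have : fB (q+q') = fB q + fB q' := by
    apply fB_ext; intro β
    rw [LinearMap.add_apply, fB_monomial, fB_monomial, fB_monomial, coeff_add]; ring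
  rw [this]; rfl

lemma fB_zero (p : MvPolynomial σ ℝ) : fB 0 p = 0 := by
  have : fB (0:MvPolynomial σ ℝ) = 0 := by
    apply fB_ext; intro β
    rw [fB_monomial]; simp
  rw [this]; rfl

lemma fB_sum {ι : Type} (s : Finset ι) (q : ι → MvPolynomial σ ℝ) (p : MvPolynomial σ ℝ) :
    fB (∑ i ∈ s, q i) p = ∑ i ∈ s, fB (q i) p := by
  classical
  induction s using Finset.induction_on with
  | empty => simp [fB_zero]
  | insert a s ha ih => rw [Finset.sum_insert ha, Finset.sum_insert ha, fB_add, ih]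

lemma fB_C_mul (c : ℝ) (q p : MvPolynomial σ ℝ) : fB (C c * q) p = c * fB q p := by
  have : fB (C c * q) = c • fB q := by
    apply fB_ext; intro β
    rw [LinearMap.smul_apply, fB_monomial, fB_monomial, coeff_C_mul, smul_eq_mul]; ring
  rw [this]; rfl

lemma fB_X_mul (q p : MvPolynomial σ ℝ) (i : σ) : fB q (X i * p) = fB (pderiv i q) p := by
  have : (fB q) ∘ₗ (LinearMap.mulLeft ℝ (X i : MvPolynomial σ ℝ)) = fB (pderiv i q) := by
    apply fB_ext; intro β
    rw [LinearMap.comp_apply, LinearMap.mulLeft_apply]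
    have h : (X i * monomial β (1:ℝ) : MvPolynomial σ ℝ) = monomial (β + Finsupp.single i 1) 1 := by
      rw [X, monomial_mul, one_mul, add_comm]
    rw [h, fB_monomial, fB_monomial, coeff_pderiv, fac_add_single]; ring
  rw [← this]; rfl

/-- linear form -/
noncomputable def lf (w : σ → ℝ) : MvPolynomial σ ℝ := ∑ i, C (w i) * X i
/-- squared norm -/
noncomputable def nq : MvPolynomial σ ℝ := ∑ i : σ, X i * X i
/-- directional derivative -/
noncomputable def DD (w : σ → ℝ) (p : MvPolynomial σ ℝ) : MvPolynomial σ ℝ := ∑ i, C (w i) * pderiv i p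
/-- Laplacian -/
noncomputable def Lap (p : MvPolynomial σ ℝ) : MvPolynomial σ ℝ := ∑ i, pderiv i (pderiv i p)

lemma fB_lf_mul (w : σ → ℝ) (q p : MvPolynomial σ ℝ) : fB q (lf w * p) = fB (DD w q) p := by
  unfold lf DD
  rw [Finset.sum_mul, map_sum, fB_sum]
  apply Finset.sum_congr rfl
  intro i _
  rw [mul_assoc, C_mul', map_smul, smul_eq_mul, fB_X_mul, fB_C_mul]

lemma fB_nq_mul (q p : MvPolynomial σ ℝ) : fB q (nq * p) = fB (Lap q) p := by
  unfold nq Lap
  rw [Finset.sum_mul, map_sum, fB_sum]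
  apply Finset.sum_congr rfl
  intro i _
  rw [mul_assoc, fB_X_mul, fB_X_mul]

lemma fB_lf_pow (w : σ → ℝ) (l : ℕ) (q : MvPolynomial σ ℝ) (hq : q.IsHomogeneous l) :
    fB q (lf w ^ l) = (l.factorial : ℝ) * eval w q := by
  induction l generalizing q with
  | zero =>
    have h1 : q = C (coeff 0 q) := by
      have := (totalDegree_zero_iff_isHomogeneous σ).2 hq
      exact totalDegree_eq_zero_iff_eq_C.1 this
    have h2 : (1 : MvPolynomial σ ℝ) = monomial 0 1 := rfl
    rw [pow_zero, h2, fB_monomial]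
    rw [h1]
    simp [fac]
  | succ l ih =>
    rw [pow_succ', fB_lf_mul]
    unfold DD
    rw [fB_sum]
    have h1 : ∀ i : σ, fB (C (w i) * pderiv i q) (lf w ^ l) = (l.factorial:ℝ) * eval w (C (w i) * pderiv i q) := by
      intro i
      rw [fB_C_mul, ih _ (by simpa using hq.pderiv (i := i))]
      simp; ring
    rw [Finset.sum_congr rfl (fun i _ => h1 i), ← Finset.mul_sum, ← map_sum]
    have h2 : eval w (∑ i, C (w i) * pderiv i q) = ((l:ℝ)+1) * eval w q := by
      have h3 := congrArg (eval w) hq.sum_X_mul_pderiv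
      rw [map_sum] at h3 ⊢
      simp only [map_mul, eval_X, eval_C, nsmul_eq_mul, map_natCast] at h3 ⊢
      rw [h3]; push_cast; ring
    rw [h2, Nat.factorial_succ]; push_cast; ring

lemma fB_eq_sum (q p : MvPolynomial σ ℝ) (T : Finset (σ →₀ ℕ)) (hT : p.support ⊆ T) :
    fB q p = ∑ α ∈ T, fac α * coeff α q * coeff α p := by
  have h1 : p = ∑ α ∈ T, monomial α (coeff α p) := by
    conv_lhs => rw [p.as_sum]
    apply Finset.sum_subset hT
    intro x _ hx
    rw [notMem_support_iff.1 hx, monomial_zero]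
  conv_lhs => rw [h1]
  rw [map_sum]
  apply Finset.sum_congr rfl
  intro α _
  rw [fB_monomial]; ring

/-! derivative rules -/

lemma DD_mul (w : σ → ℝ) (p q : MvPolynomial σ ℝ) : DD w (p*q) = DD w p * q + p * DD w q := by
  unfold DD
  rw [Finset.sum_mul, Finset.mul_sum, ← Finset.sum_add_distrib]
  apply Finset.sum_congr rfl; intro i _
  rw [pderiv_mul]; ring

lemma DD_sub (w : σ → ℝ) (p q : MvPolynomial σ ℝ) : DD w (p-q) = DD w p - DD w q := by
  unfold DD
  rw [← Finset.sum_sub_distrib]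
  apply Finset.sum_congr rfl; intro i _
  rw [map_sub]; ring

lemma DD_natCast (w : σ → ℝ) (k : ℕ) : DD w (k : MvPolynomial σ ℝ) = 0 := by
  unfold DD
  apply Finset.sum_eq_zero; intro i _
  rw [Derivation.map_natCast, mul_zero]

lemma DD_one (w : σ → ℝ) : DD w (1 : MvPolynomial σ ℝ) = 0 := by
  simpa using DD_natCast (σ := σ) w 1

lemma pderiv_lf (w : σ → ℝ) (i : σ) : pderiv i (lf w) = C (w i) := by
  unfold lf
  rw [map_sum, Finset.sum_eq_single i]
  · rw [pderiv_C_mul, pderiv_X_self, mul_one]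
  · intro j _ hj
    rw [pderiv_C_mul, pderiv_X_of_ne hj, mul_zero]
  · simp

lemma pderiv_nq (i : σ) : pderiv i (nq : MvPolynomial σ ℝ) = 2 * X i := by
  unfold nq
  rw [map_sum, Finset.sum_eq_single i]
  · rw [pderiv_mul, pderiv_X_self]; ring
  · intro j _ hj
    rw [pderiv_mul, pderiv_X_of_ne hj]; ring
  · simp

lemma DD_lf {w : σ → ℝ} (hw : ∑ i, w i * w i = 1) : DD w (lf w) = 1 := by
  unfold DD
  have : ∀ i : σ, C (w i) * pderiv i (lf w) = C (w i * w i) := by
    intro i; rw [pderiv_lf, ← C_mul]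
  rw [Finset.sum_congr rfl (fun i _ => this i), ← map_sum, hw, map_one]

lemma DD_nq (w : σ → ℝ) : DD w nq = 2 * lf w := by
  unfold DD lf
  rw [Finset.mul_sum]
  apply Finset.sum_congr rfl; intro i _
  rw [pderiv_nq]; ring

lemma Lap_mul (p q : MvPolynomial σ ℝ) :
    Lap (p*q) = Lap p * q + 2 * (∑ i, pderiv i p * pderiv i q) + p * Lap q := by
  unfold Lap
  rw [Finset.sum_mul, Finset.mul_sum, Finset.mul_sum, ← Finset.sum_add_distrib,
    ← Finset.sum_add_distrib]
  apply Finset.sum_congr rfl; intro i _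
  rw [pderiv_mul, map_add, pderiv_mul, pderiv_mul]; ring

lemma Lap_lf (w : σ → ℝ) : Lap (lf w) = 0 := by
  unfold Lap
  apply Finset.sum_eq_zero; intro i _
  rw [pderiv_lf, pderiv_C]

lemma Lap_nq : Lap (nq : MvPolynomial σ ℝ) = 2 * (Fintype.card σ : MvPolynomial σ ℝ) := by
  unfold Lap
  have : ∀ i : σ, pderiv i (pderiv i (nq : MvPolynomial σ ℝ)) = 2 := by
    intro i
    rw [pderiv_nq, pderiv_mul, pderiv_X_self]
    have : pderiv i (2 : MvPolynomial σ ℝ) = 0 := by
      simpa using (pderiv i : Derivation ℝ (MvPolynomial σ ℝ) (MvPolynomial σ ℝ)).map_natCast 2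
    rw [this]; ring
  rw [Finset.sum_congr rfl (fun i _ => this i)]
  simp; ring

lemma Lap_natCast_mul (k : ℕ) (p : MvPolynomial σ ℝ) : Lap ((k : MvPolynomial σ ℝ) * p) = k * Lap p := by
  unfold Lap
  rw [Finset.mul_sum]
  apply Finset.sum_congr rfl; intro i _
  rw [← nsmul_eq_mul, map_nsmul, map_nsmul, nsmul_eq_mul]

lemma Lap_sub (p q : MvPolynomial σ ℝ) : Lap (p-q) = Lap p - Lap q := by
  unfold Lap
  rw [← Finset.sum_sub_distrib]
  apply Finset.sum_congr rfl; intro i _
  rw [map_sub, map_sub]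

lemma Lap_one : Lap (1 : MvPolynomial σ ℝ) = 0 := by
  unfold Lap
  apply Finset.sum_eq_zero; intro i _
  rw [pderiv_one, map_zero]

lemma Lap_lf_mul (w : σ → ℝ) (p : MvPolynomial σ ℝ) : Lap (lf w * p) = 2 * DD w p + lf w * Lap p := by
  rw [Lap_mul, Lap_lf]
  have : (∑ i, pderiv i (lf w) * pderiv i p) = DD w p := by
    unfold DD
    apply Finset.sum_congr rfl; intro i _
    rw [pderiv_lf]
  rw [this]; ring

lemma Lap_nq_mul (p : MvPolynomial σ ℝ) (l : ℕ) (hp : p.IsHomogeneous l) :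
    Lap (nq * p) = (2 * (Fintype.card σ : MvPolynomial σ ℝ) + 4 * (l : MvPolynomial σ ℝ)) * p + nq * Lap p := by
  rw [Lap_mul, Lap_nq]
  have : (∑ i, pderiv i (nq : MvPolynomial σ ℝ) * pderiv i p) = 2 * ((l : MvPolynomial σ ℝ) * p) := by
    rw [← nsmul_eq_mul, ← hp.sum_X_mul_pderiv, Finset.mul_sum]
    apply Finset.sum_congr rfl; intro i _
    rw [pderiv_nq]; ring
  rw [this]; ring

lemma isHomogeneous_lf (w : σ → ℝ) : (lf w).IsHomogeneous 1 :=
  IsHomogeneous.sum _ _ _ (fun i _ => isHomogeneous_C_mul_X _ _)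

lemma isHomogeneous_nq : (nq : MvPolynomial σ ℝ).IsHomogeneous 2 :=
  IsHomogeneous.sum _ _ _ (fun i _ => (isHomogeneous_X _ i).mul (isHomogeneous_X _ i))

/-- solid zonal harmonics with pole `w` in dimension `2d` -/
noncomputable def HH (d : ℕ) (w : σ → ℝ) : ℕ → MvPolynomial σ ℝ
  | 0 => 1
  | 1 => lf w
  | (l+2) => C ((((l:ℝ)+1)+2*d-2)⁻¹) * ((2*((l:MvPolynomial σ ℝ)+1)+2*(d:MvPolynomial σ ℝ)-2) * (lf w * HH d w (l+1))
      - ((l:MvPolynomial σ ℝ)+1) * (nq * HH d w l))

lemma HH_rec (d : ℕ) (hd : 1 ≤ d) (w : σ → ℝ) (l : ℕ) :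
    ((l:MvPolynomial σ ℝ)+1+2*(d:MvPolynomial σ ℝ)-2) * HH d w (l+2) =
      (2*((l:MvPolynomial σ ℝ)+1)+2*(d:MvPolynomial σ ℝ)-2) * (lf w * HH d w (l+1))
      - ((l:MvPolynomial σ ℝ)+1) * (nq * HH d w l) := by
  have h := (den_pos d hd l).ne'
  have h1 : ((l:MvPolynomial σ ℝ)+1+2*(d:MvPolynomial σ ℝ)-2) = C (((l:ℝ)+1)+2*d-2) := by
    have : (C (2:ℝ) : MvPolynomial σ ℝ) = 2 := map_ofNat C 2
    rw [map_sub, map_add, map_add, map_mul, map_natCast, map_natCast, map_one, this]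
  rw [h1, HH, ← mul_assoc, ← C_mul, mul_inv_cancel₀ h, map_one, one_mul]

lemma two_le_of {d : ℕ} (hd : 1 ≤ d) (l : ℕ) : ((l:MvPolynomial σ ℝ)+1+2*(d:MvPolynomial σ ℝ)-2) ≠ 0 := by
  have h := (den_pos d hd l).ne'
  have h1 : ((l:MvPolynomial σ ℝ)+1+2*(d:MvPolynomial σ ℝ)-2) = C (((l:ℝ)+1)+2*d-2) := by
    have : (C (2:ℝ) : MvPolynomial σ ℝ) = 2 := map_ofNat C 2
    rw [map_sub, map_add, map_add, map_mul, map_natCast, map_natCast, map_one, this]
  rw [h1, Ne, C_eq_zero]
  exact h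

lemma isHomogeneous_natCast (k : ℕ) : ((k:ℕ) : MvPolynomial σ ℝ).IsHomogeneous 0 := by
  have : ((k:ℕ) : MvPolynomial σ ℝ) = C (k:ℝ) := by rw [map_natCast]
  rw [this]; exact isHomogeneous_C _ _

lemma HH_homog (d : ℕ) (w : σ → ℝ) (l : ℕ) : (HH d w l).IsHomogeneous l := by
  induction l using Nat.twoStepInduction with
  | zero => rw [HH]; exact isHomogeneous_one _ _
  | one => rw [HH]; exact isHomogeneous_lf w
  | more l h1 h2 =>
    rw [HH]
    have e1 : (2*((l:MvPolynomial σ ℝ)+1)+2*(d:MvPolynomial σ ℝ)-2) = C (2*((l:ℝ)+1)+2*d-2) := by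
      have : (C (2:ℝ) : MvPolynomial σ ℝ) = 2 := map_ofNat C 2
      rw [map_sub, map_add, map_mul, map_mul, map_add, map_natCast, map_natCast, map_one, this]
    have e2 : ((l:MvPolynomial σ ℝ)+1) = C ((l:ℝ)+1) := by
      rw [map_add, map_natCast, map_one]
    rw [e1, e2]
    apply IsHomogeneous.C_mul
    apply IsHomogeneous.sub
    · apply IsHomogeneous.C_mul
      have := (isHomogeneous_lf w).mul h2
      have e : 1 + (l+1) = l+2 := by omega
      rw [e] at this; exact this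
    · apply IsHomogeneous.C_mul
      have := (isHomogeneous_nq (σ := σ)).mul h1
      have e : 2 + l = l+2 := by omega
      rw [e] at this; exact this

lemma DD_natCast_mul (w : σ → ℝ) (k : ℕ) (p : MvPolynomial σ ℝ) :
    DD w ((k : MvPolynomial σ ℝ) * p) = k * DD w p := by
  rw [DD_mul, DD_natCast]; ring

lemma HH_DD (d : ℕ) (hd : 1 ≤ d) {w : σ → ℝ} (hw : ∑ i, w i * w i = 1) (l : ℕ) :
    DD w (HH d w (l+1)) = ((l:MvPolynomial σ ℝ)+1) * HH d w l := by
  obtain ⟨k, hk⟩ : ∃ k, 2*d = k+2 := ⟨2*d-2, by omega⟩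
  have hk' : (2*(d:MvPolynomial σ ℝ)) = (k:MvPolynomial σ ℝ)+2 := by exact_mod_cast congrArg (Nat.cast (R := MvPolynomial σ ℝ)) hk
  -- derivative of the recursion
  have key : ∀ l : ℕ, ((l:MvPolynomial σ ℝ)+1+(k:MvPolynomial σ ℝ)) * DD w (HH d w (l+2)) =
      (2*((l:MvPolynomial σ ℝ)+1)+(k:MvPolynomial σ ℝ)) * (HH d w (l+1) + lf w * DD w (HH d w (l+1)))
      - ((l:MvPolynomial σ ℝ)+1) * (2 * lf w * HH d w l + nq * DD w (HH d w l)) := by
    intro l
    have h := HH_rec d hd w l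
    have h1 : ((l+1+k : ℕ):MvPolynomial σ ℝ) * HH d w (l+2) =
      ((2*(l+1)+k : ℕ):MvPolynomial σ ℝ) * (lf w * HH d w (l+1))
      - ((l+1 : ℕ):MvPolynomial σ ℝ) * (nq * HH d w l) := by
      push_cast
      linear_combination h - hk' * HH d w (l+2) + hk' * (lf w * HH d w (l+1))
    have h2 := congrArg (DD w) h1
    rw [DD_natCast_mul, DD_sub, DD_natCast_mul, DD_natCast_mul, DD_mul, DD_mul, DD_lf hw, DD_nq] at h2
    push_cast at h2
    linear_combination h2
  induction l using Nat.twoStepInduction with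
  | zero => rw [HH, HH, DD_lf hw]; push_cast; ring
  | one =>
    have h := key 0
    have hne := two_le_of (σ := σ) hd 0
    apply mul_left_cancel₀ hne
    simp only [Nat.cast_zero, zero_add] at h hne ⊢
    have e0 : HH d w 0 = 1 := rfl
    have e1 : HH d w 1 = lf w := rfl
    rw [e1, e0, DD_one, DD_lf hw] at h
    rw [e1]
    push_cast
    linear_combination h + hk' * (DD w (HH d w 2)) - 2 * hk' * lf w
  | more l ih1 ih2 =>
    have h := key (l+1)
    have hne := two_le_of (σ := σ) hd (l+1)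
    apply mul_left_cancel₀ hne
    rw [ih1, ih2] at h
    have hr := HH_rec d hd w l
    rw [hk'] at hr
    push_cast at h ⊢
    rw [hk']
    linear_combination h - ((l:MvPolynomial σ ℝ)+2)*hr

lemma HH_Lap (d : ℕ) (hd : 1 ≤ d) (hcard : Fintype.card σ = 2*d) {w : σ → ℝ}
    (hw : ∑ i, w i * w i = 1) (l : ℕ) : Lap (HH d w l) = 0 := by
  obtain ⟨k, hk⟩ : ∃ k, 2*d = k+2 := ⟨2*d-2, by omega⟩
  have hk' : (2*(d:MvPolynomial σ ℝ)) = (k:MvPolynomial σ ℝ)+2 := by exact_mod_cast congrArg (Nat.cast (R := MvPolynomial σ ℝ)) hk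
  induction l using Nat.twoStepInduction with
  | zero => rw [HH]; exact Lap_one
  | one => rw [HH]; exact Lap_lf w
  | more l ih1 ih2 =>
    have h := HH_rec d hd w l
    have h1 : ((l+1+k : ℕ):MvPolynomial σ ℝ) * HH d w (l+2) =
      ((2*(l+1)+k : ℕ):MvPolynomial σ ℝ) * (lf w * HH d w (l+1))
      - ((l+1 : ℕ):MvPolynomial σ ℝ) * (nq * HH d w l) := by
      rw [hk'] at h
      push_cast
      linear_combination h
    have h2 := congrArg Lap h1
    rw [Lap_natCast_mul, Lap_sub, Lap_natCast_mul, Lap_natCast_mul, Lap_lf_mul,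
      Lap_nq_mul _ l (HH_homog d w l), ih1, ih2, HH_DD d hd hw, hcard] at h2
    have hne := two_le_of (σ := σ) hd l
    apply mul_left_cancel₀ hne
    rw [hk']
    push_cast at h2
    rw [hk'] at h2
    linear_combination h2

lemma HH_lead (d : ℕ) (hd : 1 ≤ d) (l : ℕ) : ∃ κ : ℝ, 0 < κ ∧ ∀ w : σ → ℝ,
    ∃ R, HH d w l = C κ * lf w ^ l + nq * R := by
  induction l using Nat.twoStepInduction with
  | zero => exact ⟨1, one_pos, fun w => ⟨0, by rw [HH]; simp⟩⟩
  | one => exact ⟨1, one_pos, fun w => ⟨0, by rw [HH]; simp⟩⟩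
  | more l h1 h2 =>
    obtain ⟨κ, hκ, h⟩ := h2
    have hden := den_pos d hd l
    have hd1 : (1:ℝ) ≤ d := by exact_mod_cast hd
    refine ⟨(((l:ℝ)+1)+2*d-2)⁻¹ * ((2*((l:ℝ)+1)+2*d-2) * κ), ?_, fun w => ?_⟩
    · have : 0 < (2*((l:ℝ)+1)+2*d-2) := by
        have : (0:ℝ) ≤ l := Nat.cast_nonneg l
        linarith
      positivity
    obtain ⟨R, hR⟩ := h w
    have e1 : (2*((l:MvPolynomial σ ℝ)+1)+2*(d:MvPolynomial σ ℝ)-2) = C (2*((l:ℝ)+1)+2*d-2) := by
      have : (C (2:ℝ) : MvPolynomial σ ℝ) = 2 := map_ofNat C 2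
      rw [map_sub, map_add, map_mul, map_mul, map_add, map_natCast, map_natCast, map_one, this]
    refine ⟨C ((((l:ℝ)+1)+2*d-2)⁻¹) * (C (2*((l:ℝ)+1)+2*d-2) * (lf w * R)
      - ((l:MvPolynomial σ ℝ)+1) * HH d w l), ?_⟩
    rw [HH, e1, hR, C_mul, C_mul]
    ring

lemma HH_eval (d : ℕ) (hd : 1 ≤ d) (w u : σ → ℝ) (hu : ∑ i, u i * u i = 1) (l : ℕ) :
    eval u (HH d w l) = gP d (∑ i, w i * u i) l := by
  have hlf : eval u (lf w) = ∑ i, w i * u i := by unfold lf; simp
  have hnq : eval u (nq : MvPolynomial σ ℝ) = 1 := by unfold nq; simp [hu]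
  induction l using Nat.twoStepInduction with
  | zero => rw [HH, gP]; simp
  | one => rw [HH, gP]; exact hlf
  | more l h1 h2 =>
    rw [HH, gP]
    have e1 : (2*((l:MvPolynomial σ ℝ)+1)+2*(d:MvPolynomial σ ℝ)-2) = C (2*((l:ℝ)+1)+2*d-2) := by
      have : (C (2:ℝ) : MvPolynomial σ ℝ) = 2 := map_ofNat C 2
      rw [map_sub, map_add, map_mul, map_mul, map_add, map_natCast, map_natCast, map_one, this]
    have e2 : ((l:MvPolynomial σ ℝ)+1) = C ((l:ℝ)+1) := by
      rw [map_add, map_natCast, map_one]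
    rw [e1, e2]
    simp only [map_mul, map_sub, eval_C, hlf, hnq, h1, h2]
    field_simp

lemma HH_neg (d : ℕ) (w : σ → ℝ) (l : ℕ) :
    HH d (-w) l = (-1)^l * HH d w l := by
  have hlf : lf (-w) = - lf w := by
    unfold lf; rw [← Finset.sum_neg_distrib]
    apply Finset.sum_congr rfl; intro i _
    simp
  induction l using Nat.twoStepInduction with
  | zero => rw [HH, HH]; simp
  | one => rw [HH, HH, hlf]; simp
  | more l h1 h2 =>
    rw [HH, HH, h1, h2, hlf]
    rw [pow_succ, pow_succ]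
    ring

lemma continuous_coeff_HH (d : ℕ) (l : ℕ) (α : σ →₀ ℕ) :
    Continuous fun w : σ → ℝ => coeff α (HH d w l) := by
  have hX : ∀ (f : (σ → ℝ) → MvPolynomial σ ℝ), (∀ α, Continuous fun w => coeff α (f w)) →
      ∀ (i : σ) α, Continuous fun w => coeff α (X i * f w) := by
    intro f hf i α
    simp_rw [coeff_X_mul']
    split_ifs
    · exact hf _
    · exact continuous_const
  have hlf : ∀ (f : (σ → ℝ) → MvPolynomial σ ℝ), (∀ α, Continuous fun w => coeff α (f w)) →
      ∀ α, Continuous fun w => coeff α (lf w * f w) := by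
    intro f hf α
    unfold lf
    simp_rw [Finset.sum_mul, coeff_sum, mul_assoc, coeff_C_mul]
    apply continuous_finsetSum
    intro i _
    exact (continuous_apply i).mul (hX f hf i α)
  have hnq : ∀ (f : (σ → ℝ) → MvPolynomial σ ℝ), (∀ α, Continuous fun w => coeff α (f w)) →
      ∀ α, Continuous fun w => coeff α (nq * f w) := by
    intro f hf α
    unfold nq
    simp_rw [Finset.sum_mul, coeff_sum, mul_assoc]
    apply continuous_finsetSum
    intro i _
    exact hX _ (hX f hf i) i α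
  induction l using Nat.twoStepInduction generalizing α with
  | zero => simp only [HH]; exact continuous_const
  | one =>
    have := hlf (fun _ => 1) (fun α => continuous_const) α
    simp only [mul_one] at this
    simpa only [HH] using this
  | more l h1 h2 =>
    simp only [HH]
    have e1 : (2*((l:MvPolynomial σ ℝ)+1)+2*(d:MvPolynomial σ ℝ)-2) = C (2*((l:ℝ)+1)+2*d-2) := by
      have : (C (2:ℝ) : MvPolynomial σ ℝ) = 2 := map_ofNat C 2
      rw [map_sub, map_add, map_mul, map_mul, map_add, map_natCast, map_natCast, map_one, this]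
    have e2 : ((l:MvPolynomial σ ℝ)+1) = C ((l:ℝ)+1) := by
      rw [map_add, map_natCast, map_one]
    rw [e1, e2]
    simp_rw [coeff_C_mul, coeff_sub, coeff_C_mul]
    exact continuous_const.mul ((continuous_const.mul (hlf _ h2 α)).sub
      (continuous_const.mul (hnq _ h1 α)))

/-- the index set -/
noncomputable def Tl (σ : Type) [Fintype σ] [DecidableEq σ] (l : ℕ) : Finset (σ →₀ ℕ) :=
  (Finset.univ : Finset σ).finsuppAntidiag l

lemma support_subset_Tl {p : MvPolynomial σ ℝ} {l : ℕ} (hp : p.IsHomogeneous l) :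
    p.support ⊆ Tl σ l := by
  intro α hα
  unfold Tl
  rw [Finset.mem_finsuppAntidiag]
  have h := hp (mem_support_iff.1 hα)
  constructor
  · rw [← h]
    simp [Finsupp.weight_apply, Finsupp.sum_fintype]
  · exact Finset.subset_univ _

/-- the zonal kernels are positive semidefinite, with explicit finite feature maps -/
theorem psd (d : ℕ) (hd : 1 ≤ d) (hcard : Fintype.card σ = 2*d) (l : ℕ) :
    ∃ φ : (σ →₀ ℕ) → (σ → ℝ) → ℝ, (∀ α, Continuous (φ α)) ∧
      (∀ α w, φ α (-w) = (-1)^l * φ α w) ∧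
      ∀ u w : σ → ℝ, (∑ i, u i * u i = 1) → (∑ i, w i * w i = 1) →
        gP d (∑ i, u i * w i) l = ∑ α ∈ Tl σ l, φ α u * φ α w := by
  obtain ⟨κ, hκ, hlead⟩ := HH_lead (σ := σ) d hd l
  have hc : 0 < κ * l.factorial := mul_pos hκ (by exact_mod_cast Nat.factorial_pos l)
  refine ⟨fun α w => Real.sqrt (fac α / (κ * l.factorial)) * coeff α (HH d w l), ?_, ?_, ?_⟩
  · intro α
    exact continuous_const.mul (continuous_coeff_HH d l α)
  · intro α w
    simp only
    rw [HH_neg]
    have : ((-1)^l * HH d w l : MvPolynomial σ ℝ) = C ((-1)^l) * HH d w l := by simp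
    rw [this, coeff_C_mul]; ring
  · intro u w hu hw
    obtain ⟨R, hR⟩ := hlead w
    have h1 : fB (HH d u l) (HH d w l) = κ * l.factorial * gP d (∑ i, u i * w i) l := by
      rw [hR, map_add, fB_nq_mul, HH_Lap d hd hcard hu, fB_zero, add_zero, C_mul', map_smul,
        smul_eq_mul, fB_lf_pow w l _ (HH_homog d u l), HH_eval d hd u w hw]
      ring
    have h2 := fB_eq_sum (HH d u l) (HH d w l) (Tl σ l) (support_subset_Tl (HH_homog d w l))
    rw [h2] at h1
    have h3 : gP d (∑ i, u i * w i) l = (∑ α ∈ Tl σ l, fac α * coeff α (HH d u l) * coeff α (HH d w l))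
        / (κ * l.factorial) := by
      rw [h1]; field_simp
    rw [h3, Finset.sum_div]
    apply Finset.sum_congr rfl
    intro α _
    have h4 : 0 ≤ fac α / (κ * l.factorial) := div_nonneg (fac_pos α).le hc.le
    have h5 := Real.mul_self_sqrt h4
    calc fac α * coeff α (HH d u l) * coeff α (HH d w l) / (κ * l.factorial)
        = (fac α / (κ * l.factorial)) * (coeff α (HH d u l) * coeff α (HH d w l)) := by ring
      _ = _ := by rw [← h5]; ring

end Pool.Agent.Lib.Angles.Sph
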