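import Pool.Agent.Lib.Angles.SphereRec

open PowerSeries

namespace Pool.Agent.Lib.Angles.Sph

/-- the coefficient `binom(l+2e+1, l)` -/
noncomputable def bC (e l : ℕ) : ℝ := (Nat.choose (l+2*e+1) l : ℝ)

/-- dimension of the space of harmonics in dimension `2e+4` -/
noncomputable def nN (e l : ℕ) : ℝ := ((l:ℝ)+e+1)/((e:ℝ)+1) * bC e l

lemma bC_nonneg (e l : ℕ) : 0 ≤ bC e l := by unfold bC; positivity
lemma nN_nonneg (e l : ℕ) : 0 ≤ nN e l := by
  unfold nN; have := bC_nonneg e l; positivity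
lemma nN_zero (e : ℕ) : nN e 0 = 1 := by
  unfold nN bC
  have : ((e:ℝ)+1) ≠ 0 := by positivity
  simp [div_self this]

lemma bC_succ (e l : ℕ) : ((l:ℝ)+1) * bC e (l+1) = ((l:ℝ)+2*e+2) * bC e l := by
  unfold bC
  have h := Nat.add_one_mul_choose_eq (l+2*e+1) l
  have h2 : (((l+2*e+1+1 : ℕ):ℝ) * ((l+2*e+1).choose l : ℝ)) = (((l+2*e+1+1).choose (l+1) : ℝ) * ((l+1:ℕ):ℝ)) := by
    exact_mod_cast h
  have e1 : l + 1 + 2*e + 1 = l+2*e+1+1 := by omega
  rw [e1]
  push_cast at h2 ⊢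
  linarith

lemma bC_gP_rec (e : ℕ) (x : ℝ) (l : ℕ) :
    ((l:ℝ)+2) * (bC e (l+2) * gP (e+2) x (l+2)) =
      2*((l:ℝ)+e+2)*x*(bC e (l+1) * gP (e+2) x (l+1)) - ((l:ℝ)+2*e+2)*(bC e l * gP (e+2) x l) := by
  have h1 := bC_succ e (l+1)
  have h2 := bC_succ e l
  have h3 := gP_rec (e+2) (by omega) x l
  push_cast at h1 h3
  have h4 : ((l:ℝ)+1+2*(e+2)-2) = (l:ℝ)+1+2*e+2 := by ring
  have h5 : ((l:ℝ)+2) * bC e (l+2) * gP (e+2) x (l+2)
      = bC e (l+1) * (((l:ℝ)+1+2*(e+2)-2) * gP (e+2) x (l+2)) := by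
    have : ((l:ℝ)+2) * bC e (l+2) = ((l:ℝ)+1+2*e+2) * bC e (l+1) := by
      have : ((l:ℝ)+1+1) = (l:ℝ)+2 := by ring
      rw [this] at h1
      exact h1
    rw [this, h4]; ring
  rw [h3] at h5
  linear_combination h5 - gP (e+2) x l * h2

noncomputable def gG (e : ℕ) (x : ℝ) : ℝ⟦X⟧ := mk fun l => bC e l * gP (e+2) x l
noncomputable def gF (e : ℕ) (x : ℝ) : ℝ⟦X⟧ := mk fun l => nN e l * gP (e+2) x l
noncomputable def qq (x : ℝ) : ℝ⟦X⟧ := 1 - C (2*x) * X + X * X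

lemma gG_ode (e : ℕ) (x : ℝ) :
    qq x * derivative ℝ (gG e x) = C (2*((e:ℝ)+1)) * (C x - X) * gG e x := by
  ext l
  have hL : qq x * derivative ℝ (gG e x) = derivative ℝ (gG e x) - C (2*x) * (X * derivative ℝ (gG e x))
      + X * (X * derivative ℝ (gG e x)) := by
    unfold qq; ring
  have hR : C (2*((e:ℝ)+1)) * (C x - X) * gG e x = C (2*((e:ℝ)+1)) * (C x * gG e x)
      - C (2*((e:ℝ)+1)) * (X * gG e x) := by ring
  rw [hL, hR]
  simp only [map_add, map_sub, coeff_C_mul]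
  rcases l with _ | _ | l
  · simp only [coeff_zero_X_mul, coeff_derivative, gG, coeff_mk]
    have h1 := bC_succ e 0
    simp only [Nat.cast_zero, zero_add, one_mul] at h1
    simp only [gP_zero, gP_one, zero_add, Nat.cast_zero]
    rw [h1]; ring
  · simp only [coeff_succ_X_mul, coeff_zero_X_mul, coeff_derivative, gG, coeff_mk, zero_add]
    have h := bC_gP_rec e x 0
    simp only [Nat.cast_zero, zero_add] at h
    push_cast
    have h2 := bC_succ e 0
    simp only [Nat.cast_zero, zero_add, one_mul] at h2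
    linear_combination h
  · simp only [coeff_succ_X_mul, coeff_derivative, gG, coeff_mk]
    have h := bC_gP_rec e x (l+1)
    push_cast at h ⊢
    linear_combination h

lemma derivative_qq (x : ℝ) : derivative ℝ (qq x) = C (-(2*x)) + C 2 * X := by
  unfold qq
  simp only [map_add, map_sub, Derivation.leibniz, derivative_C, derivative_X, smul_eq_mul,
    Derivation.map_one_eq_zero, mul_one, map_neg, mul_zero, add_zero]
  have : (C (2:ℝ) : ℝ⟦X⟧) = 1 + 1 := by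
    rw [← one_add_one_eq_two, map_add, map_one]
  rw [this]; ring

lemma qq_pow_gG (e : ℕ) (x : ℝ) : qq x ^ (e+1) * gG e x = 1 := by
  apply PowerSeries.derivative.ext
  · rw [Derivation.leibniz, derivative_pow, derivative_qq]
    have hode := gG_ode e x
    simp only [smul_eq_mul, Nat.add_sub_cancel, Derivation.map_one_eq_zero]
    have e1 : qq x ^ (e+1) * derivative ℝ (gG e x) = qq x ^ e * (qq x * derivative ℝ (gG e x)) := by
      ring
    rw [e1, hode]
    have e2 : (C (2*((e:ℝ)+1)) : ℝ⟦X⟧) = C 2 * ((e:ℝ⟦X⟧)+1) := by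
      rw [map_mul, map_add, map_one, map_natCast]
    have e3 : (C (-(2*x)) : ℝ⟦X⟧) = - (C 2 * C x) := by
      rw [map_neg, map_mul]
    rw [e2, e3]
    push_cast
    ring
  · have h1 : constantCoeff (qq x) = 1 := by
      unfold qq; simp
    have h2 : constantCoeff (gG e x) = 1 := by
      rw [← coeff_zero_eq_constantCoeff_apply]
      unfold gG
      simp [bC, gP_zero]
    rw [map_mul, map_pow, h1, h2]
    simp

lemma gF_eq (e : ℕ) (x : ℝ) :
    C ((e:ℝ)+1) * gF e x = C ((e:ℝ)+1) * gG e x + X * derivative ℝ (gG e x) := by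
  have he : ((e:ℝ)+1) ≠ 0 := by positivity
  obtain ⟨c, hc⟩ : ∃ c : ℝ, c = (e:ℝ)+1 := ⟨_, rfl⟩
  rw [← hc] at he ⊢
  ext l
  rw [map_add, coeff_C_mul, coeff_C_mul]
  rcases l with _ | l
  · simp only [coeff_zero_X_mul, gF, gG, coeff_mk, nN]
    simp only [Nat.cast_zero, zero_add, ← hc, div_self he]
    ring
  · simp only [coeff_succ_X_mul, coeff_derivative, gF, gG, coeff_mk, nN]
    push_cast
    rw [← hc]
    have : ((l:ℝ)+1+e+1) = (l:ℝ)+1+c := by rw [hc]; ring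
    rw [this]
    field_simp
    ring

lemma qq_pow_gF (e : ℕ) (x : ℝ) : qq x ^ (e+2) * gF e x = 1 - X * X := by
  have he : ((e:ℝ)+1) ≠ 0 := by positivity
  have h1 : C ((e:ℝ)+1) * (qq x * gF e x) = C ((e:ℝ)+1) * ((1 - X*X) * gG e x) := by
    have e1 : C ((e:ℝ)+1) * (qq x * gF e x) = qq x * (C ((e:ℝ)+1) * gF e x) := by ring
    rw [e1, gF_eq, mul_add]
    have e2 : qq x * (X * derivative ℝ (gG e x)) = X * (qq x * derivative ℝ (gG e x)) := by ring
    rw [e2, gG_ode]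
    have e4 : (C (2*((e:ℝ)+1)) : ℝ⟦X⟧) = 2 * C ((e:ℝ)+1) := by
      rw [map_mul]
      congr 1
    rw [e4]
    unfold qq
    have e5 : (C (2*x) : ℝ⟦X⟧) = 2 * C x := by
      rw [map_mul]
      congr 1
    rw [e5]
    ring
  have h2 : qq x * gF e x = (1 - X*X) * gG e x := by
    have h3 : C (((e:ℝ)+1)⁻¹) * (C ((e:ℝ)+1) * (qq x * gF e x)) =
      C (((e:ℝ)+1)⁻¹) * (C ((e:ℝ)+1) * ((1 - X*X) * gG e x)) := by rw [h1]
    rw [← mul_assoc (C (((e:ℝ)+1)⁻¹)) _ (qq x * gF e x),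
      ← mul_assoc (C (((e:ℝ)+1)⁻¹)) _ ((1 - X*X) * gG e x), ← map_mul, inv_mul_cancel₀ he, map_one,
      one_mul, one_mul] at h3
    exact h3
  have e3 : qq x ^ (e+2) * gF e x = qq x ^ (e+1) * (qq x * gF e x) := by ring
  rw [e3, h2]
  have e4 : qq x ^ (e+1) * ((1 - X*X) * gG e x) = (1 - X*X) * (qq x ^ (e+1) * gG e x) := by ring
  rw [e4, qq_pow_gG, mul_one]

lemma hasSum_congr' {f g : ℕ → ℂ} {S : ℂ} (h : ∀ l, f l = g l) (hg : HasSum g S) : HasSum f S := by
  rw [show f = g from funext h]; exact hg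

/-- summation of a real power series at a complex point -/
def HS (A : ℝ⟦X⟧) (z S : ℂ) : Prop := HasSum (fun l => ((coeff l A : ℝ):ℂ) * z^l) S

lemma HS.add {A B : ℝ⟦X⟧} {z S T : ℂ} (h : HS A z S) (h' : HS B z T) : HS (A+B) z (S+T) := by
  exact hasSum_congr' (fun l => by rw [map_add]; push_cast; ring) (HasSum.add h h')

lemma HS.sub {A B : ℝ⟦X⟧} {z S T : ℂ} (h : HS A z S) (h' : HS B z T) : HS (A-B) z (S-T) := by
  exact hasSum_congr' (fun l => by rw [map_sub]; push_cast; ring) (HasSum.sub h h')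

lemma HS.C_mul {A : ℝ⟦X⟧} {z S : ℂ} (c : ℝ) (h : HS A z S) : HS (C c * A) z (c*S) := by
  exact hasSum_congr' (fun l => by rw [coeff_C_mul]; push_cast; ring) (HasSum.mul_left (c:ℂ) h)

lemma HS.X_mul {A : ℝ⟦X⟧} {z S : ℂ} (h : HS A z S) : HS (X * A) z (z*S) := by
  unfold HS at *
  have h1 := h.mul_left z
  rw [← hasSum_nat_add_iff' 1]
  simp only [coeff_succ_X_mul, Finset.range_one, Finset.sum_singleton, coeff_zero_X_mul,
    Complex.ofReal_zero, zero_mul, sub_zero]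
  exact hasSum_congr' (fun l => by ring) h1

lemma HS.qq_mul {A : ℝ⟦X⟧} {z S : ℂ} (x : ℝ) (h : HS A z S) :
    HS (qq x * A) z ((1 - 2*x*z + z^2)*S) := by
  have h1 := (h.sub (h.X_mul.C_mul (2*x))).add (h.X_mul.X_mul)
  have e1 : qq x * A = A - C (2*x) * (X * A) + X * (X * A) := by unfold qq; ring
  rw [e1]
  convert h1 using 1
  push_cast; ring

lemma HS.qq_pow_mul {A : ℝ⟦X⟧} {z S : ℂ} (x : ℝ) (h : HS A z S) (k : ℕ) :
    HS (qq x ^ k * A) z ((1 - 2*x*z + z^2)^k*S) := by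
  induction k with
  | zero => simpa using h
  | succ k ih =>
    have := ih.qq_mul x
    convert this using 1
    · ring
    · ring

lemma HS_one (z : ℂ) : HS 1 z 1 := by
  unfold HS
  convert hasSum_ite_eq (0:ℕ) (1:ℂ) using 2 with l
  rw [coeff_one]
  split_ifs with h
  · simp [h]
  · simp

lemma nN_summable (e : ℕ) {r : ℝ} (hr0 : 0 ≤ r) (hr : r < 1) : Summable fun l => nN e l * r^l := by
  have h1 : Summable fun l : ℕ => ((l + (2*e+2)).choose (2*e+2) : ℝ) * r^l := by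
    apply summable_choose_mul_geometric_of_norm_lt_one
    rwa [Real.norm_eq_abs, abs_of_nonneg hr0]
  apply Summable.of_nonneg_of_le (fun l => mul_nonneg (nN_nonneg e l) (pow_nonneg hr0 l)) ?_
    (h1.mul_left (2*(e:ℝ)+2))
  intro l
  have h2 : nN e l ≤ (2*(e:ℝ)+2) * ((l + (2*e+2)).choose (2*e+2) : ℝ) := by
    have h3 : ((l:ℝ)+e+1)/((e:ℝ)+1) ≤ ((l:ℝ)+2*e+2) := by
      rw [div_le_iff₀ (by positivity)]
      have : (0:ℝ) ≤ l := Nat.cast_nonneg l
      have : (0:ℝ) ≤ e := Nat.cast_nonneg e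
      nlinarith
    have h4 : ((l:ℝ)+2*e+2) * bC e l = (2*(e:ℝ)+2) * ((l + (2*e+2)).choose (2*e+2) : ℝ) := by
      have h := Nat.add_one_mul_choose_eq (l+2*e+1) (2*e+1)
      have h5 : (l+2*e+1).choose (2*e+1) = (l+2*e+1).choose l := by
        apply Nat.choose_symm_of_eq_add; omega
      rw [h5] at h
      have h6 : (((l+2*e+1+1 : ℕ):ℝ) * ((l+2*e+1).choose l : ℝ)) =
        (((l+2*e+1+1).choose (2*e+1+1) : ℝ) * ((2*e+1+1:ℕ):ℝ)) := by
        exact_mod_cast h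
      unfold bC
      have e1 : l + (2*e+2) = l+2*e+1+1 := by omega
      have e2 : 2*e+2 = 2*e+1+1 := by omega
      rw [e1, e2]
      push_cast at h6 ⊢
      linarith
    unfold nN
    rw [← h4]
    exact mul_le_mul_of_nonneg_right h3 (bC_nonneg e l)
  calc nN e l * r^l ≤ ((2*(e:ℝ)+2) * ((l + (2*e+2)).choose (2*e+2) : ℝ)) * r^l :=
        mul_le_mul_of_nonneg_right h2 (pow_nonneg hr0 l)
    _ = _ := by ring

/-- the Poisson type kernel -/
noncomputable def Fk (e : ℕ) (z : ℂ) (x : ℝ) : ℂ := (1 - z^2) / (1 - 2*x*z + z^2)^(e+2)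

lemma q_ne_zero {z : ℂ} {x : ℝ} (hx : |x| ≤ 1) (hz : ‖z‖ < 1) : 1 - 2*(x:ℂ)*z + z^2 ≠ 0 := by
  intro h
  have h1 : 0 ≤ 1 - x^2 := by
    have := abs_le.1 hx
    nlinarith [this.1, this.2]
  set s := Real.sqrt (1-x^2) with hs
  have hs2 : s^2 = 1 - x^2 := Real.sq_sqrt h1
  have hs2' : (s:ℂ)^2 = 1 - (x:ℂ)^2 := by exact_mod_cast congrArg (fun r : ℝ => (r:ℂ)) hs2
  have hI : Complex.I^2 = -1 := Complex.I_sq
  have h2 : (z - x - Complex.I * s) * (z - x + Complex.I*s) = 0 := by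
    linear_combination h - (s:ℂ)^2 * hI + hs2'
  have hn : ∀ y : ℝ, y^2 = s^2 → ‖(x:ℂ) + Complex.I * y‖ = 1 := by
    intro y hy
    have h3 : ‖(x:ℂ) + Complex.I * y‖^2 = 1 := by
      rw [Complex.sq_norm, Complex.normSq_apply]
      simp
      nlinarith
    have h4 := norm_nonneg ((x:ℂ) + Complex.I * y)
    nlinarith
  rcases mul_eq_zero.1 h2 with h3 | h3
  · have h4 : z = (x:ℂ) + Complex.I * (s:ℝ) := by linear_combination h3
    have h5 := hn s rfl
    rw [← h4] at h5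
    linarith
  · have h4 : z = (x:ℂ) + Complex.I * ((-s:ℝ):ℂ) := by push_cast; linear_combination h3
    have h5 := hn (-s) (by ring)
    rw [← h4] at h5
    linarith

lemma norm_term_le (e : ℕ) (z : ℂ) {x : ℝ} (hx : |x| ≤ 1) (l : ℕ) :
    ‖((nN e l * gP (e+2) x l : ℝ):ℂ) * z^l‖ ≤ nN e l * ‖z‖^l := by
  rw [norm_mul, Complex.norm_real, norm_pow, Real.norm_eq_abs, abs_mul, abs_of_nonneg (nN_nonneg e l)]
  apply mul_le_mul_of_nonneg_right _ (by positivity)
  have := abs_gP_le_one (e+2) (by omega) hx l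
  have h2 := nN_nonneg e l
  nlinarith

/-- the generating function -/
theorem hasSum_Fk (e : ℕ) {z : ℂ} {x : ℝ} (hx : |x| ≤ 1) (hz : ‖z‖ < 1) :
    HasSum (fun l => ((nN e l * gP (e+2) x l : ℝ):ℂ) * z^l) (Fk e z x) := by
  have hsum : Summable (fun l => ((nN e l * gP (e+2) x l : ℝ):ℂ) * z^l) := by
    apply Summable.of_norm_bounded (nN_summable e (norm_nonneg z) hz)
    intro l
    exact norm_term_le e z hx l
  obtain ⟨S, hS⟩ := hsum
  have h1 : HS (gF e x) z S := by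
    unfold HS gF
    simpa using hS
  have h2 := h1.qq_pow_mul x (e+2)
  rw [qq_pow_gF] at h2
  have h3 : HS (1 - X * X) z (1 - z * z) := by
    have h4 := (HS_one z).X_mul
    have h5 := h4.X_mul
    have h6 := (HS_one z).sub h5
    simpa using h6
  have h4 := h2.unique h3
  have hq := q_ne_zero hx hz
  have h5 : S = Fk e z x := by
    unfold Fk
    rw [eq_div_iff (pow_ne_zero _ hq)]
    linear_combination h4
  rw [← h5]; exact hS

end Pool.Agent.Lib.Angles.Sph
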