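import Pool.Agent.Lib.Angles.SphereSteps

open MeasureTheory Set
open scoped ENNReal

namespace Pool.Agent.Lib.Angles

namespace Sph

variable {d : ℕ}

lemma sum_sq_of_norm {n : ℕ} {u : EuclideanSpace ℝ (Fin n)} (hu : ‖u‖ = 1) :
    ∑ i, u.ofLp i * u.ofLp i = 1 := by
  have h := EuclideanSpace.real_norm_sq_eq u
  rw [hu] at h
  rw [show (1:ℝ) = 1^2 by norm_num, h]
  apply Finset.sum_congr rfl; intro i _; ring

lemma inner_eq_sum {n : ℕ} (u w : EuclideanSpace ℝ (Fin n)) :
    (inner ℝ u w : ℝ) = ∑ i, u.ofLp i * w.ofLp i := by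
  rw [PiLp.inner_apply]
  apply Finset.sum_congr rfl; intro i _
  simp [mul_comm]

lemma continuous_ofLp' {n : ℕ} : Continuous fun u : EuclideanSpace ℝ (Fin n) => (u.ofLp : Fin n → ℝ) :=
  PiLp.continuous_ofLp 2 _

end Sph

open Sph

theorem sphere_main (d g : ℕ) (hd : 2*g+2 ≤ d) (t : ℝ) (ht0 : t ≠ 0) (ht1 : |t| < 1) :
    ∃ (ι : Type) (_ : Fintype ι) (Φ : EuclideanSpace ℝ (Fin (2*d)) → EuclideanSpace ℝ ι),
      Continuous Φ ∧ (∀ u, Φ (-u) = -Φ u) ∧
      ∀ (lam : Measure (EuclideanSpace ℝ (Fin (2*d)))) [IsFiniteMeasure lam]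
        (S : Set (EuclideanSpace ℝ (Fin (2*d)))), IsCompact S → (∀ u ∈ S, ‖u‖ = 1) → lam Sᶜ = 0 →
        ∀ I : ℝ, 0 ≤ I → (∫⁻ u, ∫⁻ w, pot (d-g) u w ∂lam ∂lam) ≤ ENNReal.ofReal I →
          ‖∫ u, Φ u ∂lam‖^2 ≤ 4*((d:ℝ)-1)*(2/(1-t^2))^(2*g) * I ∧
          ((∀ u ∈ S, ∀ w ∈ S, (inner ℝ u w : ℝ) ≠ t) →
            (lam univ).toReal^2 ≤ ‖∫ u, Φ u ∂lam‖^2 + tailB d g t * I) := by
  obtain ⟨e, rfl⟩ : ∃ e, d = e + 2 := ⟨d-2, by omega⟩
  have hg : 2*g ≤ e := by omega
  have hcard : Fintype.card (Fin (2*(e+2))) = 2*(e+2) := by simp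
  choose φ hφc hφn hφ using fun l => psd (σ := Fin (2*(e+2))) (e+2) (by omega) hcard l
  set L : ℕ := Nat.floor ((((e+2:ℕ):ℝ)-1)*t^2/2) with hL
  have h1t := abs_lt.1 ht1
  have h2t : 0 < 1 - t^2 := by nlinarith [h1t.1, h1t.2]
  -- coefficient
  set co : ℕ → ℝ := fun l => if gP (e+2) t l < 0 then Real.sqrt (nN e l * |gP (e+2) t l|) else 0 with hco
  refine ⟨(Σ l : Fin (L+1), {α // α ∈ Tl (Fin (2*(e+2))) l}), inferInstance,
    fun u => WithLp.toLp 2 (fun x => co x.1 * φ x.1 x.2.1 u.ofLp), ?_, ?_, ?_⟩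
  · apply (PiLp.continuous_toLp 2 _).comp
    apply continuous_pi
    intro x
    exact continuous_const.mul ((hφc _ _).comp continuous_ofLp')
  · intro u
    ext x
    simp only [WithLp.ofLp_neg, PiLp.neg_apply]
    rw [hφn]
    by_cases h : gP (e+2) t x.1 < 0
    · have hodd : Odd (x.1 : ℕ) := gP_neg_odd (e+2) (by omega) t ht0 ht1 x.1
        (by have := x.1.2; omega) h
      rw [hodd.neg_one_pow]; ring
    · simp [hco, h]
  · intro lam hfin S hK hS1 hS0 I hI hpot
    have D : Dat e lam S := ⟨hK, hS1, hS0⟩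
    have hcomp : ∀ l α, Continuous fun u : EuclideanSpace ℝ (Fin (2*(e+2))) => φ l α u.ofLp :=
      fun l α => (hφc l α).comp continuous_ofLp'
    -- energies
    have hEn : ∀ l, En (e+2) lam l = ∑ α ∈ Tl (Fin (2*(e+2))) l, (∫ u, φ l α u.ofLp ∂lam)^2 := by
      intro l
      unfold En
      have h1 : ∫ p : EuclideanSpace ℝ (Fin (2*(e+2))) × EuclideanSpace ℝ (Fin (2*(e+2))),
          gP (e+2) (inner ℝ p.1 p.2) l ∂(lam.prod lam) =
          ∫ p : EuclideanSpace ℝ (Fin (2*(e+2))) × EuclideanSpace ℝ (Fin (2*(e+2))),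
            ∑ α ∈ Tl (Fin (2*(e+2))) l, φ l α p.1.ofLp * φ l α p.2.ofLp ∂(lam.prod lam) := by
        apply integral_congr_ae
        filter_upwards [ae_mem_prod hS0] with p hp
        rw [inner_eq_sum]
        exact hφ l _ _ (sum_sq_of_norm (hS1 _ hp.1)) (sum_sq_of_norm (hS1 _ hp.2))
      rw [h1, integral_finsetSum]
      · apply Finset.sum_congr rfl
        intro α _
        rw [integral_prod_mul (fun u : EuclideanSpace ℝ (Fin (2*(e+2))) => φ l α u.ofLp)
          (fun u : EuclideanSpace ℝ (Fin (2*(e+2))) => φ l α u.ofLp)]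
        ring
      · intro α _
        apply D.integrable_prod
        apply Continuous.continuousOn
        exact ((hcomp l α).comp continuous_fst).mul ((hcomp l α).comp continuous_snd)
    have hE : ∀ l, 0 ≤ En (e+2) lam l := by
      intro l; rw [hEn]; exact Finset.sum_nonneg fun α _ => sq_nonneg _
    -- the norm of the integral
    set Ng := (Finset.range (L+1)).filter (fun l => gP (e+2) t l < 0) with hNg
    set A := ∑ l ∈ Ng, nN e l * |gP (e+2) t l| * En (e+2) lam l with hA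
    have hnorm : ‖∫ u, (WithLp.toLp 2 (fun x : (Σ l : Fin (L+1), {α // α ∈ Tl (Fin (2*(e+2))) l}) =>
        co x.1 * φ x.1 x.2.1 u.ofLp) : EuclideanSpace ℝ _) ∂lam‖^2 = A := by
      have hint : Integrable (fun u : EuclideanSpace ℝ (Fin (2*(e+2))) =>
          (WithLp.toLp 2 (fun x : (Σ l : Fin (L+1), {α // α ∈ Tl (Fin (2*(e+2))) l}) =>
          co x.1 * φ x.1 x.2.1 u.ofLp) : EuclideanSpace ℝ _)) lam := by
        apply D.integrable
        apply (PiLp.continuous_toLp 2 _).comp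
        apply continuous_pi
        intro x
        exact continuous_const.mul (hcomp _ _)
      rw [EuclideanSpace.real_norm_sq_eq]
      have h1 : ∀ x : (Σ l : Fin (L+1), {α // α ∈ Tl (Fin (2*(e+2))) l}),
          (∫ u, (WithLp.toLp 2 (fun x : (Σ l : Fin (L+1), {α // α ∈ Tl (Fin (2*(e+2))) l}) =>
            co x.1 * φ x.1 x.2.1 u.ofLp) : EuclideanSpace ℝ _) ∂lam).ofLp x
          = co x.1 * ∫ u, φ x.1 x.2.1 u.ofLp ∂lam := by
        intro x
        have h2 := (EuclideanSpace.proj (𝕜 := ℝ) x).integral_comp_comm hint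
        refine h2.symm.trans ?_
        have h3 : ∀ u : EuclideanSpace ℝ (Fin (2*(e+2))), (EuclideanSpace.proj (𝕜 := ℝ) x)
            (WithLp.toLp 2 (fun x : (Σ l : Fin (L+1), {α // α ∈ Tl (Fin (2*(e+2))) l}) =>
            co x.1 * φ x.1 x.2.1 u.ofLp) : EuclideanSpace ℝ _) = co x.1 * φ x.1 x.2.1 u.ofLp :=
          fun u => rfl
        simp_rw [h3]
        rw [integral_const_mul]
      simp_rw [h1]
      rw [Fintype.sum_sigma]
      rw [hA, hNg, Finset.sum_filter, Finset.sum_range]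
      apply Finset.sum_congr rfl
      intro l _
      simp only
      rw [hEn]
      have h3 : ∑ x : {α // α ∈ Tl (Fin (2*(e+2))) l}, (co l * ∫ u, φ l x.1 u.ofLp ∂lam)^2
          = ∑ α ∈ Tl (Fin (2*(e+2))) l, (co l * ∫ u, φ l α u.ofLp ∂lam)^2 :=
        Finset.sum_coe_sort (Tl (Fin (2*(e+2))) l) (fun α => (co l * ∫ u, φ l α u.ofLp ∂lam)^2)
      rw [h3]
      by_cases h : gP (e+2) t l < 0
      · rw [if_pos h, Finset.mul_sum]
        apply Finset.sum_congr rfl
        intro α _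
        simp only [hco, if_pos h]
        rw [mul_pow, Real.sq_sqrt (mul_nonneg (nN_nonneg e l) (abs_nonneg _))]
      · rw [if_neg h]
        apply Finset.sum_eq_zero
        intro α _
        simp [hco, h]
    rw [hnorm]
    have hZ := Zc_ge (e+2) (by omega)
    have hZ0 := Zc_pos (e+2) (by omega)
    have hd1 : 0 < (((e+2:ℕ):ℝ)-1) := by
      push_cast; have : (0:ℝ) ≤ e := Nat.cast_nonneg e
      linarith
    have hZ1 : 1 ≤ (((e+2:ℕ):ℝ)-1) * Zc (e+2) := by
      rw [div_le_iff₀ hd1] at hZ; linarith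
    have hb0 : 0 ≤ (2/(1-t^2))^(2*g) := by positivity
    have hA0 : 0 ≤ A := Finset.sum_nonneg fun l _ =>
      mul_nonneg (mul_nonneg (nN_nonneg e l) (abs_nonneg _)) (hE l)
    refine ⟨?_, ?_⟩
    · have h1 := neg_part_bound D hE hg hI hpot ht1 Ng
      rw [← hA] at h1
      have h2 : A ≤ (((e+2:ℕ):ℝ)-1) * (Zc (e+2) * A) := by
        calc A = 1 * A := by ring
          _ ≤ ((((e+2:ℕ):ℝ)-1) * Zc (e+2)) * A := mul_le_mul_of_nonneg_right hZ1 hA0
          _ = _ := by ring
      have h3 : (((e+2:ℕ):ℝ)-1) * (Zc (e+2) * A) ≤ (((e+2:ℕ):ℝ)-1) * (2 * ((2/(1-t^2))^(2*g) * I)) :=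
        mul_le_mul_of_nonneg_left h1 hd1.le
      have h4 : 0 ≤ (((e+2:ℕ):ℝ)-1) * ((2/(1-t^2))^(2*g) * I) := by positivity
      nlinarith
    · intro hne
      set r := Real.sqrt (Real.sqrt ((1+3*t^2)/4)) with hr
      have hr0 : 0 ≤ r := Real.sqrt_nonneg _
      have hq0 : 0 ≤ (1+3*t^2)/4 := by positivity
      have hr4 : r^4 = (1+3*t^2)/4 := by
        have h1 : r^2 = Real.sqrt ((1+3*t^2)/4) := Real.sq_sqrt (Real.sqrt_nonneg _)
        calc r^4 = (r^2)^2 := by ring
          _ = _ := by rw [h1, Real.sq_sqrt hq0]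
      have hr1 : r < 1 := by
        have h1 : r^4 < 1 := by rw [hr4]; linarith
        by_contra h2
        push Not at h2
        have : 1 ≤ r^4 := one_le_pow₀ h2
        linarith
      have h1 := tail_bound D hE hg hI hpot ht1 hne hr0 hr1 hr4.ge L
      set Sg := ∑ l ∈ Finset.range (L+1), nN e l * gP (e+2) t l * En (e+2) lam l with hSg
      -- compare Sg with the mass
      have hM : En (e+2) lam 0 = (lam univ).toReal^2 := by
        unfold En
        simp only [gP_zero]
        rw [integral_const, smul_eq_mul, mul_one, Measure.real, Measure.prod_apply MeasurableSet.univ]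
        simp [sq]
      have h2 : (lam univ).toReal^2 - A ≤ Sg := by
        have h3 : Sg = A * (-1) + ∑ l ∈ (Finset.range (L+1)).filter (fun l => ¬ gP (e+2) t l < 0),
            nN e l * gP (e+2) t l * En (e+2) lam l := by
          rw [hSg, ← Finset.sum_filter_add_sum_filter_not (Finset.range (L+1)) (fun l => gP (e+2) t l < 0)]
          congr 1
          rw [hA, Finset.sum_mul]
          apply Finset.sum_congr rfl
          intro l hl
          rw [Finset.mem_filter] at hl
          rw [abs_of_neg hl.2]; ring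
        have h4 : (lam univ).toReal^2 ≤ ∑ l ∈ (Finset.range (L+1)).filter (fun l => ¬ gP (e+2) t l < 0),
            nN e l * gP (e+2) t l * En (e+2) lam l := by
          have h5 : nN e 0 * gP (e+2) t 0 * En (e+2) lam 0 = (lam univ).toReal^2 := by
            rw [nN_zero, gP_zero, hM]; ring
          rw [← h5]
          apply Finset.single_le_sum (f := fun l => nN e l * gP (e+2) t l * En (e+2) lam l)
          · intro l hl
            rw [Finset.mem_filter] at hl
            exact mul_nonneg (mul_nonneg (nN_nonneg e l) (not_lt.1 hl.2)) (hE l)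
          · rw [Finset.mem_filter]
            refine ⟨by simp, ?_⟩
            rw [gP_zero]; norm_num
        rw [h3]; linarith
      set A' := r^(L+1) * ((1/(1-r))^(2*g) * I) with hA'
      set B' := (2/(1-t^2))^(2*g) * (3/4)^(e-2*g) * I with hB'
      have hr1' : 0 < 1 - r := by linarith
      have hA'0 : 0 ≤ A' := by positivity
      have hB'0 : 0 ≤ B' := by positivity
      have h5 : |Sg| ≤ A' + 2*(((e+2:ℕ):ℝ)-1)*B' := by
        have h6 : Zc (e+2) * |Sg| ≤ Zc (e+2) * (A' + 2*(((e+2:ℕ):ℝ)-1)*B') := by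
          have h7 : 2 * B' ≤ Zc (e+2) * (2*(((e+2:ℕ):ℝ)-1)*B') := by
            calc 2 * B' = 1 * (2 * B') := by ring
              _ ≤ ((((e+2:ℕ):ℝ)-1) * Zc (e+2)) * (2*B') :=
                mul_le_mul_of_nonneg_right hZ1 (by positivity)
              _ = _ := by ring
          rw [mul_add]; linarith
        exact le_of_mul_le_mul_left h6 hZ0
      have h8 : tailB (e+2) g t * I = 2*A' + 4*(((e+2:ℕ):ℝ)-1)*B' := by
        unfold tailB rOne
        rw [← hr, ← hL, hA', hB']
        have : e + 2 - 2 - 2*g = e - 2*g := by omega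
        rw [this]; ring
      rw [h8]
      have h9 := le_abs_self Sg
      have h10 : 0 ≤ (((e+2:ℕ):ℝ)-1)*B' := by positivity
      linarith

end Pool.Agent.Lib.Angles
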