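import Pool.Agent.Lib.Angles.SphereVanish
import Pool.Agent.Lib.Angles.SphereFischer
import Pool.Agent.Lib.Angles.Defs

open MeasureTheory Set
open scoped ENNReal

namespace Pool.Agent.Lib.Angles

namespace Sph

lemma integrable_of_cont {X E : Type*} [TopologicalSpace X] [T2Space X] [MeasurableSpace X]
    [BorelSpace X] [NormedAddCommGroup E] [SecondCountableTopologyEither X E]
    {m : Measure X} [IsFiniteMeasure m] {K : Set X} (hK : IsCompact K) (h0 : m Kᶜ = 0)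
    {f : X → E} (hf : ContinuousOn f K) : Integrable f m := by
  have h : m.restrict K = m := Measure.restrict_eq_self_of_ae_mem (by
    rw [ae_iff]; exact h0)
  rw [← h]
  exact hf.integrableOn_compact hK

variable {n : ℕ}

/-- the double measure lives on `S × S` -/
lemma prod_compl {X : Type*} [MeasurableSpace X] {m : Measure X} [IsFiniteMeasure m] {S : Set X}
    (h0 : m Sᶜ = 0) : (m.prod m) (S ×ˢ S)ᶜ = 0 := by
  have h1 : ∀ᵐ p ∂(m.prod m), p.1 ∈ S := by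
    have : ∀ᵐ x ∂m, x ∈ S := by rw [ae_iff]; exact h0
    exact Measure.quasiMeasurePreserving_fst.ae this
  have h2 : ∀ᵐ p ∂(m.prod m), p.2 ∈ S := by
    have : ∀ᵐ x ∂m, x ∈ S := by rw [ae_iff]; exact h0
    exact Measure.quasiMeasurePreserving_snd.ae this
  have h3 : ∀ᵐ p ∂(m.prod m), p ∈ S ×ˢ S := by
    filter_upwards [h1, h2] with p hp1 hp2
    exact ⟨hp1, hp2⟩
  rwa [ae_iff] at h3

lemma ae_mem_prod {X : Type*} [MeasurableSpace X] {m : Measure X} [IsFiniteMeasure m] {S : Set X}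
    (h0 : m Sᶜ = 0) : ∀ᵐ p ∂(m.prod m), p ∈ S ×ˢ S := by
  rw [ae_iff]; exact prod_compl h0

lemma continuous_gP (d : ℕ) (l : ℕ) : Continuous fun x : ℝ => gP d x l := by
  induction l using Nat.twoStepInduction with
  | zero => simp only [gP]; exact continuous_const
  | one => simp only [gP]; exact continuous_id
  | more l h1 h2 =>
    simp only [gP]
    fun_prop

/-- the energy integrals -/
noncomputable def En (d : ℕ) (lam : Measure (EuclideanSpace ℝ (Fin n))) (l : ℕ) : ℝ :=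
  ∫ p, gP d (inner ℝ p.1 p.2) l ∂(lam.prod lam)

lemma abs_inner_le {S : Set (EuclideanSpace ℝ (Fin n))} (hS1 : ∀ u ∈ S, ‖u‖ = 1)
    {p : EuclideanSpace ℝ (Fin n) × EuclideanSpace ℝ (Fin n)} (hp : p ∈ S ×ˢ S) :
    |inner ℝ p.1 p.2| ≤ 1 := by
  have := abs_real_inner_le_norm p.1 p.2
  rw [hS1 _ hp.1, hS1 _ hp.2, one_mul] at this
  exact this

/-- data for a measure on the sphere -/
structure Dat (e : ℕ) (lam : Measure (EuclideanSpace ℝ (Fin n))) (S : Set (EuclideanSpace ℝ (Fin n))) :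
    Prop where
  hK : IsCompact S
  h1 : ∀ u ∈ S, ‖u‖ = 1
  h0 : lam Sᶜ = 0

variable {lam : Measure (EuclideanSpace ℝ (Fin n))} [IsFiniteMeasure lam]
  {S : Set (EuclideanSpace ℝ (Fin n))} {e : ℕ}

lemma Dat.integrable (D : Dat e lam S) {E : Type*} [NormedAddCommGroup E]
    [SecondCountableTopologyEither (EuclideanSpace ℝ (Fin n)) E]
    {f : EuclideanSpace ℝ (Fin n) → E} (hf : Continuous f) : Integrable f lam :=
  integrable_of_cont D.hK D.h0 hf.continuousOn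

lemma Dat.integrable_prod (D : Dat e lam S) {E : Type*} [NormedAddCommGroup E]
    [SecondCountableTopologyEither (EuclideanSpace ℝ (Fin n) × EuclideanSpace ℝ (Fin n)) E]
    {f : EuclideanSpace ℝ (Fin n) × EuclideanSpace ℝ (Fin n) → E}
    (hf : ContinuousOn f (S ×ˢ S)) : Integrable f (lam.prod lam) :=
  integrable_of_cont (D.hK.prod D.hK) (prod_compl D.h0) hf

lemma continuous_gP_inner (d l : ℕ) :
    Continuous fun p : EuclideanSpace ℝ (Fin n) × EuclideanSpace ℝ (Fin n) =>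
      gP d (inner ℝ p.1 p.2) l :=
  (continuous_gP d l).comp (continuous_fst.inner continuous_snd)

lemma abs_En_le (D : Dat e lam S) (l : ℕ) : ‖En (e+2) lam l‖ ≤ ((lam.prod lam) univ).toReal := by
  unfold En
  have : ∀ᵐ p ∂(lam.prod lam), ‖gP (e+2) (inner ℝ p.1 p.2) l‖ ≤ 1 := by
    filter_upwards [ae_mem_prod D.h0] with p hp
    exact abs_gP_le_one (e+2) (by omega) (abs_inner_le D.h1 hp) l
  have h := norm_integral_le_of_norm_le_const this
  simpa [Measure.real] using h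

/-- Step B -/
theorem hasSum_En (D : Dat e lam S) {z : ℂ} (hz : ‖z‖ < 1) :
    HasSum (fun l => (nN e l : ℂ) * z^l * (En (e+2) lam l : ℂ))
      (∫ p, Fk e z (inner ℝ p.1 p.2) ∂(lam.prod lam)) := by
  set F : ℕ → EuclideanSpace ℝ (Fin n) × EuclideanSpace ℝ (Fin n) → ℂ :=
    fun l p => ((nN e l * gP (e+2) (inner ℝ p.1 p.2) l : ℝ):ℂ) * z^l with hF
  have hFc : ∀ l, Continuous (F l) := by
    intro l
    have := continuous_gP_inner (n := n) (e+2) l
    simp only [hF]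
    fun_prop
  have hint : ∀ l, Integrable (F l) (lam.prod lam) := fun l => D.integrable_prod (hFc l).continuousOn
  have hle : ∀ l, ∫ p, ‖F l p‖ ∂(lam.prod lam) ≤ nN e l * ‖z‖^l * ((lam.prod lam) univ).toReal := by
    intro l
    have h1 : ∀ᵐ p ∂(lam.prod lam), ‖‖F l p‖‖ ≤ nN e l * ‖z‖^l := by
      filter_upwards [ae_mem_prod D.h0] with p hp
      rw [norm_norm]
      exact norm_term_le e z (abs_inner_le D.h1 hp) l
    have h := norm_integral_le_of_norm_le_const h1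
    refine (le_abs_self _).trans ?_
    simpa [Measure.real] using h
  have hsum : Summable fun l => ∫ p, ‖F l p‖ ∂(lam.prod lam) := by
    apply Summable.of_nonneg_of_le _ hle ((nN_summable e (norm_nonneg z) hz).mul_right _)
    intro l
    exact integral_nonneg fun p => norm_nonneg _
  have h := hasSum_integral_of_summable_integral_norm hint hsum
  have h2 : ∫ p, (∑' l, F l p) ∂(lam.prod lam) = ∫ p, Fk e z (inner ℝ p.1 p.2) ∂(lam.prod lam) := by
    apply integral_congr_ae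
    filter_upwards [ae_mem_prod D.h0] with p hp
    exact (hasSum_Fk e (abs_inner_le D.h1 hp) hz).tsum_eq
  rw [h2] at h
  refine hasSum_congr' (fun l => ?_) h
  simp only [hF]
  rw [integral_mul_const, integral_complex_ofReal, integral_const_mul]
  unfold En
  push_cast; ring

/-- real kernel -/
noncomputable def Fr (e : ℕ) (ρ x : ℝ) : ℝ := (1 - ρ^2) / (1 - 2*x*ρ + ρ^2)^(e+2)

lemma Fk_ofReal (e : ℕ) (ρ x : ℝ) : Fk e (ρ:ℂ) x = (Fr e ρ x : ℂ) := by
  unfold Fk Fr; push_cast; ring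

/-- the quadratic energy -/
noncomputable def Qe (e : ℕ) (lam : Measure (EuclideanSpace ℝ (Fin n))) (ρ : ℝ) : ℝ :=
  ∫ p, Fr e ρ (inner ℝ p.1 p.2) ∂(lam.prod lam)

theorem hasSum_Qe (D : Dat e lam S) {ρ : ℝ} (h0 : 0 ≤ ρ) (h1 : ρ < 1) :
    HasSum (fun l => nN e l * ρ^l * En (e+2) lam l) (Qe e lam ρ) := by
  have hz : ‖(ρ:ℂ)‖ < 1 := by
    rw [Complex.norm_real, Real.norm_eq_abs, abs_of_nonneg h0]; exact h1
  have h := hasSum_En D hz
  have h2 : ∫ p, Fk e (ρ:ℂ) (inner ℝ p.1 p.2) ∂(lam.prod lam) = (Qe e lam ρ : ℂ) := by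
    unfold Qe
    rw [← integral_complex_ofReal]
    apply integral_congr_ae
    filter_upwards with p
    exact Fk_ofReal e ρ _
  rw [h2] at h
  have h3 : HasSum (fun l => ((nN e l * ρ^l * En (e+2) lam l : ℝ):ℂ)) (Qe e lam ρ : ℂ) := by
    refine hasSum_congr' (fun l => ?_) h
    push_cast; ring
  exact_mod_cast (Complex.hasSum_ofReal.1 h3)

lemma q_real_ge {ρ x : ℝ} : (1-ρ)^2 + 2*ρ*(1-x) = 1 - 2*x*ρ + ρ^2 := by ring
lemma q_real_ge' {ρ x : ℝ} : (ρ-x)^2 + (1 - x^2) = 1 - 2*x*ρ + ρ^2 := by ring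

lemma Fr_nonneg (e : ℕ) {ρ x : ℝ} (h0 : 0 ≤ ρ) (h1 : ρ < 1) (hx : |x| ≤ 1) : 0 ≤ Fr e ρ x := by
  have hx' := abs_le.1 hx
  unfold Fr
  apply div_nonneg
  · nlinarith
  · apply pow_nonneg
    rw [← q_real_ge]
    nlinarith [sq_nonneg (1-ρ), mul_nonneg h0 (by linarith [hx'.2] : 0 ≤ 1 - x)]

lemma ofReal_Fr_le {g : ℕ} (hg : 2*g ≤ e) {ρ : ℝ} (h0 : 0 ≤ ρ) (h1 : ρ < 1)
    {u w : EuclideanSpace ℝ (Fin n)} (hx : |inner ℝ u w| ≤ 1) :
    ENNReal.ofReal (Fr e ρ (inner ℝ u w)) ≤ ENNReal.ofReal ((1/(1-ρ))^(2*g)) * pot (e+2-g) u w := by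
  set x := inner ℝ u w with hxdef
  have hx' := abs_le.1 hx
  have hρ : 0 < 1 - ρ := by linarith
  have hq1 : (1-ρ)^2 ≤ 1 - 2*x*ρ + ρ^2 := by
    rw [← q_real_ge]; nlinarith [mul_nonneg h0 (by linarith [hx'.2] : 0 ≤ 1 - x)]
  have hq2 : 1 - x^2 ≤ 1 - 2*x*ρ + ρ^2 := by
    rw [← q_real_ge']; nlinarith [sq_nonneg (ρ-x)]
  have hq0 : 0 < 1 - 2*x*ρ + ρ^2 := lt_of_lt_of_le (by positivity) hq1
  set q := 1 - 2*x*ρ + ρ^2 with hqdef
  unfold pot
  rw [← hxdef]
  rcases eq_or_lt_of_le (by nlinarith [hx'.1, hx'.2] : 0 ≤ 1 - x^2) with h | h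
  · rw [← h, ENNReal.ofReal_zero, ENNReal.inv_zero]
    have : e+2-g ≠ 0 := by omega
    rw [ENNReal.top_pow this, ENNReal.mul_top]
    · exact le_top
    · rw [Ne, ENNReal.ofReal_eq_zero, not_le]; positivity
  · rw [← ENNReal.ofReal_inv_of_pos h, ← ENNReal.ofReal_pow (by positivity),
      ← ENNReal.ofReal_mul (by positivity)]
    apply ENNReal.ofReal_le_ofReal
    unfold Fr
    rw [← hqdef]
    have h2 : q^(e+2) = q^g * q^(e+2-g) := by
      rw [← pow_add]; congr 1; omega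
    have h3 : (1-ρ)^(2*g) ≤ q^g := by
      rw [pow_mul]; exact pow_le_pow_left₀ (by positivity) hq1 g
    have h4 : (1-x^2)^(e+2-g) ≤ q^(e+2-g) := pow_le_pow_left₀ h.le hq2 _
    have h5 : (1-ρ)^(2*g) * (1-x^2)^(e+2-g) ≤ q^(e+2) := by
      rw [h2]; exact mul_le_mul h3 h4 (by positivity) (by positivity)
    have h6 : 0 < (1-ρ)^(2*g) * (1-x^2)^(e+2-g) := by positivity
    calc (1-ρ^2)/q^(e+2) ≤ 1/((1-ρ)^(2*g) * (1-x^2)^(e+2-g)) := by
          apply div_le_div₀ (by norm_num) (by nlinarith) h6 h5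
      _ = (1/(1-ρ))^(2*g) * ((1-x^2)⁻¹)^(e+2-g) := by
          rw [one_div, mul_inv, one_div, inv_pow, inv_pow]

lemma measurable_pot (k : ℕ) :
    Measurable fun p : EuclideanSpace ℝ (Fin n) × EuclideanSpace ℝ (Fin n) => pot k p.1 p.2 := by
  unfold pot
  have h : Measurable fun p : EuclideanSpace ℝ (Fin n) × EuclideanSpace ℝ (Fin n) =>
      (1 - inner ℝ p.1 p.2 ^ 2 : ℝ) := by
    apply Continuous.measurable
    exact continuous_const.sub ((continuous_fst.inner continuous_snd).pow 2)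
  exact (h.ennreal_ofReal.inv).pow_const k

lemma continuousOn_Fr (D : Dat e lam S) {ρ : ℝ} (h0 : 0 ≤ ρ) (h1 : ρ < 1) :
    ContinuousOn (fun p : EuclideanSpace ℝ (Fin n) × EuclideanSpace ℝ (Fin n) =>
      Fr e ρ (inner ℝ p.1 p.2)) (S ×ˢ S) := by
  unfold Fr
  have hc : Continuous fun p : EuclideanSpace ℝ (Fin n) × EuclideanSpace ℝ (Fin n) =>
      (inner ℝ p.1 p.2 : ℝ) := continuous_fst.inner continuous_snd
  apply ContinuousOn.div continuousOn_const
  · exact (by fun_prop : Continuous fun p : EuclideanSpace ℝ (Fin n) × EuclideanSpace ℝ (Fin n) =>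
      (1 - 2*(inner ℝ p.1 p.2 : ℝ)*ρ + ρ^2)^(e+2)).continuousOn
  · intro p hp
    have hx' := abs_le.1 (abs_inner_le D.h1 hp)
    apply pow_ne_zero
    rw [← q_real_ge]
    have : 0 < (1-ρ)^2 := by have : 0 < 1 - ρ := by linarith
                             positivity
    nlinarith [mul_nonneg h0 (by linarith [hx'.2] : 0 ≤ 1 - (inner ℝ p.1 p.2 : ℝ))]

/-- Step C -/
theorem Qe_le (D : Dat e lam S) {g : ℕ} (hg : 2*g ≤ e) {I : ℝ} (hI : 0 ≤ I)
    (hpot : (∫⁻ u, ∫⁻ w, pot (e+2-g) u w ∂lam ∂lam) ≤ ENNReal.ofReal I)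
    {ρ : ℝ} (h0 : 0 ≤ ρ) (h1 : ρ < 1) : Qe e lam ρ ≤ (1/(1-ρ))^(2*g) * I := by
  have hρ : 0 < 1 - ρ := by linarith
  unfold Qe
  have hae : 0 ≤ᵐ[lam.prod lam] fun p => Fr e ρ (inner ℝ p.1 p.2) := by
    filter_upwards [ae_mem_prod D.h0] with p hp
    exact Fr_nonneg e h0 h1 (abs_inner_le D.h1 hp)
  have hint := D.integrable_prod (continuousOn_Fr D h0 h1)
  rw [integral_eq_lintegral_of_nonneg_ae hae hint.aestronglyMeasurable]
  apply ENNReal.toReal_le_of_le_ofReal (by positivity)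
  calc ∫⁻ p, ENNReal.ofReal (Fr e ρ (inner ℝ p.1 p.2)) ∂(lam.prod lam)
      ≤ ∫⁻ p, ENNReal.ofReal ((1/(1-ρ))^(2*g)) * pot (e+2-g) p.1 p.2 ∂(lam.prod lam) := by
        apply lintegral_mono_ae
        filter_upwards [ae_mem_prod D.h0] with p hp
        exact ofReal_Fr_le hg h0 h1 (abs_inner_le D.h1 hp)
    _ = ENNReal.ofReal ((1/(1-ρ))^(2*g)) * ∫⁻ p, pot (e+2-g) p.1 p.2 ∂(lam.prod lam) := by
        rw [lintegral_const_mul _ (measurable_pot _)]
    _ = ENNReal.ofReal ((1/(1-ρ))^(2*g)) * ∫⁻ u, ∫⁻ w, pot (e+2-g) u w ∂lam ∂lam := by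
        rw [lintegral_prod _ (measurable_pot _).aemeasurable]
    _ ≤ ENNReal.ofReal ((1/(1-ρ))^(2*g)) * ENNReal.ofReal I := by gcongr
    _ = ENNReal.ofReal ((1/(1-ρ))^(2*g) * I) := by
        rw [ENNReal.ofReal_mul (by positivity)]

end Sph

end Pool.Agent.Lib.Angles
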