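import Mathlib

open MeasureTheory Set intervalIntegral

namespace Pool.Agent.Lib.Angles.Sph

/-- normalised Gegenbauer polynomials in dimension `2d` -/
noncomputable def gP (d : ℕ) (x : ℝ) : ℕ → ℝ
  | 0 => 1
  | 1 => x
  | (l+2) => ((2*((l:ℝ)+1)+2*d-2)*x*gP d x (l+1) - ((l:ℝ)+1)*gP d x l)/(((l:ℝ)+1)+2*d-2)

lemma gP_zero (d : ℕ) (x : ℝ) : gP d x 0 = 1 := rfl
lemma gP_one (d : ℕ) (x : ℝ) : gP d x 1 = x := rfl

lemma den_pos (d : ℕ) (hd : 1 ≤ d) (l : ℕ) : 0 < ((l:ℝ)+1)+2*d-2 := by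
  have h1 : (1:ℝ) ≤ d := by exact_mod_cast hd
  have h2 : (0:ℝ) ≤ l := Nat.cast_nonneg l
  linarith

lemma gP_rec (d : ℕ) (hd : 1 ≤ d) (x : ℝ) (l : ℕ) :
    (((l:ℝ)+1)+2*d-2) * gP d x (l+2) =
      (2*((l:ℝ)+1)+2*d-2)*x*gP d x (l+1) - ((l:ℝ)+1)*gP d x l := by
  have h := den_pos d hd l
  rw [gP]
  field_simp

lemma gP_neg (d : ℕ) (x : ℝ) (l : ℕ) : gP d (-x) l = (-1)^l * gP d x l := by
  induction l using Nat.twoStepInduction with
  | zero => simp [gP]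
  | one => simp [gP]
  | more l h1 h2 =>
    rw [gP, gP, h1, h2]
    rw [pow_succ, pow_succ]
    ring

lemma gP_pos_aux (d : ℕ) (hd : 1 ≤ d) (t : ℝ) (ht : 0 < t) (ht1 : t < 1) (l : ℕ)
    (hl : (l:ℝ) ≤ ((d:ℝ)-1)*t^2/2) : 0 < gP d t l ∧ t/2 * gP d t l ≤ gP d t (l+1) := by
  induction l with
  | zero =>
    simp only [gP]
    constructor
    · norm_num
    · linarith
  | succ l ih =>
    have hl' : (l:ℝ) ≤ ((d:ℝ)-1)*t^2/2 := by push_cast at hl; linarith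
    obtain ⟨h1, h2⟩ := ih hl'
    have h3 : 0 < gP d t (l+1) := lt_of_lt_of_le (by positivity) h2
    refine ⟨h3, ?_⟩
    have hr := gP_rec d hd t l
    have hden := den_pos d hd l
    push_cast at hl
    have h4 : gP d t l ≤ 2/t * gP d t (l+1) := by
      have : 2/t * (t/2 * gP d t l) ≤ 2/t * gP d t (l+1) :=
        mul_le_mul_of_nonneg_left h2 (by positivity)
      have e : 2/t * (t/2 * gP d t l) = gP d t l := by field_simp
      linarith
    have h5 : (2*((l:ℝ)+1)+2*d-2)*t - ((l:ℝ)+1)*(2/t) ≥ t/2 * (((l:ℝ)+1)+2*d-2) := by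
      have hl0 : (0:ℝ) ≤ l := Nat.cast_nonneg l
      have h6 : ((l:ℝ)+1)*(2/t) ≤ ((d:ℝ)-1)*t := by
        have : ((l:ℝ)+1)*(2/t) ≤ (((d:ℝ)-1)*t^2/2) * (2/t) :=
          mul_le_mul_of_nonneg_right hl (by positivity)
        have e : (((d:ℝ)-1)*t^2/2) * (2/t) = ((d:ℝ)-1)*t := by field_simp
        linarith
      nlinarith
    have h7 : (((l:ℝ)+1)+2*d-2) * gP d t (l+2) ≥ (((l:ℝ)+1)+2*d-2) * (t/2 * gP d t (l+1)) := by
      rw [hr]
      have h8 : ((l:ℝ)+1) * gP d t l ≤ ((l:ℝ)+1) * (2/t * gP d t (l+1)) :=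
        mul_le_mul_of_nonneg_left h4 (by positivity)
      nlinarith
    exact le_of_mul_le_mul_left h7 hden

lemma gP_pos (d : ℕ) (hd : 1 ≤ d) (t : ℝ) (ht : 0 < t) (ht1 : t < 1) (l : ℕ)
    (hl : l ≤ Nat.floor (((d:ℝ)-1)*t^2/2)) : 0 < gP d t l := by
  have h1 : (1:ℝ) ≤ d := by exact_mod_cast hd
  have h0 : 0 ≤ ((d:ℝ)-1)*t^2/2 := by
    have : 0 ≤ (d:ℝ)-1 := by linarith
    positivity
  have h2 : (l:ℝ) ≤ ((d:ℝ)-1)*t^2/2 := (Nat.cast_le.2 hl).trans (Nat.floor_le h0)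
  exact (gP_pos_aux d hd t ht ht1 l h2).1

lemma gP_neg_odd (d : ℕ) (hd : 1 ≤ d) (t : ℝ) (ht : t ≠ 0) (ht1 : |t| < 1) (l : ℕ)
    (hl : l ≤ Nat.floor (((d:ℝ)-1)*t^2/2)) (h : gP d t l < 0) : Odd l := by
  have habs : 0 < |t| := abs_pos.2 ht
  have hpos : 0 < gP d (|t|) l := by
    apply gP_pos d hd _ habs ht1 l
    rwa [sq_abs]
  rcases le_or_gt 0 t with h0 | h0
  · rw [abs_of_nonneg h0] at hpos
    exact absurd h (not_lt.2 hpos.le)
  · rw [abs_of_neg h0, gP_neg] at hpos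
    by_contra hodd
    rw [Nat.not_odd_iff_even] at hodd
    rw [hodd.neg_one_pow, one_mul] at hpos
    exact absurd h (not_lt.2 hpos.le)

/-- the point `t + i √(1-t²) x` -/
noncomputable def zz (t x : ℝ) : ℂ := (t:ℂ) + Complex.I * ((Real.sqrt (1-t^2) * x : ℝ):ℂ)

/-- the weight -/
noncomputable def wt (d : ℕ) (x : ℝ) : ℝ := (1-x^2)^(d-2)

noncomputable def Zc (d : ℕ) : ℝ := ∫ x in (-1:ℝ)..1, wt d x

lemma continuous_zz (t : ℝ) : Continuous (zz t) := by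
  unfold zz; fun_prop

lemma continuous_wt (d : ℕ) : Continuous (wt d) := by
  unfold wt; fun_prop

lemma wt_nonneg (d : ℕ) {x : ℝ} (hx : x ∈ Icc (-1:ℝ) 1) : 0 ≤ wt d x := by
  unfold wt
  apply pow_nonneg
  nlinarith [hx.1, hx.2]

lemma wt_le_one (d : ℕ) {x : ℝ} (hx : x ∈ Icc (-1:ℝ) 1) : wt d x ≤ 1 := by
  unfold wt
  apply pow_le_one₀
  · nlinarith [hx.1, hx.2]
  · nlinarith [hx.1, hx.2]

lemma normSq_zz {t : ℝ} (ht : |t| ≤ 1) (x : ℝ) : Complex.normSq (zz t x) = t^2 + (1-t^2)*x^2 := by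
  have h : 0 ≤ 1 - t^2 := by
    have := abs_le.1 ht
    nlinarith [this.1, this.2]
  unfold zz
  rw [Complex.normSq_apply]
  simp
  have := Real.mul_self_sqrt h
  nlinarith [this]

lemma norm_zz_sq {t : ℝ} (ht : |t| ≤ 1) (x : ℝ) : ‖zz t x‖^2 = t^2 + (1-t^2)*x^2 := by
  rw [Complex.sq_norm, normSq_zz ht]

lemma norm_zz_le_one {t : ℝ} (ht : |t| ≤ 1) {x : ℝ} (hx : x ∈ Icc (-1:ℝ) 1) : ‖zz t x‖ ≤ 1 := by
  have h := norm_zz_sq ht x
  have h1 : 0 ≤ 1 - t^2 := by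
    have := abs_le.1 ht
    nlinarith [this.1, this.2]
  have h2 : x^2 ≤ 1 := by nlinarith [hx.1, hx.2]
  have h3 : ‖zz t x‖^2 ≤ 1 := by
    rw [h]; nlinarith
  nlinarith [norm_nonneg (zz t x)]

/-- `(1 - ‖z‖)` is at least `(1-t²)(1-x²)/2` -/
lemma one_sub_norm_zz {t : ℝ} (ht : |t| ≤ 1) {x : ℝ} (hx : x ∈ Icc (-1:ℝ) 1) :
    (1-t^2)*(1-x^2)/2 ≤ 1 - ‖zz t x‖ := by
  have h := norm_zz_sq ht x
  have h1 := norm_zz_le_one ht hx
  nlinarith [norm_nonneg (zz t x)]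

lemma zz_key {t : ℝ} (ht : |t| ≤ 1) (x : ℝ) :
    1 - 2*(t:ℂ)*zz t x + (zz t x)^2 = ((Real.sqrt (1-t^2):ℝ):ℂ)^2 * (1-(x:ℂ)^2) := by
  have h : 0 ≤ 1 - t^2 := by
    have := abs_le.1 ht
    nlinarith [this.1, this.2]
  have h2 : ((Real.sqrt (1-t^2):ℝ):ℂ)^2 = 1 - (t:ℂ)^2 := by
    rw [← Complex.ofReal_pow, Real.sq_sqrt h]; push_cast; ring
  unfold zz
  push_cast
  have hI : Complex.I^2 = -1 := Complex.I_sq
  linear_combination (x:ℂ)^2 * ((Real.sqrt (1-t^2):ℝ):ℂ)^2 * hI - h2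

lemma zz_sub (t x : ℝ) : zz t x - t = Complex.I * ((Real.sqrt (1-t^2):ℝ):ℂ) * x := by
  unfold zz; push_cast; ring

lemma hasDerivAt_zz (t x : ℝ) :
    HasDerivAt (zz t) (Complex.I * ((Real.sqrt (1-t^2):ℝ):ℂ)) x := by
  unfold zz
  have h1 : HasDerivAt (fun y : ℝ => ((Real.sqrt (1-t^2) * y : ℝ):ℂ)) ((Real.sqrt (1-t^2):ℝ):ℂ) x := by
    have h2 : HasDerivAt (fun y : ℝ => Real.sqrt (1-t^2) * y) (Real.sqrt (1-t^2)) x := by
      simpa using (hasDerivAt_id x).const_mul (Real.sqrt (1-t^2))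
    exact h2.ofReal_comp
  exact (h1.const_mul Complex.I).const_add _

/-- the complex moments -/
noncomputable def Am (d : ℕ) (t : ℝ) (l : ℕ) : ℂ := ∫ x in (-1:ℝ)..1, ((wt d x : ℝ):ℂ) * zz t x ^ l

lemma Am_rec (e : ℕ) {t : ℝ} (ht : |t| ≤ 1) (l : ℕ) :
    ((l:ℂ) + 2*(e+1)) * Am (e+2) t (l+1) - (2*l + 2*(e+1)) * t * Am (e+2) t l
      + l * Am (e+2) t (l-1) = 0 := by
  set s : ℂ := ((Real.sqrt (1-t^2):ℝ):ℂ) with hs
  have hder : ∀ x : ℝ, HasDerivAt (fun x : ℝ => -(Complex.I * s) * (zz t x ^ l * (1-(x:ℂ)^2)^(e+1)))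
      (((wt (e+2) x : ℝ):ℂ) * (((l:ℂ) + 2*(e+1)) * zz t x ^ (l+1)
        - (2*l + 2*(e+1)) * t * zz t x ^ l + l * zz t x ^ (l-1))) x := by
    intro x
    have h1 : HasDerivAt (fun x : ℝ => zz t x ^ l) ((l:ℂ) * zz t x ^ (l-1) * (Complex.I * s)) x := by
      exact (hasDerivAt_zz t x).fun_pow l
    have h2 : HasDerivAt (fun x : ℝ => (1-(x:ℂ)^2)) (-(2*(x:ℂ))) x := by
      have h3 : HasDerivAt (fun x : ℝ => (x:ℂ)) 1 x := by
        simpa using (hasDerivAt_id x).ofReal_comp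
      have h4 := (h3.fun_pow 2).const_sub 1
      refine h4.congr_deriv ?_
      simp
    have h5 : HasDerivAt (fun x : ℝ => (1-(x:ℂ)^2)^(e+1))
        (((e+1:ℕ):ℂ) * (1-(x:ℂ)^2)^e * (-(2*(x:ℂ)))) x := by
      exact h2.fun_pow (e+1)
    have h6 := (h1.fun_mul h5).const_mul (-(Complex.I * s))
    refine h6.congr_deriv ?_
    symm
    have hk := zz_key ht x
    rw [← hs] at hk
    have hz := zz_sub t x
    rw [← hs] at hz
    have hI : Complex.I^2 = -1 := Complex.I_sq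
    have hw : ((wt (e+2) x : ℝ):ℂ) = (1-(x:ℂ)^2)^e := by
      unfold wt; push_cast; simp
    rw [hw]
    push_cast
    rcases l with _ | l
    · simp only [Nat.cast_zero, zero_add, pow_one, pow_zero, zero_mul, mul_one]
      linear_combination (2*((e:ℂ)+1) * (1-(x:ℂ)^2)^e) * hz
    · simp only [Nat.add_sub_cancel]
      push_cast
      have e1 : zz t x ^ (l+1+1) = zz t x ^ l * (zz t x)^2 := by ring
      have e2 : zz t x ^ (l+1) = zz t x ^ l * zz t x := by ring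
      rw [e1, e2]
      linear_combination ((1-(x:ℂ)^2)^e * zz t x ^ l * ((l:ℂ)+1)) * hk
        + (2*((e:ℂ)+1) * (1-(x:ℂ)^2)^e * zz t x ^ l * zz t x) * hz
        + (((l:ℂ)+1) * zz t x ^ l * s^2 * (1-(x:ℂ)^2)^(e+1)) * hI
  have hcont : Continuous (fun x : ℝ => (((wt (e+2) x : ℝ):ℂ) * (((l:ℂ) + 2*(e+1)) * zz t x ^ (l+1)
        - (2*l + 2*(e+1)) * t * zz t x ^ l + l * zz t x ^ (l-1)))) := by
    have := continuous_wt (e+2)
    have := continuous_zz t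
    fun_prop
  have hint := integral_eq_sub_of_hasDerivAt (a := (-1:ℝ)) (b := 1) (fun x _ => hder x)
    (hcont.intervalIntegrable _ _)
  have h0 : (fun x : ℝ => -(Complex.I * s) * (zz t x ^ l * (1-(x:ℂ)^2)^(e+1))) 1 -
      (fun x : ℝ => -(Complex.I * s) * (zz t x ^ l * (1-(x:ℂ)^2)^(e+1))) (-1) = 0 := by
    simp
  rw [h0] at hint
  have hc : ∀ k, IntervalIntegrable (fun x : ℝ => ((wt (e+2) x : ℝ):ℂ) * zz t x ^ k) volume (-1) 1 := by
    intro k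
    apply Continuous.intervalIntegrable
    have := continuous_wt (e+2)
    have := continuous_zz t
    fun_prop
  rw [← hint]
  unfold Am
  rw [← intervalIntegral.integral_const_mul, ← intervalIntegral.integral_const_mul,
    ← intervalIntegral.integral_const_mul, ← intervalIntegral.integral_sub,
    ← intervalIntegral.integral_add]
  · congr 1
    ext x
    ring
  · exact ((hc _).const_mul _).sub ((hc _).const_mul _)
  · exact (hc _).const_mul _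
  · exact (hc _).const_mul _
  · exact (hc _).const_mul _

lemma Am_zero (d : ℕ) (t : ℝ) : Am d t 0 = (Zc d : ℂ) := by
  unfold Am Zc
  simp only [pow_zero, mul_one]
  exact intervalIntegral.integral_ofReal

/-- Laplace representation -/
theorem laplace (d : ℕ) (hd : 2 ≤ d) {t : ℝ} (ht : |t| ≤ 1) (l : ℕ) :
    Am d t l = (Zc d : ℂ) * (gP d t l : ℂ) := by
  obtain ⟨e, rfl⟩ := Nat.exists_eq_add_of_le' hd
  induction l using Nat.twoStepInduction with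
  | zero => rw [Am_zero, gP_zero]; simp
  | one =>
    have h := Am_rec e ht 0
    rw [Am_zero] at h
    rw [gP_one]
    have he : (2*((e:ℂ)+1)) ≠ 0 := by
      have : ((2*((e:ℝ)+1) : ℝ):ℂ) ≠ 0 := by
        rw [Complex.ofReal_ne_zero]; positivity
      simpa using this
    have h2 : (2*((e:ℂ)+1)) * (Am (e+2) t 1 - (Zc (e+2):ℂ) * t) = 0 := by
      simp only [Nat.cast_zero, zero_add, mul_zero, zero_mul, add_zero] at h
      linear_combination h
    rcases mul_eq_zero.1 h2 with h3 | h3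
    · exact absurd h3 he
    · linear_combination h3
  | more l h1 h2 =>
    have h := Am_rec e ht (l+1)
    simp only [Nat.add_sub_cancel] at h
    rw [h1, h2] at h
    have hr := gP_rec (e+2) (by omega) t l
    have hr' : (((((l:ℝ)+1)+2*((e+2:ℕ):ℝ)-2) * gP (e+2) t (l+2) : ℝ):ℂ) =
      (((2*((l:ℝ)+1)+2*((e+2:ℕ):ℝ)-2)*t*gP (e+2) t (l+1) - ((l:ℝ)+1)*gP (e+2) t l : ℝ):ℂ) := by
      rw [hr]
    push_cast at hr' h
    have hne : ((l:ℂ)+1+2*((e:ℂ)+1)) ≠ 0 := by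
      have : (((l:ℝ)+1+2*((e:ℝ)+1) : ℝ):ℂ) ≠ 0 := by
        rw [Complex.ofReal_ne_zero]; positivity
      simpa using this
    have h3 : ((l:ℂ)+1+2*((e:ℂ)+1)) * (Am (e+2) t (l+2) - (Zc (e+2):ℂ) * (gP (e+2) t (l+2):ℂ)) = 0 := by
      linear_combination h - (Zc (e+2):ℂ) * hr'
    rcases mul_eq_zero.1 h3 with h4 | h4
    · exact absurd h4 hne
    · linear_combination h4

lemma Zc_ge (d : ℕ) (hd : 2 ≤ d) : 1/((d:ℝ)-1) ≤ Zc d := by
  obtain ⟨e, rfl⟩ := Nat.exists_eq_add_of_le' hd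
  unfold Zc
  have hsplit : ∫ x in (-1:ℝ)..1, wt (e+2) x = (∫ x in (-1:ℝ)..0, wt (e+2) x) + ∫ x in (0:ℝ)..1, wt (e+2) x := by
    rw [integral_add_adjacent_intervals] <;> exact (continuous_wt _).intervalIntegrable _ _
  rw [hsplit]
  have h1 : 0 ≤ ∫ x in (-1:ℝ)..0, wt (e+2) x := by
    apply intervalIntegral.integral_nonneg (by norm_num)
    intro x hx
    exact wt_nonneg _ ⟨hx.1, hx.2.trans (by norm_num)⟩
  have h2 : ∫ x in (0:ℝ)..1, (1-x)^e ≤ ∫ x in (0:ℝ)..1, wt (e+2) x := by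
    apply intervalIntegral.integral_mono_on (by norm_num)
    · exact Continuous.intervalIntegrable (by fun_prop) _ _
    · exact (continuous_wt _).intervalIntegrable _ _
    · intro x hx
      unfold wt
      apply pow_le_pow_left₀
      · linarith [hx.2]
      · nlinarith [hx.1, hx.2]
  have h3 : ∫ x in (0:ℝ)..1, (1-x)^e = 1/((e:ℝ)+1) := by
    have := intervalIntegral.integral_comp_sub_left (fun x : ℝ => x^e) (1:ℝ) (a := 0) (b := 1)
    rw [this]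
    simp
  push_cast
  have e1 : ((e:ℝ)+2-1) = (e:ℝ)+1 := by ring
  rw [e1]
  linarith

lemma Zc_pos (d : ℕ) (hd : 2 ≤ d) : 0 < Zc d := by
  have h := Zc_ge d hd
  have h2 : (2:ℝ) ≤ d := by exact_mod_cast hd
  have h1 : 0 < 1/((d:ℝ)-1) := by
    apply one_div_pos.2; linarith
  linarith

/-- the bound used for sums -/
lemma Zc_mul_abs_gP_le (d : ℕ) (hd : 2 ≤ d) {t : ℝ} (ht : |t| ≤ 1) (l : ℕ) :
    Zc d * |gP d t l| ≤ ∫ x in (-1:ℝ)..1, wt d x * ‖zz t x‖^l := by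
  have h := laplace d hd ht l
  have h1 : ‖Am d t l‖ = Zc d * |gP d t l| := by
    rw [h, norm_mul, Complex.norm_real, Complex.norm_real, Real.norm_eq_abs, Real.norm_eq_abs,
      abs_of_pos (Zc_pos d hd)]
  rw [← h1]
  unfold Am
  refine (intervalIntegral.norm_integral_le_integral_norm (by norm_num)).trans (le_of_eq ?_)
  apply intervalIntegral.integral_congr
  intro x hx
  rw [uIcc_of_le (by norm_num)] at hx
  simp only [norm_mul, Complex.norm_real, norm_pow, Real.norm_eq_abs, abs_of_nonneg (wt_nonneg d hx)]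

lemma abs_gP_le_one (d : ℕ) (hd : 2 ≤ d) {t : ℝ} (ht : |t| ≤ 1) (l : ℕ) : |gP d t l| ≤ 1 := by
  have h := Zc_mul_abs_gP_le d hd ht l
  have h2 : ∫ x in (-1:ℝ)..1, wt d x * ‖zz t x‖^l ≤ Zc d := by
    unfold Zc
    apply intervalIntegral.integral_mono_on (by norm_num)
    · apply Continuous.intervalIntegrable
      have := continuous_wt d
      have := continuous_zz t
      fun_prop
    · exact (continuous_wt _).intervalIntegrable _ _
    · intro x hx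
      have h3 := wt_nonneg d hx
      have h4 : ‖zz t x‖^l ≤ 1 := pow_le_one₀ (norm_nonneg _) (norm_zz_le_one ht hx)
      nlinarith
  have h3 := Zc_pos d hd
  have h4 : Zc d * |gP d t l| ≤ Zc d * 1 := by linarith
  exact le_of_mul_le_mul_left h4 h3

end Pool.Agent.Lib.Angles.Sph
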