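import Pool.Agent.Lib.Angles.SphereMeas

open MeasureTheory Set
open scoped ENNReal

namespace Pool.Agent.Lib.Angles

namespace Sph

variable {n : ℕ} {lam : Measure (EuclideanSpace ℝ (Fin n))} [IsFiniteMeasure lam]
  {S : Set (EuclideanSpace ℝ (Fin n))} {e : ℕ}

lemma norm_zz_lt_one {t : ℝ} (ht : |t| < 1) {y : ℝ} (hy : y ∈ Ioo (-1:ℝ) 1) : ‖zz t y‖ < 1 := by
  have h := one_sub_norm_zz ht.le (x := y) ⟨hy.1.le, hy.2.le⟩
  have h1 := abs_lt.1 ht
  have h2 : 0 < 1 - t^2 := by nlinarith [h1.1, h1.2]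
  have h3 : 0 < 1 - y^2 := by nlinarith [hy.1, hy.2]
  nlinarith [mul_pos h2 h3]

/-- lemma D1 -/
lemma wt_mul_le {g : ℕ} (hg : 2*g ≤ e) {t : ℝ} (ht : |t| < 1) {y : ℝ} (hy : y ∈ Ioo (-1:ℝ) 1) :
    wt (e+2) y * (1/(1-‖zz t y‖))^(2*g) ≤ (2/(1-t^2))^(2*g) * (1-y^2)^(e-2*g) := by
  have h := one_sub_norm_zz ht.le (x := y) ⟨hy.1.le, hy.2.le⟩
  have h1 := abs_lt.1 ht
  have h2 : 0 < 1 - t^2 := by nlinarith [h1.1, h1.2]
  have h3 : 0 < 1 - y^2 := by nlinarith [hy.1, hy.2]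
  have h4 := norm_zz_lt_one ht hy
  have h5 : 1/(1-‖zz t y‖) ≤ (2/(1-t^2)) * (1/(1-y^2)) := by
    rw [div_mul_div_comm, mul_one, div_le_div_iff₀ (by linarith) (by positivity)]
    nlinarith
  have h6 : (1/(1-‖zz t y‖))^(2*g) ≤ ((2/(1-t^2)) * (1/(1-y^2)))^(2*g) := by
    apply pow_le_pow_left₀ _ h5
    apply div_nonneg zero_le_one; linarith
  have h7 : wt (e+2) y = (1-y^2)^(2*g) * (1-y^2)^(e-2*g) := by
    unfold wt
    rw [← pow_add]; congr 1; omega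
  have h8 : 0 ≤ wt (e+2) y := wt_nonneg _ ⟨hy.1.le, hy.2.le⟩
  calc wt (e+2) y * (1/(1-‖zz t y‖))^(2*g)
      ≤ wt (e+2) y * ((2/(1-t^2)) * (1/(1-y^2)))^(2*g) := mul_le_mul_of_nonneg_left h6 h8
    _ = (2/(1-t^2))^(2*g) * (1-y^2)^(e-2*g) := by
        rw [h7, mul_pow, one_div, inv_pow]
        field_simp

/-- finite sums are bounded by `Qe` -/
lemma sum_le_Qe (D : Dat e lam S) (hE : ∀ l, 0 ≤ En (e+2) lam l) {ρ : ℝ} (h0 : 0 ≤ ρ) (h1 : ρ < 1)
    (s : Finset ℕ) : ∑ l ∈ s, nN e l * ρ^l * En (e+2) lam l ≤ Qe e lam ρ := by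
  have h := hasSum_Qe D h0 h1
  apply sum_le_hasSum s (fun l _ => _) h
  intro l _
  exact mul_nonneg (mul_nonneg (nN_nonneg e l) (pow_nonneg h0 l)) (hE l)

theorem neg_part_bound (D : Dat e lam S) (hE : ∀ l, 0 ≤ En (e+2) lam l) {g : ℕ} (hg : 2*g ≤ e)
    {I : ℝ} (hI : 0 ≤ I)
    (hpot : (∫⁻ u, ∫⁻ w, pot (e+2-g) u w ∂lam ∂lam) ≤ ENNReal.ofReal I)
    {t : ℝ} (ht : |t| < 1) (s : Finset ℕ) :
    Zc (e+2) * ∑ l ∈ s, nN e l * |gP (e+2) t l| * En (e+2) lam l ≤ 2 * ((2/(1-t^2))^(2*g) * I) := by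
  have hz := continuous_zz t
  have hw := continuous_wt (e+2)
  have hcont : ∀ l, Continuous fun y : ℝ => nN e l * En (e+2) lam l * (wt (e+2) y * ‖zz t y‖^l) := by
    intro l; fun_prop
  have h1 : Zc (e+2) * ∑ l ∈ s, nN e l * |gP (e+2) t l| * En (e+2) lam l ≤
      ∑ l ∈ s, ∫ y in (-1:ℝ)..1, nN e l * En (e+2) lam l * (wt (e+2) y * ‖zz t y‖^l) := by
    rw [Finset.mul_sum]
    apply Finset.sum_le_sum
    intro l _
    rw [intervalIntegral.integral_const_mul]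
    have h2 := Zc_mul_abs_gP_le (e+2) (by omega) ht.le l
    have h3 := mul_nonneg (nN_nonneg e l) (hE l)
    calc Zc (e+2) * (nN e l * |gP (e+2) t l| * En (e+2) lam l)
        = nN e l * En (e+2) lam l * (Zc (e+2) * |gP (e+2) t l|) := by ring
      _ ≤ _ := mul_le_mul_of_nonneg_left h2 h3
  refine h1.trans ?_
  rw [← intervalIntegral.integral_finsetSum (fun l _ => (hcont l).intervalIntegrable _ _)]
  have h2 : ∫ y in (-1:ℝ)..1, ((2/(1-t^2))^(2*g) * I) = 2 * ((2/(1-t^2))^(2*g) * I) := by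
    rw [intervalIntegral.integral_const]; norm_num
  rw [← h2]
  apply intervalIntegral.integral_mono_on_of_le_Ioo (by norm_num)
  · exact (continuous_finsetSum _ (fun l _ => hcont l)).intervalIntegrable _ _
  · exact continuous_const.intervalIntegrable _ _
  · intro y hy
    have h3 := norm_zz_lt_one ht hy
    have h4 := sum_le_Qe D hE (norm_nonneg (zz t y)) h3 s
    have h5 := Qe_le D hg hI hpot (norm_nonneg (zz t y)) h3
    have h6 := wt_mul_le hg ht hy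
    have h7 : 0 ≤ wt (e+2) y := wt_nonneg _ ⟨hy.1.le, hy.2.le⟩
    have h8 : (1-y^2)^(e-2*g) ≤ 1 := by
      apply pow_le_one₀ <;> nlinarith [hy.1, hy.2]
    have h9 : 0 ≤ (2/(1-t^2))^(2*g) := by
      have h1 := abs_lt.1 ht
      have h2 : 0 < 1 - t^2 := by nlinarith [h1.1, h1.2]
      positivity
    calc ∑ l ∈ s, nN e l * En (e+2) lam l * (wt (e+2) y * ‖zz t y‖^l)
        = wt (e+2) y * ∑ l ∈ s, nN e l * ‖zz t y‖^l * En (e+2) lam l := by
          rw [Finset.mul_sum]; apply Finset.sum_congr rfl; intro l _; ring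
      _ ≤ wt (e+2) y * ((1/(1-‖zz t y‖))^(2*g) * I) := mul_le_mul_of_nonneg_left (h4.trans h5) h7
      _ = (wt (e+2) y * (1/(1-‖zz t y‖))^(2*g)) * I := by ring
      _ ≤ ((2/(1-t^2))^(2*g) * (1-y^2)^(e-2*g)) * I := mul_le_mul_of_nonneg_right h6 hI
      _ ≤ ((2/(1-t^2))^(2*g) * 1) * I :=
          mul_le_mul_of_nonneg_right (mul_le_mul_of_nonneg_left h8 h9) hI
      _ = _ := by ring

/-- the function `H` -/
noncomputable def Hy (e : ℕ) (lam : Measure (EuclideanSpace ℝ (Fin n))) (t y : ℝ) : ℂ :=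
  ∫ p, Fk e (zz t y) (inner ℝ p.1 p.2) ∂(lam.prod lam)

lemma continuousOn_joint (D : Dat e lam S) {t : ℝ}
    (hne : ∀ u ∈ S, ∀ w ∈ S, (inner ℝ u w : ℝ) ≠ t) :
    ContinuousOn (fun q : ℝ × (EuclideanSpace ℝ (Fin n) × EuclideanSpace ℝ (Fin n)) =>
      ((wt (e+2) q.1 : ℝ):ℂ) * Fk e (zz t q.1) (inner ℝ q.2.1 q.2.2)) (Icc (-1) 1 ×ˢ (S ×ˢ S)) := by
  have hz := continuous_zz t
  have hw := continuous_wt (e+2)
  have hc : Continuous fun p : EuclideanSpace ℝ (Fin n) × EuclideanSpace ℝ (Fin n) =>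
      (inner ℝ p.1 p.2 : ℝ) := continuous_fst.inner continuous_snd
  unfold Fk
  apply ContinuousOn.mul (by fun_prop)
  apply ContinuousOn.div (by fun_prop) (by fun_prop)
  intro q hq
  exact pow_ne_zero _ (q_zz_ne (abs_inner_le D.h1 hq.2) (hne _ hq.2.1 _ hq.2.2) q.1)

lemma integrable_joint (D : Dat e lam S) {t : ℝ}
    (hne : ∀ u ∈ S, ∀ w ∈ S, (inner ℝ u w : ℝ) ≠ t) :
    Integrable (Function.uncurry fun (y : ℝ) (p : EuclideanSpace ℝ (Fin n) × EuclideanSpace ℝ (Fin n)) =>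
      ((wt (e+2) y : ℝ):ℂ) * Fk e (zz t y) (inner ℝ p.1 p.2))
      ((volume.restrict (Set.uIoc (-1:ℝ) 1)).prod (lam.prod lam)) := by
  have h1 : IntegrableOn (fun q : ℝ × (EuclideanSpace ℝ (Fin n) × EuclideanSpace ℝ (Fin n)) =>
      ((wt (e+2) q.1 : ℝ):ℂ) * Fk e (zz t q.1) (inner ℝ q.2.1 q.2.2)) (Icc (-1) 1 ×ˢ (S ×ˢ S))
      ((volume : Measure ℝ).prod (lam.prod lam)) :=
    (continuousOn_joint D hne).integrableOn_compact (isCompact_Icc.prod (D.hK.prod D.hK))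
  rw [IntegrableOn, ← Measure.prod_restrict] at h1
  have h2 : (lam.prod lam).restrict (S ×ˢ S) = lam.prod lam :=
    Measure.restrict_eq_self_of_ae_mem (ae_mem_prod D.h0)
  rw [h2] at h1
  apply h1.mono_measure
  rw [uIoc_of_le (by norm_num)]
  exact Measure.prod_mono (Measure.restrict_mono Ioc_subset_Icc_self le_rfl) le_rfl

lemma integral_wt_Hy (D : Dat e lam S) {t : ℝ} (ht : |t| < 1)
    (hne : ∀ u ∈ S, ∀ w ∈ S, (inner ℝ u w : ℝ) ≠ t) :
    ∫ y in (-1:ℝ)..1, ((wt (e+2) y : ℝ):ℂ) * Hy e lam t y = 0 := by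
  have h := intervalIntegral_integral_swap (integrable_joint D hne)
  have h1 : ∀ y : ℝ, ∫ p, ((wt (e+2) y : ℝ):ℂ) * Fk e (zz t y) (inner ℝ p.1 p.2) ∂(lam.prod lam)
      = ((wt (e+2) y : ℝ):ℂ) * Hy e lam t y := by
    intro y; unfold Hy; rw [integral_const_mul]
  simp_rw [h1] at h
  rw [h]
  have h2 : ∫ p : EuclideanSpace ℝ (Fin n) × EuclideanSpace ℝ (Fin n), (∫ y in (-1:ℝ)..1,
      ((wt (e+2) y : ℝ):ℂ) * Fk e (zz t y) (inner ℝ p.1 p.2)) ∂(lam.prod lam)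
      = ∫ p : EuclideanSpace ℝ (Fin n) × EuclideanSpace ℝ (Fin n), (0:ℂ) ∂(lam.prod lam) := by
    apply integral_congr_ae
    filter_upwards [ae_mem_prod D.h0] with p hp
    exact vanish e ht (abs_inner_le D.h1 hp) (hne _ hp.1 _ hp.2)
  rw [h2]; simp

lemma intervalIntegrable_wt_Hy (D : Dat e lam S) {t : ℝ}
    (hne : ∀ u ∈ S, ∀ w ∈ S, (inner ℝ u w : ℝ) ≠ t) :
    IntervalIntegrable (fun y : ℝ => ((wt (e+2) y : ℝ):ℂ) * Hy e lam t y) volume (-1) 1 := by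
  rw [intervalIntegrable_iff, IntegrableOn]
  have h := (integrable_joint D hne).integral_prod_left
  have h1 : ∀ y : ℝ, ∫ p, ((wt (e+2) y : ℝ):ℂ) * Fk e (zz t y) (inner ℝ p.1 p.2) ∂(lam.prod lam)
      = ((wt (e+2) y : ℝ):ℂ) * Hy e lam t y := by
    intro y; unfold Hy; rw [integral_const_mul]
  simpa [Function.uncurry, h1] using h

/-- the main tail estimate -/
theorem tail_bound (D : Dat e lam S) (hE : ∀ l, 0 ≤ En (e+2) lam l) {g : ℕ} (hg : 2*g ≤ e)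
    {I : ℝ} (hI : 0 ≤ I)
    (hpot : (∫⁻ u, ∫⁻ w, pot (e+2-g) u w ∂lam ∂lam) ≤ ENNReal.ofReal I)
    {t : ℝ} (ht : |t| < 1) (hne : ∀ u ∈ S, ∀ w ∈ S, (inner ℝ u w : ℝ) ≠ t)
    {r : ℝ} (hr0 : 0 ≤ r) (hr1 : r < 1) (hr : (1+3*t^2)/4 ≤ r^4) (L : ℕ) :
    Zc (e+2) * |∑ l ∈ Finset.range (L+1), nN e l * gP (e+2) t l * En (e+2) lam l| ≤
      Zc (e+2) * (r^(L+1) * ((1/(1-r))^(2*g) * I)) +
        2 * ((2/(1-t^2))^(2*g) * (3/4)^(e-2*g) * I) := by
  have h1t := abs_lt.1 ht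
  have h2t : 0 < 1 - t^2 := by nlinarith [h1t.1, h1t.2]
  set A := r^(L+1) * ((1/(1-r))^(2*g) * I) with hA
  set B := (2/(1-t^2))^(2*g) * (3/4)^(e-2*g) * I with hB
  have hr1' : 0 < 1 - r := by linarith
  have hA0 : 0 ≤ A := by positivity
  have hB0 : 0 ≤ B := by positivity
  have hz := continuous_zz t
  have hw := continuous_wt (e+2)
  -- the finite part as an integral
  set Fin' : ℝ → ℂ := fun y => ∑ l ∈ Finset.range (L+1), (nN e l : ℂ) * zz t y^l * (En (e+2) lam l : ℂ)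
    with hFin
  have hFc : Continuous Fin' := by
    rw [hFin]; fun_prop
  have h1 : ∫ y in (-1:ℝ)..1, ((wt (e+2) y : ℝ):ℂ) * Fin' y =
      ((Zc (e+2) * ∑ l ∈ Finset.range (L+1), nN e l * gP (e+2) t l * En (e+2) lam l : ℝ) : ℂ) := by
    have h2 : ∀ y : ℝ, ((wt (e+2) y : ℝ):ℂ) * Fin' y = ∑ l ∈ Finset.range (L+1),
        ((nN e l : ℂ) * (En (e+2) lam l : ℂ)) * (((wt (e+2) y : ℝ):ℂ) * zz t y^l) := by
      intro y
      rw [hFin, Finset.mul_sum]
      apply Finset.sum_congr rfl; intro l _; ring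
    simp_rw [h2]
    rw [intervalIntegral.integral_finsetSum]
    · push_cast
      rw [Finset.mul_sum]
      apply Finset.sum_congr rfl
      intro l _
      rw [intervalIntegral.integral_const_mul]
      have := laplace (e+2) (by omega) ht.le l
      unfold Am at this
      rw [this]; ring
    · intro l _
      apply Continuous.intervalIntegrable
      fun_prop
  have h3 : ∫ y in (-1:ℝ)..1, (((wt (e+2) y : ℝ):ℂ) * Fin' y - ((wt (e+2) y : ℝ):ℂ) * Hy e lam t y) =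
      ((Zc (e+2) * ∑ l ∈ Finset.range (L+1), nN e l * gP (e+2) t l * En (e+2) lam l : ℝ) : ℂ) := by
    rw [intervalIntegral.integral_sub, h1, integral_wt_Hy D ht hne, sub_zero]
    · apply Continuous.intervalIntegrable; fun_prop
    · exact intervalIntegrable_wt_Hy D hne
  have h4 : Zc (e+2) * |∑ l ∈ Finset.range (L+1), nN e l * gP (e+2) t l * En (e+2) lam l| =
      ‖∫ y in (-1:ℝ)..1, (((wt (e+2) y : ℝ):ℂ) * Fin' y - ((wt (e+2) y : ℝ):ℂ) * Hy e lam t y)‖ := by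
    rw [h3, Complex.norm_real, Real.norm_eq_abs, abs_mul, abs_of_pos (Zc_pos (e+2) (by omega))]
  rw [h4]
  have h5 : ∫ y in (-1:ℝ)..1, (wt (e+2) y * A + B) = Zc (e+2) * A + 2 * B := by
    rw [intervalIntegral.integral_add, intervalIntegral.integral_mul_const,
      intervalIntegral.integral_const]
    · unfold Zc; norm_num
    · apply Continuous.intervalIntegrable; fun_prop
    · exact continuous_const.intervalIntegrable _ _
  rw [← h5]
  apply intervalIntegral.norm_integral_le_of_norm_le (by norm_num)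
  swap
  · apply Continuous.intervalIntegrable; fun_prop
  have hne1 : ∀ᵐ y : ℝ ∂volume, y ≠ 1 := by
    simp [ae_iff]
  filter_upwards [hne1] with y hy1 hy
  have hyI : y ∈ Ioo (-1:ℝ) 1 := ⟨hy.1, lt_of_le_of_ne hy.2 hy1⟩
  have hzl := norm_zz_lt_one ht hyI
  have hw0 : 0 ≤ wt (e+2) y := wt_nonneg _ ⟨hyI.1.le, hyI.2.le⟩
  -- tail of the series
  have hs : HasSum (fun l => (nN e (l+(L+1)) : ℂ) * zz t y^(l+(L+1)) * (En (e+2) lam (l+(L+1)) : ℂ))
      (Hy e lam t y - Fin' y) := by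
    have := hasSum_En D hzl
    rw [← hasSum_nat_add_iff' (L+1)] at this
    exact this
  have hnorm : ∀ l, ‖(nN e (l+(L+1)) : ℂ) * zz t y^(l+(L+1)) * (En (e+2) lam (l+(L+1)) : ℂ)‖ =
      nN e (l+(L+1)) * ‖zz t y‖^(l+(L+1)) * En (e+2) lam (l+(L+1)) := by
    intro l
    rw [norm_mul, norm_mul, norm_pow, Complex.norm_real, Complex.norm_real, Real.norm_eq_abs,
      Real.norm_eq_abs, abs_of_nonneg (nN_nonneg e _), abs_of_nonneg (hE _)]
  have hlhs : ‖((wt (e+2) y : ℝ):ℂ) * Fin' y - ((wt (e+2) y : ℝ):ℂ) * Hy e lam t y‖ =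
      wt (e+2) y * ‖Hy e lam t y - Fin' y‖ := by
    rw [← mul_sub, norm_mul, Complex.norm_real, Real.norm_eq_abs, abs_of_nonneg hw0, norm_sub_rev]
  rw [hlhs]
  have hfin0 : ∀ ρ : ℝ, 0 ≤ ρ → 0 ≤ ∑ l ∈ Finset.range (L+1), nN e l * ρ^l * En (e+2) lam l := by
    intro ρ hρ
    apply Finset.sum_nonneg
    intro l _
    exact mul_nonneg (mul_nonneg (nN_nonneg e l) (pow_nonneg hρ l)) (hE l)
  rcases le_or_gt (|y|) (1/2) with hcase | hcase
  · -- small y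
    have hzr : ‖zz t y‖ ≤ r^2 := by
      have h6 := norm_zz_sq ht.le y
      have h7 : y^2 ≤ 1/4 := by
        have := abs_le.1 hcase
        nlinarith [this.1, this.2]
      have h8 : ‖zz t y‖^2 ≤ (r^2)^2 := by
        rw [h6]; nlinarith
      exact abs_le_of_sq_le_sq' h8 (by positivity) |>.2
    have hQ := hasSum_Qe D hr0 hr1
    rw [← hasSum_nat_add_iff' (L+1)] at hQ
    have h9 := hs.norm_le_of_bounded (hQ.mul_left (r^(L+1))) (fun l => by
      rw [hnorm l]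
      have h10 : ‖zz t y‖^(l+(L+1)) ≤ r^(L+1) * r^(l+(L+1)) := by
        calc ‖zz t y‖^(l+(L+1)) ≤ (r^2)^(l+(L+1)) := pow_le_pow_left₀ (norm_nonneg _) hzr _
          _ = r^(l+(L+1)) * r^(l+(L+1)) := by ring
          _ ≤ r^(L+1) * r^(l+(L+1)) := by
              apply mul_le_mul_of_nonneg_right _ (by positivity)
              exact pow_le_pow_of_le_one hr0 hr1.le (by omega)
      have h11 := mul_nonneg (nN_nonneg e (l+(L+1))) (hE (l+(L+1)))
      calc nN e (l+(L+1)) * ‖zz t y‖^(l+(L+1)) * En (e+2) lam (l+(L+1))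
          = (nN e (l+(L+1)) * En (e+2) lam (l+(L+1))) * ‖zz t y‖^(l+(L+1)) := by ring
        _ ≤ (nN e (l+(L+1)) * En (e+2) lam (l+(L+1))) * (r^(L+1) * r^(l+(L+1))) :=
            mul_le_mul_of_nonneg_left h10 h11
        _ = _ := by ring)
    have h12 := Qe_le D hg hI hpot hr0 hr1
    have h13 := hfin0 r hr0
    have h14 : ‖Hy e lam t y - Fin' y‖ ≤ A := by
      refine h9.trans ?_
      rw [hA]
      apply mul_le_mul_of_nonneg_left _ (by positivity)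
      linarith
    nlinarith [mul_le_mul_of_nonneg_left h14 hw0]
  · -- large y
    have hQ := hasSum_Qe D (norm_nonneg (zz t y)) hzl
    rw [← hasSum_nat_add_iff' (L+1)] at hQ
    have h9 := hs.norm_le_of_bounded hQ (fun l => by rw [hnorm l])
    have h12 := Qe_le D hg hI hpot (norm_nonneg (zz t y)) hzl
    have h13 := hfin0 _ (norm_nonneg (zz t y))
    have h14 : ‖Hy e lam t y - Fin' y‖ ≤ (1/(1-‖zz t y‖))^(2*g) * I := by linarith
    have h15 := wt_mul_le hg ht hyI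
    have h16 : (1-y^2)^(e-2*g) ≤ (3/4)^(e-2*g) := by
      apply pow_le_pow_left₀
      · nlinarith [hyI.1, hyI.2]
      · have : 1/4 ≤ y^2 := by
          rw [← sq_abs]; nlinarith
        linarith
    have h17 : 0 ≤ (2/(1-t^2))^(2*g) := by positivity
    have h18 : wt (e+2) y * ‖Hy e lam t y - Fin' y‖ ≤ B := by
      calc wt (e+2) y * ‖Hy e lam t y - Fin' y‖
          ≤ wt (e+2) y * ((1/(1-‖zz t y‖))^(2*g) * I) := mul_le_mul_of_nonneg_left h14 hw0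
        _ = (wt (e+2) y * (1/(1-‖zz t y‖))^(2*g)) * I := by ring
        _ ≤ ((2/(1-t^2))^(2*g) * (1-y^2)^(e-2*g)) * I := mul_le_mul_of_nonneg_right h15 hI
        _ ≤ ((2/(1-t^2))^(2*g) * (3/4)^(e-2*g)) * I :=
            mul_le_mul_of_nonneg_right (mul_le_mul_of_nonneg_left h16 h17) hI
    have h19 : 0 ≤ wt (e+2) y * A := mul_nonneg hw0 hA0
    linarith

end Sph

end Pool.Agent.Lib.Angles
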