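import Pool.Agent.Lib.Angles.SphereGen

open MeasureTheory Set intervalIntegral

namespace Pool.Agent.Lib.Angles.Sph

lemma re_zz (t y : ℝ) : (zz t y).re = t := by
  unfold zz; simp

lemma q_zz_ne {t x : ℝ} (hx : |x| ≤ 1) (hne : x ≠ t) (y : ℝ) :
    1 - 2*(x:ℂ)*zz t y + (zz t y)^2 ≠ 0 := by
  intro h
  have h1 : 0 ≤ 1 - x^2 := by
    have := abs_le.1 hx
    nlinarith [this.1, this.2]
  set s := Real.sqrt (1-x^2) with hs
  have hs2 : s^2 = 1 - x^2 := Real.sq_sqrt h1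
  have hs2' : (s:ℂ)^2 = 1 - (x:ℂ)^2 := by exact_mod_cast congrArg (fun r : ℝ => (r:ℂ)) hs2
  have hI : Complex.I^2 = -1 := Complex.I_sq
  have h2 : (zz t y - x - Complex.I * s) * (zz t y - x + Complex.I*s) = 0 := by
    linear_combination h - (s:ℂ)^2 * hI + hs2'
  rcases mul_eq_zero.1 h2 with h3 | h3
  · have h4 := congrArg Complex.re h3
    simp [re_zz] at h4
    exact hne (by linarith)
  · have h4 := congrArg Complex.re h3
    simp [re_zz] at h4
    exact hne (by linarith)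

lemma continuous_wF (e : ℕ) {t x : ℝ} (hx : |x| ≤ 1) (hne : x ≠ t) :
    Continuous fun y : ℝ => ((wt (e+2) y : ℝ):ℂ) * Fk e (zz t y) x := by
  unfold Fk
  have h1 := continuous_wt (e+2)
  have h2 := continuous_zz t
  apply Continuous.mul (by fun_prop)
  apply Continuous.div (by fun_prop) (by fun_prop)
  intro y
  exact pow_ne_zero _ (q_zz_ne hx hne y)

theorem vanish (e : ℕ) {t x : ℝ} (ht1 : |t| < 1) (hx : |x| ≤ 1) (hne : x ≠ t) :
    ∫ y in (-1:ℝ)..1, ((wt (e+2) y : ℝ):ℂ) * Fk e (zz t y) x = 0 := by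
  set s : ℂ := ((Real.sqrt (1-t^2):ℝ):ℂ) with hs
  have hs0 : s ≠ 0 := by
    rw [hs, Complex.ofReal_ne_zero]
    have h1 := abs_lt.1 ht1
    exact (Real.sqrt_pos.2 (by nlinarith [h1.1, h1.2])).ne'
  set K : ℂ := 2*((e:ℂ)+1)*(Complex.I*s)*((x:ℂ)-t)*(s^2)^e with hK
  have hK0 : K ≠ 0 := by
    have h1 : (x:ℂ) - t ≠ 0 := by
      rw [sub_ne_zero]; exact_mod_cast hne
    have h2 : (e:ℂ)+1 ≠ 0 := by exact_mod_cast Nat.succ_ne_zero e
    rw [hK]
    exact mul_ne_zero (mul_ne_zero (mul_ne_zero (mul_ne_zero two_ne_zero h2)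
      (mul_ne_zero Complex.I_ne_zero hs0)) h1) (pow_ne_zero _ (pow_ne_zero _ hs0))
  have hder : ∀ y : ℝ, HasDerivAt
      (fun y : ℝ => ((1 - 2*(t:ℂ)*zz t y + (zz t y)^2) / (1 - 2*(x:ℂ)*zz t y + (zz t y)^2))^(e+1))
      (K * (((wt (e+2) y : ℝ):ℂ) * Fk e (zz t y) x)) y := by
    intro y
    have hq := q_zz_ne hx hne y
    have hz := hasDerivAt_zz t y
    rw [← hs] at hz
    have hquad : ∀ c : ℂ, HasDerivAt (fun y : ℝ => 1 - 2*c*zz t y + (zz t y)^2)
        (-(2*c*(Complex.I*s)) + 2*zz t y*(Complex.I*s)) y := by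
      intro c
      have h1 := (hz.const_mul (2*c)).const_sub 1
      have h2 := hz.fun_pow 2
      refine (h1.fun_add h2).congr_deriv ?_
      push_cast; ring
    have h3 := ((hquad t).fun_div (hquad x) hq).fun_pow (e+1)
    refine h3.congr_deriv ?_
    have hk := zz_key ht1.le y
    rw [← hs] at hk
    have hw : ((wt (e+2) y : ℝ):ℂ) = (1-(y:ℂ)^2)^e := by
      unfold wt; push_cast; simp
    rw [hw]
    unfold Fk
    simp only [Nat.add_sub_cancel]
    rw [div_pow]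
    have hk2 : (1 - 2*(t:ℂ)*zz t y + (zz t y)^2)^e = (s^2)^e * (1-(y:ℂ)^2)^e := by
      rw [hk, mul_pow]
    rw [hk2, hK]
    generalize hQ : (1 - 2*(x:ℂ)*zz t y + (zz t y)^2) = Q at hq ⊢
    have hQe := pow_ne_zero e hq
    have hnum : (-(2*(t:ℂ)*(Complex.I*s)) + 2*zz t y*(Complex.I*s)) * Q
        - (1 - 2*(t:ℂ)*zz t y + (zz t y)^2) * (-(2*(x:ℂ)*(Complex.I*s)) + 2*zz t y*(Complex.I*s))
        = 2*(Complex.I*s)*((x:ℂ)-t)*(1-(zz t y)^2) := by
      rw [← hQ]; ring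
    rw [hnum]
    push_cast
    field_simp
    ring
  have hint := integral_eq_sub_of_hasDerivAt (a := (-1:ℝ)) (b := 1) (fun y _ => hder y)
    ((continuous_const.mul (continuous_wF e hx hne)).intervalIntegrable _ _)
  rw [intervalIntegral.integral_const_mul] at hint
  have hend : ∀ y : ℝ, y^2 = 1 →
      ((1 - 2*(t:ℂ)*zz t y + (zz t y)^2) / (1 - 2*(x:ℂ)*zz t y + (zz t y)^2))^(e+1) = 0 := by
    intro y hy
    have hk := zz_key ht1.le y
    have hy' : (y:ℂ)^2 = 1 := by exact_mod_cast congrArg (fun r : ℝ => (r:ℂ)) hy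
    rw [hk, hy']
    simp
  rw [hend 1 (by norm_num), hend (-1) (by norm_num), sub_zero] at hint
  exact (mul_eq_zero.1 hint).resolve_left hK0

end Pool.Agent.Lib.Angles.Sph
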