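import Mathlib
import Pool.Agent.Lib.Angles.Assembly
import Pool.Agent.Lib.Angles.SphereFinal

/-!
# Uniformity of the constant on compact sets of angles
-/

namespace Pool.Agent.Lib.Angles

open MeasureTheory Set Filter Topology
open scoped ENNReal NNReal

/-- Monotonicity of `rOne` in the modulus. -/
lemma rOne_mono {t b₀ : ℝ} (h : |t| ≤ b₀) : rOne t ≤ rOne b₀ := by
  have h1 : t ^ 2 ≤ b₀ ^ 2 := by
    rw [← sq_abs t]
    exact pow_le_pow_left₀ (abs_nonneg t) h 2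
  unfold rOne
  apply Real.sqrt_le_sqrt
  apply Real.sqrt_le_sqrt
  linarith

/-- The parameters can be chosen uniformly for `a ≤ |t| ≤ b₀`. -/
theorem params_unif {a b₀ : ℝ} (ha : 0 < a) (hab : a ≤ b₀) (hb₀ : b₀ < 1) :
    ∃ N : ℕ, 1 ≤ N ∧ ∃ d₀ : ℕ, ∀ t : ℝ, a ≤ |t| → |t| ≤ b₀ → ∀ d : ℕ, d₀ ≤ d →
      ∀ g : ℕ, g = d / N →
      2 ≤ g ∧ 2 * g + 2 ≤ d ∧ 0 ≤ tailB d g t ∧ ∃ r q T : ℝ, 0 < r ∧ 0 < q ∧ 2 ≤ T ∧
      q + 2 ^ (-(2 * ((d : ℝ) - g) + 3)) ≤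
        1 / 2 * r ^ (2 * d - (2 * ((d : ℝ) - g) + 3)) / (1 + r) ^ (2 * d) ∧
      2 * √((4 * ((d : ℝ) - 1) * (2 / (1 - t ^ 2)) ^ (2 * g)) *
        (864 * (((d : ℝ) - g) + 1) * (d * (d + 1))) / (q * T)) ≤ 1 / 4 ∧
      tailB d g t * (864 * (((d : ℝ) - g) + 1) * (d * (d + 1)) * T / q) ≤ 1 / 4 := by
  have hb₀0 : 0 < b₀ := lt_of_lt_of_le ha hab
  have hb₀abs : |b₀| < 1 := by rwa [abs_of_pos hb₀0]
  obtain ⟨hr0, hr1⟩ := rOne_bounds hb₀abs
  have ht2 : 0 < 1 - b₀ ^ 2 := by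
    have : b₀ ^ 2 < 1 := (sq_lt_one_iff_abs_lt_one b₀).2 hb₀abs
    linarith
  have ht2' : 0 < a ^ 2 := by positivity
  set β : ℝ := max (rOne b₀ ^ (a ^ 2 / 2)) (3 / 4) with hβ
  have hβ1 : rOne b₀ ^ (a ^ 2 / 2) ≤ β := le_max_left _ _
  have hβ2 : 3 / 4 ≤ β := le_max_right _ _
  have hβ3 : β < 1 := max_lt (Real.rpow_lt_one hr0.le hr1 (by positivity)) (by norm_num)
  have hβ0 : 0 < β := by linarith
  set x : ℝ := √(√β) with hx
  have hx0 : 0 < x := by positivity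
  have hx1 : x < 1 := by
    rw [hx, Real.sqrt_lt' one_pos, one_pow, Real.sqrt_lt' one_pos]
    simpa using hβ3
  have hx4 : x ^ 4 = β := by
    rw [hx, show (4 : ℕ) = 2 * 2 by norm_num, pow_mul, Real.sq_sqrt (by positivity),
      Real.sq_sqrt hβ0.le]
  -- choice of `r`
  set r : ℝ := min (1 / √x - 1) (1 / 4) with hr
  have hsx : √x < 1 := by
    rw [Real.sqrt_lt' one_pos]
    simpa using hx1
  have hsx0 : 0 < √x := Real.sqrt_pos.2 hx0
  have hrpos : 0 < r := by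
    refine lt_min ?_ (by norm_num)
    rw [sub_pos, lt_div_iff₀ hsx0, one_mul]
    exact hsx
  have hr4 : r ≤ 1 / 4 := min_le_right _ _
  have hrx : (1 + r) ^ 4 * β ≤ x ^ 2 := by
    have h1 : 1 + r ≤ 1 / √x := by
      have : r ≤ 1 / √x - 1 := min_le_left _ _
      linarith
    have h2 : (1 + r) ^ 4 ≤ (1 / √x) ^ 4 := by gcongr
    have h3 : (1 / √x) ^ 4 = 1 / x ^ 2 := by
      rw [div_pow, one_pow, show (4 : ℕ) = 2 * 2 by norm_num, pow_mul, Real.sq_sqrt hx0.le]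
    rw [h3] at h2
    calc (1 + r) ^ 4 * β ≤ 1 / x ^ 2 * β := by gcongr
      _ = x ^ 2 := by
          rw [← hx4]
          field_simp
  set b : ℝ := 2 / (1 - b₀ ^ 2) with hb
  have hb2 : 2 ≤ b := by
    rw [hb, le_div_iff₀ ht2]
    nlinarith
  set Y : ℝ := max (1 / (1 - rOne b₀)) (b / β) with hY
  have hY1 : 1 / (1 - rOne b₀) ≤ Y := le_max_left _ _
  have hY2 : b / β ≤ Y := le_max_right _ _
  have hY0 : 1 ≤ Y := by
    refine le_trans ?_ hY1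
    rw [le_div_iff₀ (by linarith)]
    linarith
  set Z : ℝ := Y ^ 2 * b ^ 2 / r ^ 4 with hZ
  have hZ0 : 0 < Z := by positivity
  -- choice of `N`
  obtain ⟨N₁, hN₁⟩ := pow_unbounded_of_one_lt Z (show 1 < 1 / x by
    rw [lt_div_iff₀ hx0]
    linarith)
  obtain ⟨N₂, hN₂⟩ := pow_unbounded_of_one_lt ((2 / r) ^ 2) (show (1 : ℝ) < 2 by norm_num)
  set N : ℕ := max (max N₁ N₂) 4 with hN
  have hN4 : 4 ≤ N := le_max_right _ _
  have hZN : Z ≤ (1 / x) ^ N := by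
    refine hN₁.le.trans ?_
    apply pow_le_pow_right₀
    · rw [le_div_iff₀ hx0]
      linarith
    · exact (le_max_left _ _).trans (le_max_left _ _)
  have hrN : (2 / r) ^ 2 ≤ 2 ^ N := by
    refine hN₂.le.trans ?_
    apply pow_le_pow_right₀ (by norm_num)
    exact (le_max_right _ _).trans (le_max_left _ _)
  -- choice of `d₀`
  set C₀ : ℝ := 6 / β ^ 2 * 1728 * 442370 * 16 with hC₀
  have hC₀0 : 0 < C₀ := by positivity
  have hlim : Tendsto (fun n : ℕ => C₀ * ((n : ℝ) ^ 8 * x ^ n)) atTop (𝓝 (C₀ * 0)) :=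
    (tendsto_pow_const_mul_const_pow_of_abs_lt_one 8 (by
      rw [abs_of_pos hx0]
      exact hx1)).const_mul C₀
  rw [mul_zero] at hlim
  obtain ⟨d₁, hd₁⟩ := eventually_atTop.1 (hlim.eventually_le_const
    (show (0 : ℝ) < 1 / 4 by norm_num))
  refine ⟨N, by omega, max d₁ (2 * N), fun t hta htb d hd g hg => ?_⟩
  -- the value `t`
  have ht : |t| < 1 := lt_of_le_of_lt htb hb₀
  obtain ⟨hrt0, hrt1⟩ := rOne_bounds ht
  have hsq1 : a ^ 2 ≤ t ^ 2 := by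
    rw [← sq_abs t]
    exact pow_le_pow_left₀ ha.le hta 2
  have hsq2 : t ^ 2 ≤ b₀ ^ 2 := by
    rw [← sq_abs t]
    exact pow_le_pow_left₀ (abs_nonneg t) htb 2
  have hrt : rOne t ≤ rOne b₀ := rOne_mono htb
  have htt2 : 0 < 1 - t ^ 2 := by linarith
  set bt : ℝ := 2 / (1 - t ^ 2) with hbt
  have hbt2 : 2 ≤ bt := by
    rw [hbt, le_div_iff₀ htt2]
    nlinarith [sq_nonneg t]
  have hbtb : bt ≤ b := by
    rw [hbt, hb]
    exact div_le_div_of_nonneg_left (by norm_num) ht2 (by linarith)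
  have hβt : rOne t ^ (t ^ 2 / 2) ≤ β := by
    refine le_trans ?_ hβ1
    calc rOne t ^ (t ^ 2 / 2) ≤ rOne b₀ ^ (t ^ 2 / 2) :=
          Real.rpow_le_rpow hrt0.le hrt (by positivity)
      _ ≤ rOne b₀ ^ (a ^ 2 / 2) :=
          Real.rpow_le_rpow_of_exponent_ge hr0 hr1.le (by linarith)
  have hYt1 : 1 / (1 - rOne t) ≤ Y := by
    refine le_trans ?_ hY1
    exact div_le_div_of_nonneg_left (by norm_num) (by linarith) (by linarith)
  have hYt2 : bt / β ≤ Y := by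
    refine le_trans ?_ hY2
    gcongr
  have hdd₁ : d₁ ≤ d := (le_max_left _ _).trans hd
  have hdN : 2 * N ≤ d := (le_max_right _ _).trans hd
  have hNg : N * g ≤ d := by
    rw [hg]
    exact Nat.mul_div_le d N
  have hg2 : 2 ≤ g := by
    rw [hg, Nat.le_div_iff_mul_le (by omega)]
    omega
  have h4g : 4 * g ≤ d := le_trans (by gcongr) hNg
  have hgd : 2 * g + 2 ≤ d := by omega
  have hd1 : 1 ≤ d := by omega
  obtain ⟨ht1, ht3⟩ := tailB_le ht hβt hβ2 hβ3 hYt1 hYt2 hd1 hgd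
  refine ⟨hg2, hgd, ht1, ?_⟩
  have hdR : (1 : ℝ) ≤ d := by exact_mod_cast hd1
  have hgR : (2 : ℝ) ≤ g := by exact_mod_cast hg2
  have hgdR : 2 * (g : ℝ) + 2 ≤ d := by exact_mod_cast hgd
  set q : ℝ := 1 / 4 * r ^ (2 * g) / (1 + r) ^ (2 * d) with hq
  have hq0 : 0 < q := by positivity
  set B₁ : ℝ := 4 * ((d : ℝ) - 1) * bt ^ (2 * g) with hB₁
  have hB₁0 : 0 ≤ B₁ := by
    have : 0 ≤ (d : ℝ) - 1 := by linarith
    positivity
  set c₀ : ℝ := 864 * (((d : ℝ) - g) + 1) * (d * (d + 1)) with hc₀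
  have hc₀0 : 0 < c₀ := by
    have : 0 < (d : ℝ) - g + 1 := by linarith
    positivity
  have hTq : 0 ≤ 64 * B₁ * c₀ / q := by positivity
  refine ⟨r, q, 64 * B₁ * c₀ / q + 2, hrpos, hq0, by linarith,
    cond_one hrpos hr4 hNg hrN, cond_two hB₁0 hc₀0 hq0, ?_⟩
  have hPle := cond_three hrpos hr4 (by linarith) hd1 hg2 hgd hq hB₁ hc₀
  have hbb : (bt ^ 2 / r ^ 4) ^ g ≤ (b ^ 2 / r ^ 4) ^ g := by gcongr
  have hPle' : c₀ * (64 * B₁ * c₀ / q + 2) / q ≤ 1728 * 442370 * 16 * (d : ℝ) ^ 7 *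
      (b ^ 2 / r ^ 4) ^ g * ((1 + r) ^ 4) ^ d := by
    refine hPle.trans ?_
    gcongr
  have hZg : Z ^ g ≤ (1 / x) ^ d := by
    calc Z ^ g ≤ ((1 / x) ^ N) ^ g := by gcongr
      _ = (1 / x) ^ (N * g) := by rw [pow_mul]
      _ ≤ (1 / x) ^ d := by
          apply pow_le_pow_right₀ _ hNg
          rw [le_div_iff₀ hx0]
          linarith
  have hZg2 : Z ^ g = (Y ^ 2) ^ g * (b ^ 2 / r ^ 4) ^ g := by
    rw [hZ, mul_div_assoc, mul_pow]
  have hxx : (1 / x) ^ d * (x ^ 2) ^ d = x ^ d := by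
    rw [← mul_pow]
    congr 1
    field_simp
  calc tailB d g t * (c₀ * (64 * B₁ * c₀ / q + 2) / q)
      ≤ (6 * d / β ^ 2 * (Y ^ 2) ^ g * β ^ d) * (1728 * 442370 * 16 * (d : ℝ) ^ 7 *
        (b ^ 2 / r ^ 4) ^ g * ((1 + r) ^ 4) ^ d) := by gcongr
    _ = C₀ * (d : ℝ) ^ 8 * Z ^ g * ((1 + r) ^ 4 * β) ^ d := by
        rw [hZg2, mul_pow ((1 + r) ^ 4), hC₀]
        ring
    _ ≤ C₀ * (d : ℝ) ^ 8 * (1 / x) ^ d * (x ^ 2) ^ d := by gcongr
    _ = C₀ * (d : ℝ) ^ 8 * ((1 / x) ^ d * (x ^ 2) ^ d) := by ring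
    _ = C₀ * ((d : ℝ) ^ 8 * x ^ d) := by
        rw [hxx]
        ring
    _ ≤ 1 / 4 := hd₁ d hdd₁



/-- The even case, uniformly for `a ≤ |t| ≤ b₀`. -/
theorem even_case_unif {a b₀ : ℝ} (ha : 0 < a) (hab : a ≤ b₀) (hb₀ : b₀ < 1) :
    ∃ N : ℕ, 1 ≤ N ∧ ∃ d₀ : ℕ, ∀ t : ℝ, a ≤ |t| → |t| ≤ b₀ → ∀ d : ℕ, d₀ ≤ d →
      ∀ E : Set (VV d), MeasurableSet E →
      ENNReal.ofReal ((1 - 1 / (2 * (N : ℝ))) * (2 * d)) < dimH E →
      ∃ v ∈ E, ∃ y ∈ E, ∃ z ∈ E, y ≠ v ∧ z ≠ v ∧ inner ℝ (dir v y) (dir v z) = t := by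
  obtain ⟨N, hN, d₀, hd₀⟩ := params_unif ha hab hb₀
  refine ⟨N, hN, max d₀ (5 * N), fun t hta htb d hd E hE hdim => ?_⟩
  have ht : |t| < 1 := lt_of_le_of_lt htb hb₀
  have ht0 : t ≠ 0 := by
    rintro rfl
    rw [abs_zero] at hta
    linarith
  have hN0 : (0 : ℝ) < N := by exact_mod_cast hN
  obtain ⟨hg2, hgd, htail0, r, q, T, hr, hq, hT, hc1, hc2, hc3⟩ :=
    hd₀ t hta htb d ((le_max_left _ _).trans hd) (d / N) rfl
  set g : ℕ := d / N with hg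
  have hgdR : 2 * (g : ℝ) + 2 ≤ d := by exact_mod_cast hgd
  set s : ℝ := 2 * ((d : ℝ) - g) + 3 with hs
  have hs0 : 0 < s := by
    rw [hs]
    have : (0 : ℝ) ≤ g := Nat.cast_nonneg g
    linarith
  have hsle : s ≤ (1 - 1 / (2 * (N : ℝ))) * (2 * d) := by
    have h1 : (d : ℝ) < N * (g + 1) := by
      have : d < N * (d / N + 1) := Nat.lt_mul_div_succ d (by omega)
      exact_mod_cast this
    have h2 : (d : ℝ) / N < g + 1 := by
      rw [div_lt_iff₀ hN0]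
      linarith
    have h3 : (5 : ℝ) ≤ d / N := by
      rw [le_div_iff₀ hN0]
      have : 5 * N ≤ d := (le_max_right _ _).trans hd
      exact_mod_cast this
    have h4 : (1 - 1 / (2 * (N : ℝ))) * (2 * d) = 2 * d - d / N := by
      field_simp
    rw [h4, hs]
    linarith
  obtain ⟨sN, hsN⟩ : ∃ sN : ℝ≥0, (sN : ℝ) = s := ⟨⟨s, hs0.le⟩, rfl⟩
  have hlt : (sN : ℝ≥0∞) < dimH E := by
    refine lt_of_le_of_lt ?_ hdim
    rw [ENNReal.ofReal, ENNReal.coe_le_coe, ← NNReal.coe_le_coe, hsN]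
    exact hsle.trans (Real.le_coe_toNNReal _)
  obtain ⟨K, hKE, hKc, μ, hμK, C, hC, hμ⟩ :=
    GMT.frostman_euclidean (s := sN) (by rw [← NNReal.coe_pos, hsN]; exact hs0) hE hlt
  rw [hsN] at hμ
  obtain ⟨v, hv, y, hy, z, hz, h1, h2, h3⟩ := even_core hg2 hgd ht (sphereMain_holds hgd ht0 ht) hs hr hq hc1 hT
    hc2 hc3 htail0 (μ : Measure (VV d)) (IsProbabilityMeasure.ne_zero _) hC hμ hKc hμK
  exact ⟨v, hKE hv, y, hKE hy, z, hKE hz, h1, h2, h3⟩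

/-- Uniform version of the theorem, away from the right angle. -/
theorem main_unif {a b₀ : ℝ} (ha : 0 < a) (hab : a ≤ b₀) (hb₀ : b₀ < 1) :
    ∃ c : ℝ, c < 1 ∧ ∀ n : ℕ, 2 ≤ n → ∀ E : Set (EuclideanSpace ℝ (Fin n)), MeasurableSet E →
      ENNReal.ofReal (c * (n : ℝ)) < dimH E →
      ∀ α : ℝ, 0 < α → α < Real.pi → a ≤ |Real.cos α| → |Real.cos α| ≤ b₀ →
      ∃ v ∈ E, ∃ y ∈ E, ∃ z ∈ E, y ≠ v ∧ z ≠ v ∧ inner ℝ (dir v y) (dir v z) = Real.cos α := by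
  obtain ⟨N, hN, d₀, hd₀⟩ := even_case_unif ha hab hb₀
  have hN0 : (0 : ℝ) < N := by exact_mod_cast hN
  set n₀ : ℕ := 2 * (d₀ + 2 * N) with hn₀
  have hn₀0 : (0 : ℝ) < n₀ := by
    have : 0 < n₀ := by omega
    exact_mod_cast this
  refine ⟨max (1 - 1 / (4 * (N : ℝ))) (1 - 1 / (n₀ : ℝ)), ?_, fun n hn E hE hdim α hα0 hα1 hαa hαb => ?_⟩
  · apply max_lt
    · have : 0 < 1 / (4 * (N : ℝ)) := by positivity
      linarith
    · have : 0 < 1 / (n₀ : ℝ) := by positivity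
      linarith
  have hn0 : (0 : ℝ) ≤ n := Nat.cast_nonneg n
  rcases le_or_gt n n₀ with hle | hgt
  · obtain ⟨m', rfl⟩ : ∃ m', n = 1 + (m' + 1) := ⟨n - 2, by omega⟩
    have hdim' : ((m' + 1 : ℕ) : ℝ≥0∞) < dimH E := by
      refine lt_of_le_of_lt ?_ hdim
      rw [← ENNReal.ofReal_natCast]
      apply ENNReal.ofReal_le_ofReal
      have h1 : ((1 + (m' + 1) : ℕ) : ℝ) ≤ n₀ := by exact_mod_cast hle
      have h2 : (1 - 1 / (n₀ : ℝ)) * ((1 + (m' + 1) : ℕ) : ℝ) ≤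
          max (1 - 1 / (4 * (N : ℝ))) (1 - 1 / (n₀ : ℝ)) * ((1 + (m' + 1) : ℕ) : ℝ) :=
        mul_le_mul_of_nonneg_right (le_max_right _ _) hn0
      refine le_trans ?_ h2
      have h3 : 1 / (n₀ : ℝ) * ((1 + (m' + 1) : ℕ) : ℝ) ≤ 1 := by
        rw [one_div, inv_mul_le_iff₀ hn₀0]
        linarith
      push_cast at h3 ⊢
      linarith
    exact all_angles hE hdim' hα0 hα1
  · set d : ℕ := (n + 1) / 2 with hd
    obtain ⟨k, hk⟩ : ∃ k, 2 * d = n + k := ⟨2 * d - n, by omega⟩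
    have hk1 : k ≤ 1 := by omega
    have hdd₀ : d₀ ≤ d := by omega
    have hdN : 2 * N ≤ d := by omega
    obtain ⟨f, -⟩ := exists_embedding n k
    have hiso : Isometry f := f.isometry
    set E' : Set (EuclideanSpace ℝ (Fin (n + k))) := f '' E with hE'
    have hE'm : MeasurableSet E' :=
      hiso.isClosedEmbedding.measurableEmbedding.measurableSet_image.2 hE
    have hdimE' : dimH E' = dimH E := hiso.dimH_image E
    have hmain : ∀ E'' : Set (EuclideanSpace ℝ (Fin (n + k))), MeasurableSet E'' →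
        ENNReal.ofReal ((1 - 1 / (2 * (N : ℝ))) * (2 * d)) < dimH E'' →
        ∃ v ∈ E'', ∃ y ∈ E'', ∃ z ∈ E'', y ≠ v ∧ z ≠ v ∧
          inner ℝ (dir v y) (dir v z) = Real.cos α := by
      rw [← hk]
      exact hd₀ _ hαa hαb d hdd₀
    obtain ⟨_, ⟨v, hv, rfl⟩, _, ⟨y, hy, rfl⟩, _, ⟨z, hz, rfl⟩, h1, h2, h3⟩ := hmain E' hE'm (by
      rw [hdimE']
      refine lt_of_le_of_lt (ENNReal.ofReal_le_ofReal ?_) hdim
      have h2 : (1 - 1 / (4 * (N : ℝ))) * (n : ℝ) ≤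
          max (1 - 1 / (4 * (N : ℝ))) (1 - 1 / (n₀ : ℝ)) * (n : ℝ) :=
        mul_le_mul_of_nonneg_right (le_max_left _ _) hn0
      refine le_trans ?_ h2
      have h3 : 2 * (d : ℝ) - 1 ≤ n := by
        have : 2 * d ≤ n + 1 := by omega
        have h4 : 2 * (d : ℝ) ≤ n + 1 := by exact_mod_cast this
        linarith
      have h4 : 0 ≤ 1 - 1 / (4 * (N : ℝ)) := by
        rw [sub_nonneg, div_le_one (by positivity)]
        have : (1 : ℝ) ≤ N := by exact_mod_cast hN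
        linarith
      have h5 : (1 - 1 / (4 * (N : ℝ))) * (2 * (d : ℝ) - 1) ≤ (1 - 1 / (4 * (N : ℝ))) * n :=
        mul_le_mul_of_nonneg_left h3 h4
      refine le_trans ?_ h5
      have h6 : (1 : ℝ) ≤ d / (2 * N) := by
        rw [le_div_iff₀ (by positivity), one_mul]
        exact_mod_cast hdN
      have h7 : (1 - 1 / (2 * (N : ℝ))) * (2 * d) = 2 * d - 2 * (d / (2 * N)) := by
        field_simp
      have h8 : (1 - 1 / (4 * (N : ℝ))) * (2 * (d : ℝ) - 1) =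
          2 * d - 1 - d / (2 * N) + 1 / (4 * N) := by
        field_simp
        ring
      have h9 : 0 < 1 / (4 * (N : ℝ)) := by positivity
      rw [h7, h8]
      linarith)
    refine ⟨v, hv, y, hy, z, hz, fun h => h1 (by rw [h]), fun h => h2 (by rw [h]), ?_⟩
    rw [dir_map, dir_map, f.inner_map_map] at h3
    exact h3



/-- The right angle. -/
theorem right_three_four {n : ℕ} (hn : 2 ≤ n) {E : Set (EuclideanSpace ℝ (Fin n))}
    (hE : MeasurableSet E) (hdim : ENNReal.ofReal (3 / 4 * (n : ℝ)) < dimH E) :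
    ∃ v ∈ E, ∃ y ∈ E, ∃ z ∈ E, y ≠ v ∧ z ≠ v ∧ inner ℝ (dir v y) (dir v z) = (0 : ℝ) := by
  obtain ⟨k, m, hkm, hmk, rfl⟩ : ∃ k m : ℕ, k ≤ m ∧ m ≤ k + 1 ∧ n = k + m :=
    ⟨n / 2, n - n / 2, by omega, by omega, by omega⟩
  have hdim' : (m : ℝ≥0∞) < dimH E := by
    refine lt_of_le_of_lt ?_ hdim
    rw [← ENNReal.ofReal_natCast]
    apply ENNReal.ofReal_le_ofReal
    push_cast
    have h1 : (m : ℝ) ≤ k + 1 := by exact_mod_cast hmk
    have h2 : (2 : ℝ) ≤ k + m := by exact_mod_cast hn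
    linarith
  obtain ⟨v, hv, y, hy, z, hz, h1, h2, h3⟩ := right_angle hkm hE hdim'
  refine ⟨v, hv, y, hy, z, hz, h1, h2, ?_⟩
  unfold dir
  rw [real_inner_smul_left, real_inner_smul_right, h3]
  ring

end Pool.Agent.Lib.Angles
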